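import Pool.Agent.T2h36.BarDefs

/-!
# Flag algebra certificates of order `N`
-/

set_option autoImplicit false
open Finset

namespace Pool.Agent.T2h36

/-- the pairs `(k, m)`, `m ≥ 1`, such that two flags with `k` common roots and `m` further vertices
each fit on `N` vertices: `k + 2m ≤ N` -/
def pairs (N : ℕ) : Finset (ℕ × ℕ) :=
  ((range (N + 1)) ×ˢ (range (N + 1))).filter fun p => 1 ≤ p.2 ∧ p.1 + 2 * p.2 ≤ N

/-- the sum of squares `∑_{k,m} ∑_{j<r} [[f_{k,m,j}²]](G)` of combinations `f k m j` of flags with `k`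
roots and `m` further vertices -/
noncomputable def sos (N r : ℕ) (f : ∀ k m : ℕ, Fin r → Finset (Finset (Fin k ⊕ Fin m)) → ℝ)
    (G : Finset (Finset (Fin N))) : ℝ :=
  ∑ p ∈ pairs N, ∑ j : Fin r, avg (square (f p.1 p.2 j)) G

end Pool.Agent.T2h36
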