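import Pool.Agent.T2h36.Four

/-! The edge density and the density of copies of the complete 3-graph on four vertices. -/

set_option autoImplicit false
set_option linter.unusedSectionVars false
open Finset

namespace Pool.Agent.T2h36

section
variable {K q : ℕ} [NeZero K] [NeZero q]

theorem sum_triple {X : Type} [Fintype X] (f : X × X × X → ℝ) :
    ∑ t, f t = ∑ a, ∑ b, ∑ c, f (a, b, c) := by
  rw [Fintype.sum_prod_type]
  refine Finset.sum_congr rfl fun a _ => ?_
  rw [Fintype.sum_prod_type]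

theorem sum_quad {X : Type} [Fintype X] (f : X × X × X × X → ℝ) :
    ∑ t, f t = ∑ a, ∑ b, ∑ c, ∑ d, f (a, b, c, d) := by
  rw [Fintype.sum_prod_type]
  refine Finset.sum_congr rfl fun a _ => ?_
  rw [Fintype.sum_prod_type]
  refine Finset.sum_congr rfl fun b _ => ?_
  rw [Fintype.sum_prod_type]

theorem sum_psi3 : cnt (fun a b c : Vx K q => S a b c) ≤ ∑ σ : Fin 3 ↪ Vx K q, psi3 (pull σ (HG K q)) := by
  have h1 : ∑ σ : Fin 3 ↪ Vx K q, psi3 (pull σ (HG K q)) =
      ((univ.filter fun σ : Fin 3 ↪ Vx K q => univ.map σ ∈ HG K q).card : ℝ) := by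
    unfold psi3
    simp_rw [mem_pull]
    rw [Finset.sum_boole]
  have h2 : cnt (fun a b c : Vx K q => S a b c) =
      ((univ.filter fun t : Vx K q × Vx K q × Vx K q => S t.1 t.2.1 t.2.2).card : ℝ) := by
    unfold cnt
    rw [← Finset.sum_boole, sum_triple]
  rw [h1, h2]
  refine Nat.cast_le.mpr ?_
  refine Finset.card_le_card_of_surjOn (fun σ : Fin 3 ↪ Vx K q => (σ 0, σ 1, σ 2)) ?_
  rintro ⟨a, b, c⟩ ht
  simp only [coe_filter, mem_univ, true_and, Set.mem_ofPred_eq] at ht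
  obtain ⟨n1, n2, n3⟩ := S_ne ht
  have hinj : Function.Injective ![a, b, c] := by
    intro i j hij
    fin_cases i <;> fin_cases j <;> simp_all
  refine ⟨⟨![a, b, c], hinj⟩, ?_, rfl⟩
  simp only [coe_filter, mem_univ, true_and, Set.mem_ofPred_eq]
  have : (univ : Finset (Fin 3)).map ⟨![a, b, c], hinj⟩ = {a, b, c} := by
    ext x
    simp only [mem_map, mem_univ, true_and, Function.Embedding.coeFn_mk, mem_insert, mem_singleton]
    constructor
    · rintro ⟨i, rfl⟩
      fin_cases i <;> simp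
    · rintro (rfl | rfl | rfl)
      · exact ⟨0, rfl⟩
      · exact ⟨1, rfl⟩
      · exact ⟨2, rfl⟩
  rw [this, mem_HG]
  exact ht

theorem cast_desc3 (n : ℕ) (hn : 3 ≤ n) : ((n.descFactorial 3 : ℕ) : ℝ) = n * (n - 1) * (n - 2) := by
  have : n.descFactorial 3 = (n - 2) * ((n - 1) * n) := by simp [Nat.descFactorial]
  rw [this]
  push_cast [Nat.cast_sub (show 1 ≤ n by omega), Nat.cast_sub (show 2 ≤ n by omega)]
  ring

theorem cast_desc4 (n : ℕ) (hn : 4 ≤ n) :
    ((n.descFactorial 4 : ℕ) : ℝ) = n * (n - 1) * (n - 2) * (n - 3) := by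
  have : n.descFactorial 4 = (n - 3) * ((n - 2) * ((n - 1) * n)) := by simp [Nat.descFactorial]
  rw [this]
  push_cast [Nat.cast_sub (show 1 ≤ n by omega), Nat.cast_sub (show 2 ≤ n by omega),
    Nat.cast_sub (show 3 ≤ n by omega)]
  ring

/-- the edge density -/
theorem edgeDens_HG (hK : 2 ≤ K) (hq : 2 ≤ q) : 5 / 9 + ((K : ℝ) - 1) / (6 * (K : ℝ) ^ 4) ≤ edgeDens (HG K q) := by
  have hKr : (2 : ℝ) ≤ K := by exact_mod_cast hK
  have hqr : (2 : ℝ) ≤ q := by exact_mod_cast hq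
  have hn : 3 ≤ Fintype.card (Vx K q) := by
    rw [card_Vx]
    nlinarith [Nat.mul_le_mul hK hK]
  rw [edgeDens_eq _ HG_is3 hn]
  unfold avg
  rw [Fintype.card_embedding_eq, Fintype.card_fin, cast_desc3 _ hn, card_Vx]
  have h := cnt_S.trans (sum_psi3 (K := K) (q := q))
  have hKK : (4 : ℝ) ≤ K * K := by nlinarith
  have hm : (8 : ℝ) ≤ K * K * q := by nlinarith
  push_cast
  set m : ℝ := K * K * q with hmdef
  have hpos : (0 : ℝ) < (3 * ((K : ℝ) * K) * q) * (3 * ((K : ℝ) * K) * q - 1) * (3 * ((K : ℝ) * K) * q - 2) := by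
    have e : (3 * ((K : ℝ) * K) * q) = 3 * m := by rw [hmdef]; ring
    rw [e]
    have : (0 : ℝ) < 3 * m := by linarith
    have : (0 : ℝ) < 3 * m - 1 := by linarith
    have : (0 : ℝ) < 3 * m - 2 := by linarith
    positivity
  rw [le_div_iff₀ hpos]
  refine le_trans ?_ h
  have e : (3 * ((K : ℝ) * K) * q) = 3 * m := by rw [hmdef]; ring
  rw [e]
  have hK0 : (K : ℝ) ≠ 0 := by positivity
  have h1 : (((K : ℝ) - 1) / (6 * (K : ℝ) ^ 4)) * ((3 * m - 1) * (3 * m - 2)) ≤ 3 * (K - 1) * q * (q - 1) := by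
    have h2 : (3 * m - 1) * (3 * m - 2) ≤ 9 * m ^ 2 := by nlinarith
    have h3 : (((K : ℝ) - 1) / (6 * (K : ℝ) ^ 4)) * ((3 * m - 1) * (3 * m - 2)) ≤
        (((K : ℝ) - 1) / (6 * (K : ℝ) ^ 4)) * (9 * m ^ 2) := by
      refine mul_le_mul_of_nonneg_left h2 ?_
      have : (0 : ℝ) ≤ (K : ℝ) - 1 := by linarith
      positivity
    refine h3.trans ?_
    have h4 : (((K : ℝ) - 1) / (6 * (K : ℝ) ^ 4)) * (9 * m ^ 2) = (3 / 2) * (K - 1) * q ^ 2 := by
      rw [hmdef]
      field_simp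
      ring
    rw [h4]
    have h5 : (0 : ℝ) ≤ (K - 1) * q := by
      have : (0 : ℝ) ≤ (K : ℝ) - 1 := by linarith
      positivity
    nlinarith
  have h6 : (5 / 9 : ℝ) * ((3 * m - 1) * (3 * m - 2)) ≤ 5 * m ^ 2 - 3 * m := by nlinarith
  calc (5 / 9 + ((K : ℝ) - 1) / (6 * (K : ℝ) ^ 4)) * (3 * m * (3 * m - 1) * (3 * m - 2))
      = 3 * m * ((5 / 9 : ℝ) * ((3 * m - 1) * (3 * m - 2)) +
          (((K : ℝ) - 1) / (6 * (K : ℝ) ^ 4)) * ((3 * m - 1) * (3 * m - 2))) := by ring
    _ ≤ 3 * m * ((5 * m ^ 2 - 3 * m) + 3 * (K - 1) * q * (q - 1)) :=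
        mul_le_mul_of_nonneg_left (add_le_add h6 h1) (by linarith)
    _ = 3 * m * (5 * m ^ 2 - 3 * m + 3 * (K - 1) * q * (q - 1)) := by ring

/-! copies of the complete 3-graph on four vertices -/

/-- number of quadruples with a property -/
noncomputable def cnt4 (F : Vx K q → Vx K q → Vx K q → Vx K q → Prop) [∀ a b c d, Decidable (F a b c d)] : ℝ :=
  ∑ a : Vx K q, ∑ b : Vx K q, ∑ c : Vx K q, ∑ d : Vx K q, if F a b c d then (1 : ℝ) else 0

theorem sum_psi4 : ∑ σ : Fin 4 ↪ Vx K q, psi4 (pull σ (HG K q)) ≤ cnt4 (fun a b c d : Vx K q => K4 a b c d) := by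
  have h1 : ∑ σ : Fin 4 ↪ Vx K q, psi4 (pull σ (HG K q)) =
      ((univ.filter fun σ : Fin 4 ↪ Vx K q => ∀ T : Finset (Fin 4), T.card = 3 → T.map σ ∈ HG K q).card : ℝ) := by
    unfold psi4
    simp_rw [mem_pull]
    rw [Finset.sum_boole]
  have h2 : cnt4 (fun a b c d : Vx K q => K4 a b c d) =
      ((univ.filter fun t : Vx K q × Vx K q × Vx K q × Vx K q => K4 t.1 t.2.1 t.2.2.1 t.2.2.2).card : ℝ) := by
    unfold cnt4
    rw [← Finset.sum_boole, sum_quad]
  rw [h1, h2]
  refine Nat.cast_le.mpr ?_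
  refine Finset.card_le_card_of_injOn (fun σ : Fin 4 ↪ Vx K q => (σ 0, σ 1, σ 2, σ 3)) ?_ ?_
  · intro σ hσ
    simp only [coe_filter, mem_univ, true_and, Set.mem_ofPred_eq] at hσ ⊢
    refine ⟨?_, ?_, ?_, ?_⟩
    · have := hσ {0, 1, 2} (by decide)
      rw [← mem_HG]
      simpa [Finset.map_insert, Finset.map_singleton] using this
    · have := hσ {0, 1, 3} (by decide)
      rw [← mem_HG]
      simpa [Finset.map_insert, Finset.map_singleton] using this
    · have := hσ {0, 2, 3} (by decide)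
      rw [← mem_HG]
      simpa [Finset.map_insert, Finset.map_singleton] using this
    · have := hσ {1, 2, 3} (by decide)
      rw [← mem_HG]
      simpa [Finset.map_insert, Finset.map_singleton] using this
  · intro σ _ σ' _ h
    simp only [Prod.mk.injEq] at h
    refine DFunLike.ext _ _ fun i => ?_
    fin_cases i
    · exact h.1
    · exact h.2.1
    · exact h.2.2.1
    · exact h.2.2.2

theorem cnt4_U : cnt4 (fun a b c d : Vx K q => U a b c d) ≤ 36 * (K : ℝ) ^ 4 * (q : ℝ) ^ 4 := by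
  unfold cnt4
  have h : ∀ a : Vx K q, (∑ b : Vx K q, ∑ c : Vx K q, ∑ d : Vx K q, if U a b c d then (1 : ℝ) else 0) ≤
      q * ((3 * (K * K) * q) * q + (3 * K * q) * (3 * K * q)) := by
    intro a
    have h1 : ∀ b c d : Vx K q, (if U a b c d then (1 : ℝ) else 0) ≤
        (if b.1 = a.1 then (1 : ℝ) else 0) * ((if d.1 = c.1 then (1 : ℝ) else 0) +
          (if c.1.2.1 = a.1.2.1 ∧ d.1.2.1 = a.1.2.1 then (1 : ℝ) else 0)) := by
      intro b c d
      have hnn : ∀ p : Prop, [Decidable p] → (0 : ℝ) ≤ if p then (1 : ℝ) else 0 := by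
        intro p _
        split_ifs <;> norm_num
      by_cases hU : U a b c d
      · rw [if_pos hU, if_pos hU.1.symm]
        rcases hU.2 with h | h
        · rw [if_pos h.symm]
          linarith [hnn (c.1.2.1 = a.1.2.1 ∧ d.1.2.1 = a.1.2.1)]
        · rw [if_pos h]
          linarith [hnn (d.1 = c.1)]
      · rw [if_neg hU]
        exact mul_nonneg (hnn _) (add_nonneg (hnn _) (hnn _))
    refine (Finset.sum_le_sum fun b _ => Finset.sum_le_sum fun c _ => Finset.sum_le_sum fun d _ => h1 b c d).trans ?_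
    have h2 : ∑ c : Vx K q, ∑ d : Vx K q, (if d.1 = c.1 then (1 : ℝ) else 0) = (3 * (K * K) * q) * q := by
      simp_rw [Finset.sum_boole, cA]
      rw [Finset.sum_const, nsmul_eq_mul, card_univ, card_Vx]
      push_cast
      ring
    have h3 : ∑ c : Vx K q, ∑ d : Vx K q, (if c.1.2.1 = a.1.2.1 ∧ d.1.2.1 = a.1.2.1 then (1 : ℝ) else 0) =
        (3 * K * q) * (3 * K * q) := by
      rw [sum_and (fun c : Vx K q => c.1.2.1 = a.1.2.1) (fun c : Vx K q => c.1.2.1 = a.1.2.1), c3]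
      push_cast
      ring
    simp_rw [← Finset.mul_sum, Finset.sum_add_distrib, h2, h3]
    rw [← Finset.sum_mul, Finset.sum_boole, cA]
  refine (Finset.sum_le_sum fun a _ => h a).trans ?_
  rw [Finset.sum_const, nsmul_eq_mul, card_univ, card_Vx]
  push_cast
  apply le_of_eq
  ring

theorem s12 (F : Vx K q → Vx K q → Vx K q → Vx K q → Prop) [∀ a b c d, Decidable (F a b c d)] :
    cnt4 (fun a b c d => F b a c d) = cnt4 F := by
  unfold cnt4
  rw [Finset.sum_comm]

theorem s23 (F : Vx K q → Vx K q → Vx K q → Vx K q → Prop) [∀ a b c d, Decidable (F a b c d)] :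
    cnt4 (fun a b c d => F a c b d) = cnt4 F := by
  unfold cnt4
  refine Finset.sum_congr rfl fun a _ => ?_
  rw [Finset.sum_comm]

theorem s34 (F : Vx K q → Vx K q → Vx K q → Vx K q → Prop) [∀ a b c d, Decidable (F a b c d)] :
    cnt4 (fun a b c d => F a b d c) = cnt4 F := by
  unfold cnt4
  refine Finset.sum_congr rfl fun a _ => Finset.sum_congr rfl fun b _ => ?_
  rw [Finset.sum_comm]

theorem cnt4_le : cnt4 (fun a b c d : Vx K q => K4 a b c d) ≤ 216 * (K : ℝ) ^ 4 * (q : ℝ) ^ 4 := by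
  have hU := cnt4_U (K := K) (q := q)
  have e1 : cnt4 (fun a b c d : Vx K q => U a c b d) = cnt4 (fun a b c d : Vx K q => U a b c d) :=
    s23 (fun a b c d : Vx K q => U a b c d)
  have e2 : cnt4 (fun a b c d : Vx K q => U a d b c) = cnt4 (fun a b c d : Vx K q => U a b c d) :=
    (s34 (fun a b c d : Vx K q => U a c b d)).trans e1
  have e3 : cnt4 (fun a b c d : Vx K q => U b c a d) = cnt4 (fun a b c d : Vx K q => U a b c d) :=
    (s12 (fun a b c d : Vx K q => U a c b d)).trans e1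
  have e4 : cnt4 (fun a b c d : Vx K q => U b d a c) = cnt4 (fun a b c d : Vx K q => U a b c d) :=
    (s12 (fun a b c d : Vx K q => U a d b c)).trans e2
  have e5 : cnt4 (fun a b c d : Vx K q => U c d a b) = cnt4 (fun a b c d : Vx K q => U a b c d) :=
    (s23 (fun a b c d : Vx K q => U b d a c)).trans e4
  have hle : cnt4 (fun a b c d : Vx K q => K4 a b c d) ≤
      cnt4 (fun a b c d : Vx K q => U a b c d) + cnt4 (fun a b c d : Vx K q => U a c b d) +
      cnt4 (fun a b c d : Vx K q => U a d b c) + cnt4 (fun a b c d : Vx K q => U b c a d) +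
      cnt4 (fun a b c d : Vx K q => U b d a c) + cnt4 (fun a b c d : Vx K q => U c d a b) := by
    unfold cnt4
    simp only [← Finset.sum_add_distrib]
    refine Finset.sum_le_sum fun a _ => Finset.sum_le_sum fun b _ => Finset.sum_le_sum fun c _ =>
      Finset.sum_le_sum fun d _ => ?_
    have hnn : ∀ p : Prop, [Decidable p] → (0 : ℝ) ≤ if p then (1 : ℝ) else 0 := by
      intro p _
      split_ifs <;> norm_num
    by_cases h : K4 a b c d
    · rw [if_pos h]
      rcases K4_UU h with h | h | h | h | h | h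
      all_goals
        rw [if_pos h]
        linarith [hnn (U a b c d), hnn (U a c b d), hnn (U a d b c), hnn (U b c a d), hnn (U b d a c), hnn (U c d a b)]
    · rw [if_neg h]
      linarith [hnn (U a b c d), hnn (U a c b d), hnn (U a d b c), hnn (U b c a d), hnn (U b d a c), hnn (U c d a b)]
  rw [e1, e2, e3, e4, e5] at hle
  linarith

/-- the density of copies of the complete 3-graph on four vertices -/
theorem avg_psi4 (hK : 2 ≤ K) (hq : 2 ≤ q) : avg psi4 (HG K q) ≤ 6 / (K : ℝ) ^ 4 := by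
  have hKr : (2 : ℝ) ≤ K := by exact_mod_cast hK
  have hqr : (2 : ℝ) ≤ q := by exact_mod_cast hq
  have hn : 4 ≤ Fintype.card (Vx K q) := by
    rw [card_Vx]
    nlinarith [Nat.mul_le_mul hK hK]
  unfold avg
  rw [Fintype.card_embedding_eq, Fintype.card_fin, cast_desc4 _ hn, card_Vx]
  have h := (sum_psi4 (K := K) (q := q)).trans cnt4_le
  have hKK : (4 : ℝ) ≤ K * K := by nlinarith
  have hm : (8 : ℝ) ≤ K * K * q := by nlinarith
  push_cast
  set m : ℝ := K * K * q with hmdef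
  have e : (3 * ((K : ℝ) * K) * q) = 3 * m := by rw [hmdef]; ring
  rw [e]
  have p1 : (0 : ℝ) < 3 * m := by linarith
  have p2 : (0 : ℝ) < 3 * m - 1 := by linarith
  have p3 : (0 : ℝ) < 3 * m - 2 := by linarith
  have p4 : (0 : ℝ) < 3 * m - 3 := by linarith
  have hpos : (0 : ℝ) < 3 * m * (3 * m - 1) * (3 * m - 2) * (3 * m - 3) := by positivity
  have hK4 : (0 : ℝ) < (K : ℝ) ^ 4 := by positivity
  rw [div_le_div_iff₀ hpos hK4]
  have h1 : 36 * m ^ 4 ≤ 3 * m * (3 * m - 1) * (3 * m - 2) * (3 * m - 3) := by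
    have a1 : (8 / 3 : ℝ) * m ≤ 3 * m - 1 := by linarith
    have a2 : (5 / 2 : ℝ) * m ≤ 3 * m - 2 := by linarith
    have a3 : (5 / 2 : ℝ) * m ≤ 3 * m - 3 := by linarith
    have b1 : 3 * m * ((8 / 3 : ℝ) * m) ≤ 3 * m * (3 * m - 1) := mul_le_mul_of_nonneg_left a1 p1.le
    have b2 : 3 * m * ((8 / 3 : ℝ) * m) * ((5 / 2 : ℝ) * m) ≤ 3 * m * (3 * m - 1) * (3 * m - 2) :=
      mul_le_mul b1 a2 (by positivity) (by positivity)
    have b3 : 3 * m * ((8 / 3 : ℝ) * m) * ((5 / 2 : ℝ) * m) * ((5 / 2 : ℝ) * m) ≤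
        3 * m * (3 * m - 1) * (3 * m - 2) * (3 * m - 3) :=
      mul_le_mul b2 a3 (by positivity) (by positivity)
    refine le_trans ?_ b3
    nlinarith [pow_pos p1 4]
  calc (∑ σ : Fin 4 ↪ Vx K q, psi4 (pull σ (HG K q))) * (K : ℝ) ^ 4
      ≤ (216 * (K : ℝ) ^ 4 * (q : ℝ) ^ 4) * (K : ℝ) ^ 4 := mul_le_mul_of_nonneg_right h hK4.le
    _ = 6 * (36 * m ^ 4) := by rw [hmdef]; ring
    _ ≤ 6 * (3 * m * (3 * m - 1) * (3 * m - 2) * (3 * m - 3)) := by linarith

end

end Pool.Agent.T2h36
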