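import Mathlib

/-!
# Definitions: samples of 3-graphs, squares of flag combinations, valid inequalities

A 3-graph on the vertex set `V` is a `Finset (Finset V)` all of whose members have three elements.
-/

set_option autoImplicit false
open Finset

namespace Pool.Agent.T2h36

/-- all members of `H` have three elements: `H` is a 3-graph -/
def Is3 {V : Type} (H : Finset (Finset V)) : Prop := ∀ e ∈ H, e.card = 3

/-- no four vertices span all four triples -/
def K43Free {V : Type} (H : Finset (Finset V)) : Prop :=
  ∀ S : Finset V, S.card = 4 → ∃ T ⊆ S, T.card = 3 ∧ T ∉ H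

/-- the edge density: the number of edges over the number of triples -/
noncomputable def edgeDens {V : Type} [Fintype V] (H : Finset (Finset V)) : ℝ :=
  (H.card : ℝ) / (((Fintype.card V).choose 3 : ℕ) : ℝ)

/-- the number of 4-sets of vertices which span all four triples, over the number of 4-sets -/
noncomputable def k4Dens {V : Type} [Fintype V] [DecidableEq V] (H : Finset (Finset V)) : ℝ :=
  ((univ.filter fun S : Finset V => S.card = 4 ∧ ∀ T ⊆ S, T.card = 3 → T ∈ H).card : ℝ) /
    (((Fintype.card V).choose 4 : ℕ) : ℝ)

/-- the 3-graph on `A` induced by `H` through an embedding `θ` of `A` into the vertex set of `H` -/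
def pull {A V : Type} [Fintype A] [DecidableEq V] (θ : A ↪ V) (H : Finset (Finset V)) :
    Finset (Finset A) :=
  univ.filter fun e => e.map θ ∈ H

/-- the average of `ψ` over the samples of `H` indexed by `A`, that is over all embeddings of `A`
into the vertex set of `H` -/
noncomputable def avg {A V : Type} [Fintype A] [Fintype V] [DecidableEq V]
    (ψ : Finset (Finset A) → ℝ) (H : Finset (Finset V)) : ℝ :=
  (∑ θ : A ↪ V, ψ (pull θ H)) / (Fintype.card (A ↪ V) : ℝ)

/-- `k` roots and the first group of `m` further vertices -/
def left (k m : ℕ) : Fin k ⊕ Fin m ↪ Fin k ⊕ (Fin m ⊕ Fin m) :=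
  Function.Embedding.sumMap (Function.Embedding.refl _) Function.Embedding.inl

/-- `k` roots and the second group of `m` further vertices -/
def right (k m : ℕ) : Fin k ⊕ Fin m ↪ Fin k ⊕ (Fin m ⊕ Fin m) :=
  Function.Embedding.sumMap (Function.Embedding.refl _) Function.Embedding.inr

/-- the square of the combination `f` of flags with `k` roots and `m` further vertices: the product
of the values of `f` at the two flags with common roots and disjoint groups of further vertices -/
def square {k m : ℕ} (f : Finset (Finset (Fin k ⊕ Fin m)) → ℝ)
    (G : Finset (Finset (Fin k ⊕ (Fin m ⊕ Fin m)))) : ℝ :=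
  f (pull (left k m) G) * f (pull (right k m) G)

/-- the automorphisms of `H` act transitively on the vertices -/
def VertexTransitive {V : Type} [Fintype V] [DecidableEq V] (H : Finset (Finset V)) : Prop :=
  ∀ u v : V, ∃ π : Equiv.Perm V, π u = v ∧ ∀ e : Finset V, e ∈ H ↔ e.map π.toEmbedding ∈ H

/-- the sampled average of `φ` is asymptotically nonnegative over all vertex-transitive 3-graphs of
edge density at least `5/9` in which at most the fraction `δ` of the 4-sets of vertices spans all
four triples -/
def AsympNonneg (δ : ℝ) {N : ℕ} (φ : Finset (Finset (Fin N)) → ℝ) : Prop :=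
  ∀ ε : ℝ, 0 < ε → ∃ n₀ : ℕ, ∀ (V : Type) [Fintype V] [DecidableEq V] (H : Finset (Finset V)),
    n₀ ≤ Fintype.card V → Is3 H → VertexTransitive H → 5 / 9 ≤ edgeDens H → k4Dens H ≤ δ → -ε ≤ avg φ H

end Pool.Agent.T2h36
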