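import Pool.Agent.T2h36.Flag

/-! The vertex-transitive 3-graphs with a corner. -/

set_option autoImplicit false
set_option linter.unusedSectionVars false
open Finset

namespace Pool.Agent.T2h36

/-- the vertices: part, slab, cell in the slab; and the position in the cell -/
abbrev Vx (K q : ℕ) : Type := (ZMod 3 × ZMod K × ZMod K) × ZMod q

section
variable {K q : ℕ} [NeZero K] [NeZero q]

/-- three different parts -/
def P1 (a b c : Vx K q) : Prop := b.1.1 = a.1.1 + 1 ∧ c.1.1 = a.1.1 + 2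

/-- at least two vertices in the same part -/
def Q1 (a b c : Vx K q) : Prop := a.1.1 = b.1.1 ∧ c.1.1 = a.1.1 + 1 ∧ a.1 ≠ b.1
def Q2 (a b c : Vx K q) : Prop := a ≠ b ∧ a.1 = b.1 ∧ c.1.1 = a.1.1 ∧ c.1 ≠ a.1
def Q3 (a b c : Vx K q) : Prop := a ≠ b ∧ a.1 = b.1 ∧ c.1.1 = a.1.1 + 2 ∧ c.1.2.1 = a.1.2.1

instance (a b c : Vx K q) : Decidable (P1 a b c) := by unfold P1; infer_instance
instance (a b c : Vx K q) : Decidable (Q1 a b c) := by unfold Q1; infer_instance
instance (a b c : Vx K q) : Decidable (Q2 a b c) := by unfold Q2; infer_instance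
instance (a b c : Vx K q) : Decidable (Q3 a b c) := by unfold Q3; infer_instance

def Q (a b c : Vx K q) : Prop := Q1 a b c ∨ Q2 a b c ∨ Q3 a b c
instance (a b c : Vx K q) : Decidable (Q a b c) := by unfold Q; infer_instance

def S (a b c : Vx K q) : Prop := (P1 a b c ∨ P1 a c b) ∨ Q a b c ∨ Q b c a ∨ Q c a b
instance (a b c : Vx K q) : Decidable (S a b c) := by unfold S; infer_instance

theorem z10 : (1 : ZMod 3) ≠ 0 := by decide
theorem z20 : (2 : ZMod 3) ≠ 0 := by decide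
theorem z12 : (1 : ZMod 3) ≠ 2 := by decide
theorem z3 (i j : ZMod 3) : j = i ∨ j = i + 1 ∨ j = i + 2 := by
  revert i j; decide

theorem Q_symm {a b c : Vx K q} (h : Q a b c) : Q b a c := by
  unfold Q Q1 Q2 Q3 at *
  rcases h with ⟨h1, h2, h3⟩ | ⟨h1, h2, h3, h4⟩ | ⟨h1, h2, h3, h4⟩
  · exact Or.inl ⟨h1.symm, by rw [h2, h1], h3.symm⟩
  · exact Or.inr (Or.inl ⟨h1.symm, h2.symm, by rw [h3, h2], by rw [← h2]; exact h4⟩)
  · exact Or.inr (Or.inr ⟨h1.symm, h2.symm, by rw [h3, h2], by rw [← h2]; exact h4⟩)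

theorem P1_rot {a b c : Vx K q} (h : P1 a b c) : P1 b c a := by
  unfold P1 at *
  obtain ⟨h1, h2⟩ := h
  rw [h1, h2]
  generalize a.1.1 = i
  revert i; decide

theorem S_rot {a b c : Vx K q} (h : S a b c) : S b c a := by
  unfold S at *
  rcases h with (h | h) | h | h | h
  · exact Or.inl (Or.inl (P1_rot h))
  · exact Or.inl (Or.inr (P1_rot (P1_rot h)))
  · exact Or.inr (Or.inr (Or.inr h))
  · exact Or.inr (Or.inl h)
  · exact Or.inr (Or.inr (Or.inl h))

theorem S_swap {a b c : Vx K q} (h : S a b c) : S b a c := by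
  unfold S at *
  rcases h with (h | h) | h | h | h
  · exact Or.inl (Or.inr (P1_rot h))
  · exact Or.inl (Or.inl (P1_rot (P1_rot h)))
  · exact Or.inr (Or.inl (Q_symm h))
  · exact Or.inr (Or.inr (Or.inr (Q_symm h)))
  · exact Or.inr (Or.inr (Or.inl (Q_symm h)))

theorem S_ne {a b c : Vx K q} (h : S a b c) : a ≠ b ∧ b ≠ c ∧ a ≠ c := by
  have key : ∀ {a b c : Vx K q}, (P1 a b c ∨ Q a b c) → a ≠ b ∧ b ≠ c ∧ a ≠ c := by
    intro a b c h
    refine ⟨?_, ?_, ?_⟩ <;> rintro rfl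
    · simp [P1, Q, Q1, Q2, Q3, z10] at h
    · simp only [P1, Q, Q1, Q2, Q3] at h
      rcases h with ⟨h1, h2⟩ | ⟨h1, h2, h3⟩ | ⟨h1, h2, h3, h4⟩ | ⟨h1, h2, h3, h4⟩
      · rw [h1] at h2; exact z12 (add_left_cancel h2)
      · rw [h1] at h2; exact z10 (left_eq_add.mp h2)
      · exact h4 h2.symm
      · rw [h2] at h3; exact z20 (left_eq_add.mp h3)
    · simp only [P1, Q, Q1, Q2, Q3] at h
      rcases h with ⟨h1, h2⟩ | ⟨h1, h2, h3⟩ | ⟨h1, h2, h3, h4⟩ | ⟨h1, h2, h3, h4⟩
      · exact z20 (left_eq_add.mp h2)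
      · exact z10 (left_eq_add.mp h2)
      · exact h4 rfl
      · exact z20 (left_eq_add.mp h3)
  unfold S at h
  rcases h with (h | h) | h | h | h
  · exact key (Or.inl h)
  · obtain ⟨h1, h2, h3⟩ := key (Or.inl h)
    exact ⟨h3, h2.symm, h1⟩
  · exact key (Or.inr h)
  · obtain ⟨h1, h2, h3⟩ := key (Or.inr h)
    exact ⟨h3.symm, h1, h2.symm⟩
  · obtain ⟨h1, h2, h3⟩ := key (Or.inr h)
    exact ⟨h2, h3.symm, h1.symm⟩

/-- the 3-graph -/
def HG (K q : ℕ) [NeZero K] [NeZero q] : Finset (Finset (Vx K q)) :=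
  univ.filter fun e => ∃ a b c : Vx K q, S a b c ∧ ({a, b, c} : Finset (Vx K q)) = e

theorem mem_HG' {e : Finset (Vx K q)} :
    e ∈ HG K q ↔ ∃ a b c : Vx K q, S a b c ∧ ({a, b, c} : Finset (Vx K q)) = e := by
  unfold HG
  simp only [mem_filter, mem_univ, true_and]

theorem mem_HG {a b c : Vx K q} : ({a, b, c} : Finset (Vx K q)) ∈ HG K q ↔ S a b c := by
  rw [mem_HG']
  constructor
  · rintro ⟨x, y, z, hS, he⟩
    obtain ⟨h1, h2, h3⟩ := S_ne hS
    have hx : x ∈ ({a, b, c} : Finset (Vx K q)) := by rw [← he]; simp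
    have hy : y ∈ ({a, b, c} : Finset (Vx K q)) := by rw [← he]; simp
    have hz : z ∈ ({a, b, c} : Finset (Vx K q)) := by rw [← he]; simp
    simp only [mem_insert, mem_singleton] at hx hy hz
    rcases hx with rfl | rfl | rfl <;> rcases hy with rfl | rfl | rfl <;> rcases hz with rfl | rfl | rfl
    all_goals first
      | exact absurd rfl h1
      | exact absurd rfl h2
      | exact absurd rfl h3
      | exact hS
      | exact S_swap hS
      | exact S_rot hS
      | exact S_rot (S_rot hS)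
      | exact S_rot (S_swap hS)
      | exact S_swap (S_rot hS)
      | exact S_rot (S_rot (S_swap hS))
  · intro h
    exact ⟨a, b, c, h, rfl⟩

theorem HG_is3 : Is3 (HG K q) := by
  intro e he
  rw [mem_HG'] at he
  obtain ⟨x, y, z, hS, rfl⟩ := he
  obtain ⟨h1, h2, h3⟩ := S_ne hS
  exact Finset.card_eq_three.mpr ⟨x, y, z, h1, h3, h2, rfl⟩

theorem S_add {a b c : Vx K q} (g : Vx K q) : S (a + g) (b + g) (c + g) ↔ S a b c := by
  have h0 : ∀ x y : Vx K q, x + g = y + g ↔ x = y := fun x y => add_left_inj _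
  have h3 : ∀ x : Vx K q, (x + g).1 = x.1 + g.1 := fun x => rfl
  have h1 : ∀ x y : ZMod 3 × ZMod K × ZMod K, (x + y).1 = x.1 + y.1 := fun x y => rfl
  have h2 : ∀ x y : ZMod 3 × ZMod K × ZMod K, (x + y).2.1 = x.2.1 + y.2.1 := fun x y => rfl
  have e1 : ∀ x y : ZMod 3, x + g.1.1 = y + g.1.1 + 1 ↔ x = y + 1 := by
    intro x y
    rw [add_right_comm]
    exact add_left_inj _
  have e2 : ∀ x y : ZMod 3, x + g.1.1 = y + g.1.1 + 2 ↔ x = y + 2 := by
    intro x y
    rw [add_right_comm]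
    exact add_left_inj _
  have e3 : ∀ x y : ZMod 3 × ZMod K × ZMod K, x + g.1 = y + g.1 ↔ x = y := fun x y => add_left_inj _
  simp only [S, P1, Q, Q1, Q2, Q3, h3, ne_eq, h0, e3, h1, h2, e1, e2, add_left_inj]

theorem HG_trans : VertexTransitive (HG K q) := by
  intro u v
  refine ⟨Equiv.addRight (v - u), by simp, fun e => ?_⟩
  constructor
  · intro he
    rw [mem_HG'] at he
    obtain ⟨x, y, z, hS, rfl⟩ := he
    have : ({x, y, z} : Finset (Vx K q)).map (Equiv.addRight (v - u)).toEmbedding =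
        {x + (v - u), y + (v - u), z + (v - u)} := by
      simp [Finset.map_insert, Finset.map_singleton]
    rw [this, mem_HG, S_add]
    exact hS
  · intro he
    rw [mem_HG'] at he
    obtain ⟨x, y, z, hS, hxyz⟩ := he
    have h1 : e = {x + (u - v), y + (u - v), z + (u - v)} := by
      have h2 : (e.map (Equiv.addRight (v - u)).toEmbedding).map (Equiv.addRight (u - v)).toEmbedding = e := by
        rw [Finset.map_map]
        convert Finset.map_refl using 2
        ext a <;> simp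
      rw [← h2, ← hxyz]
      simp [Finset.map_insert, Finset.map_singleton]
    rw [h1, mem_HG, S_add]
    exact hS

end

end Pool.Agent.T2h36
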