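import Pool.Agent.T2h36.Corner

/-! Counting edges. -/

set_option autoImplicit false
set_option linter.unusedSectionVars false
open Finset

namespace Pool.Agent.T2h36

section
variable {K q : ℕ} [NeZero K] [NeZero q]

theorem card_Vx : Fintype.card (Vx K q) = 3 * (K * K) * q := by
  simp [Vx, ZMod.card]

theorem cA (x : ZMod 3 × ZMod K × ZMod K) : (univ.filter fun b : Vx K q => b.1 = x).card = q := by
  have : (univ.filter fun b : Vx K q => b.1 = x) = {x} ×ˢ univ := by
    ext b; simp only [mem_filter, mem_univ, true_and, mem_product, mem_singleton, and_true]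
  rw [this, card_product, card_singleton, card_univ, ZMod.card, one_mul]

theorem c1 (i : ZMod 3) : (univ.filter fun b : Vx K q => b.1.1 = i).card = K * K * q := by
  have : (univ.filter fun b : Vx K q => b.1.1 = i) = ({i} ×ˢ univ) ×ˢ univ := by
    ext b; simp only [mem_filter, mem_univ, true_and, mem_product, mem_singleton, and_true]
  rw [this, card_product, card_product, card_singleton, card_univ, card_univ, ZMod.card, one_mul,
    Fintype.card_prod, ZMod.card]

theorem c2 (i : ZMod 3) (x : ZMod K) :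
    (univ.filter fun b : Vx K q => b.1.1 = i ∧ b.1.2.1 = x).card = K * q := by
  have : (univ.filter fun b : Vx K q => b.1.1 = i ∧ b.1.2.1 = x) = ({i} ×ˢ ({x} ×ˢ univ)) ×ˢ univ := by
    ext b; simp only [mem_filter, mem_univ, true_and, mem_product, mem_singleton, and_true]
  rw [this, card_product, card_product, card_product, card_singleton, card_singleton, card_univ, card_univ,
    ZMod.card, ZMod.card, one_mul, one_mul]

theorem c3 (x : ZMod K) : (univ.filter fun b : Vx K q => b.1.2.1 = x).card = 3 * K * q := by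
  have : (univ.filter fun b : Vx K q => b.1.2.1 = x) = (univ ×ˢ ({x} ×ˢ univ)) ×ˢ univ := by
    ext b; simp only [mem_filter, mem_univ, true_and, mem_product, mem_singleton, and_true]
  rw [this, card_product, card_product, card_product, card_singleton, card_univ, card_univ, card_univ,
    ZMod.card, ZMod.card, ZMod.card, one_mul]

theorem cN (a : Vx K q) : (univ.filter fun b : Vx K q => a ≠ b ∧ a.1 = b.1).card + 1 = q := by
  have h := cA (K := K) (q := q) a.1
  have h2 : (univ.filter fun b : Vx K q => b.1 = a.1) =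
      insert a (univ.filter fun b : Vx K q => a ≠ b ∧ a.1 = b.1) := by
    ext b
    simp only [mem_filter, mem_univ, true_and, mem_insert]
    constructor
    · intro hb
      by_cases hab : a = b
      · exact Or.inl hab.symm
      · exact Or.inr ⟨hab, hb.symm⟩
    · rintro (rfl | ⟨_, hb⟩)
      · rfl
      · exact hb.symm
  rw [h2, card_insert_of_notMem (by simp)] at h
  exact h

theorem cM (a : Vx K q) :
    (univ.filter fun b : Vx K q => a.1.1 = b.1.1 ∧ a.1 ≠ b.1).card + q = K * K * q := by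
  have h := c1 (K := K) (q := q) a.1.1
  rw [← Finset.card_filter_add_card_filter_not (s := univ.filter fun b : Vx K q => b.1.1 = a.1.1)
    (p := fun b => b.1 = a.1)] at h
  rw [filter_filter, filter_filter] at h
  have h1 : (univ.filter fun b : Vx K q => b.1.1 = a.1.1 ∧ b.1 = a.1) = univ.filter fun b : Vx K q => b.1 = a.1 := by
    ext b
    simp only [mem_filter, mem_univ, true_and]
    exact ⟨fun h => h.2, fun h => ⟨by rw [h], h⟩⟩
  have h2 : (univ.filter fun b : Vx K q => b.1.1 = a.1.1 ∧ ¬ b.1 = a.1) =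
      univ.filter fun b : Vx K q => a.1.1 = b.1.1 ∧ a.1 ≠ b.1 := by
    ext b
    simp only [mem_filter, mem_univ, true_and, ne_eq]
    exact ⟨fun h => ⟨h.1.symm, fun h' => h.2 h'.symm⟩, fun h => ⟨h.1.symm, fun h' => h.2 h'.symm⟩⟩
  rw [h1, h2, cA] at h
  omega

theorem cM' (a : Vx K q) :
    (univ.filter fun c : Vx K q => c.1.1 = a.1.1 ∧ c.1 ≠ a.1).card + q = K * K * q := by
  rw [← cM a]
  congr 2
  ext b
  simp only [mem_filter, mem_univ, true_and, ne_eq]
  exact ⟨fun h => ⟨h.1.symm, fun h' => h.2 h'.symm⟩, fun h => ⟨h.1.symm, fun h' => h.2 h'.symm⟩⟩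

/-- number of pairs with independent conditions -/
theorem sum_and (A B : Vx K q → Prop) [DecidablePred A] [DecidablePred B] :
    (∑ b : Vx K q, ∑ c : Vx K q, if A b ∧ B c then (1 : ℝ) else 0) =
      ((univ.filter A).card : ℝ) * ((univ.filter B).card : ℝ) := by
  rw [← Finset.sum_boole, ← Finset.sum_boole, Finset.sum_mul_sum]
  refine Finset.sum_congr rfl fun b _ => Finset.sum_congr rfl fun c _ => ?_
  by_cases h1 : A b <;> by_cases h2 : B c <;> simp [h1, h2]

/-- number of triples with a property -/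
noncomputable def cnt (F : Vx K q → Vx K q → Vx K q → Prop) [∀ a b c, Decidable (F a b c)] : ℝ :=
  ∑ a : Vx K q, ∑ b : Vx K q, ∑ c : Vx K q, if F a b c then (1 : ℝ) else 0

theorem cnt_P1 : cnt (fun a b c : Vx K q => P1 a b c) = (3 * (K * K) * q) * ((K * K * q) * (K * K * q)) := by
  unfold cnt P1
  have h : ∀ a : Vx K q, (∑ b : Vx K q, ∑ c : Vx K q, if b.1.1 = a.1.1 + 1 ∧ c.1.1 = a.1.1 + 2 then (1 : ℝ) else 0) =
      (K * K * q) * (K * K * q) := by
    intro a
    rw [sum_and (fun b : Vx K q => b.1.1 = a.1.1 + 1) (fun c : Vx K q => c.1.1 = a.1.1 + 2), c1, c1]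
    push_cast
    ring
  rw [Finset.sum_congr rfl (fun a _ => h a), Finset.sum_const, nsmul_eq_mul, card_univ, card_Vx]
  push_cast
  ring

theorem cnt_Q1 : cnt (fun a b c : Vx K q => Q1 a b c) = (3 * (K * K) * q) * ((K * K * q - q) * (K * K * q)) := by
  unfold cnt Q1
  have h : ∀ a : Vx K q, (∑ b : Vx K q, ∑ c : Vx K q,
      if a.1.1 = b.1.1 ∧ c.1.1 = a.1.1 + 1 ∧ a.1 ≠ b.1 then (1 : ℝ) else 0) =
      (K * K * q - q) * (K * K * q) := by
    intro a
    have h1 : (∑ b : Vx K q, ∑ c : Vx K q,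
      if a.1.1 = b.1.1 ∧ c.1.1 = a.1.1 + 1 ∧ a.1 ≠ b.1 then (1 : ℝ) else 0) =
      ∑ b : Vx K q, ∑ c : Vx K q, if (a.1.1 = b.1.1 ∧ a.1 ≠ b.1) ∧ c.1.1 = a.1.1 + 1 then (1 : ℝ) else 0 := by
      refine Finset.sum_congr rfl fun b _ => Finset.sum_congr rfl fun c _ => ?_
      congr 1
      exact propext ⟨fun h => ⟨⟨h.1, h.2.2⟩, h.2.1⟩, fun h => ⟨h.1.1, h.2, h.1.2⟩⟩
    rw [h1, sum_and (fun b : Vx K q => a.1.1 = b.1.1 ∧ a.1 ≠ b.1) (fun c : Vx K q => c.1.1 = a.1.1 + 1), c1]
    have h2 : ((univ.filter fun b : Vx K q => a.1.1 = b.1.1 ∧ a.1 ≠ b.1).card : ℝ) + q = K * K * q := by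
      exact_mod_cast cM a
    rw [← h2]
    push_cast
    linear_combination (((univ.filter fun b : Vx K q => a.1.1 = b.1.1 ∧ a.1 ≠ b.1).card : ℝ)) * (-h2)
  rw [Finset.sum_congr rfl (fun a _ => h a), Finset.sum_const, nsmul_eq_mul, card_univ, card_Vx]
  push_cast
  ring

theorem cnt_Q2 : cnt (fun a b c : Vx K q => Q2 a b c) = (3 * (K * K) * q) * ((q - 1) * (K * K * q - q)) := by
  unfold cnt Q2
  have h : ∀ a : Vx K q, (∑ b : Vx K q, ∑ c : Vx K q,
      if a ≠ b ∧ a.1 = b.1 ∧ c.1.1 = a.1.1 ∧ c.1 ≠ a.1 then (1 : ℝ) else 0) =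
      (q - 1) * (K * K * q - q) := by
    intro a
    have h1 : (∑ b : Vx K q, ∑ c : Vx K q,
      if a ≠ b ∧ a.1 = b.1 ∧ c.1.1 = a.1.1 ∧ c.1 ≠ a.1 then (1 : ℝ) else 0) =
      ∑ b : Vx K q, ∑ c : Vx K q, if (a ≠ b ∧ a.1 = b.1) ∧ (c.1.1 = a.1.1 ∧ c.1 ≠ a.1) then (1 : ℝ) else 0 := by
      refine Finset.sum_congr rfl fun b _ => Finset.sum_congr rfl fun c _ => ?_
      congr 1
      exact propext (and_assoc).symm
    rw [h1, sum_and (fun b : Vx K q => a ≠ b ∧ a.1 = b.1) (fun c : Vx K q => c.1.1 = a.1.1 ∧ c.1 ≠ a.1)]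
    have h2 : ((univ.filter fun c : Vx K q => c.1.1 = a.1.1 ∧ c.1 ≠ a.1).card : ℝ) + q = K * K * q := by
      exact_mod_cast cM' a
    have h3 : ((univ.filter fun b : Vx K q => a ≠ b ∧ a.1 = b.1).card : ℝ) + 1 = q := by
      exact_mod_cast cN a
    have h2' := eq_sub_of_add_eq h2
    have h3' := eq_sub_of_add_eq h3
    rw [h2', h3']
  rw [Finset.sum_congr rfl (fun a _ => h a), Finset.sum_const, nsmul_eq_mul, card_univ, card_Vx]
  push_cast
  ring

theorem cnt_Q3 : cnt (fun a b c : Vx K q => Q3 a b c) = (3 * (K * K) * q) * ((q - 1) * (K * q)) := by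
  unfold cnt Q3
  have h : ∀ a : Vx K q, (∑ b : Vx K q, ∑ c : Vx K q,
      if a ≠ b ∧ a.1 = b.1 ∧ c.1.1 = a.1.1 + 2 ∧ c.1.2.1 = a.1.2.1 then (1 : ℝ) else 0) =
      (q - 1) * (K * q) := by
    intro a
    have h1 : (∑ b : Vx K q, ∑ c : Vx K q,
      if a ≠ b ∧ a.1 = b.1 ∧ c.1.1 = a.1.1 + 2 ∧ c.1.2.1 = a.1.2.1 then (1 : ℝ) else 0) =
      ∑ b : Vx K q, ∑ c : Vx K q,
        if (a ≠ b ∧ a.1 = b.1) ∧ (c.1.1 = a.1.1 + 2 ∧ c.1.2.1 = a.1.2.1) then (1 : ℝ) else 0 := by
      refine Finset.sum_congr rfl fun b _ => Finset.sum_congr rfl fun c _ => ?_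
      congr 1
      exact propext (and_assoc).symm
    rw [h1, sum_and (fun b : Vx K q => a ≠ b ∧ a.1 = b.1)
      (fun c : Vx K q => c.1.1 = a.1.1 + 2 ∧ c.1.2.1 = a.1.2.1), c2]
    have h3 : ((univ.filter fun b : Vx K q => a ≠ b ∧ a.1 = b.1).card : ℝ) + 1 = q := by
      exact_mod_cast cN a
    have h3' := eq_sub_of_add_eq h3
    rw [h3']
    push_cast
    ring
  rw [Finset.sum_congr rfl (fun a _ => h a), Finset.sum_const, nsmul_eq_mul, card_univ, card_Vx]
  push_cast
  ring

/-- at most one of the conditions holds -/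
theorem ind_Q (a b c : Vx K q) :
    (if Q1 a b c then (1 : ℝ) else 0) + (if Q2 a b c then (1 : ℝ) else 0) + (if Q3 a b c then (1 : ℝ) else 0) ≤
      if Q a b c then (1 : ℝ) else 0 := by
  have h12 : Q1 a b c → ¬ Q2 a b c := fun h1 h2 => h1.2.2 h2.2.1
  have h13 : Q1 a b c → ¬ Q3 a b c := fun h1 h2 => h1.2.2 h2.2.1
  have h23 : Q2 a b c → ¬ Q3 a b c := by
    intro h1 h2
    have h3 := h1.2.2.1
    have h4 := h2.2.2.1
    rw [h3] at h4
    exact z20 (left_eq_add.mp h4)
  unfold Q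
  by_cases h1 : Q1 a b c
  · simp [h1, h12 h1, h13 h1]
  · by_cases h2 : Q2 a b c
    · simp [h1, h2, h23 h2]
    · by_cases h3 : Q3 a b c <;> simp [h1, h2, h3]

theorem Q_part {a b c : Vx K q} (h : Q a b c) : a.1.1 = b.1.1 := by
  rcases h with h | h | h
  · exact h.1
  · rw [h.2.1]
  · rw [h.2.1]

theorem QQ {a b c : Vx K q} (h : Q a b c) (h' : Q b c a) : False := by
  have e1 := Q_part h
  have e2 := Q_part h'
  rcases h with h | h | h
  · have := h.2.1
    rw [← e2, ← e1] at this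
    exact z10 (left_eq_add.mp this)
  · rcases h' with h' | h' | h'
    · have := h'.2.1
      rw [← e1] at this
      exact z10 (left_eq_add.mp this)
    · exact h.2.2.2 (by rw [← h'.2.1, ← h.2.1])
    · have := h'.2.2.1
      rw [← e1] at this
      exact z20 (left_eq_add.mp this)
  · have := h.2.2.1
    rw [← e2, ← e1] at this
    exact z20 (left_eq_add.mp this)

theorem PQ {a b c : Vx K q} (h : P1 a b c) (h' : Q a b c) : False := by
  have e1 := Q_part h'
  have := h.1
  rw [← e1] at this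
  exact z10 (left_eq_add.mp this)

theorem PP {a b c : Vx K q} (h : P1 a b c) (h' : P1 a c b) : False := by
  have h1 := h.1
  have h2 := h'.2
  rw [h1] at h2
  exact z12 (add_left_cancel h2)

theorem ind_S (a b c : Vx K q) :
    (if P1 a b c then (1 : ℝ) else 0) + (if P1 a c b then (1 : ℝ) else 0) +
      (if Q a b c then (1 : ℝ) else 0) + (if Q b c a then (1 : ℝ) else 0) + (if Q c a b then (1 : ℝ) else 0) ≤
      if S a b c then (1 : ℝ) else 0 := by
  unfold S
  by_cases h1 : P1 a b c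
  · have h2 : ¬ P1 a c b := fun h => PP h1 h
    have h3 : ¬ Q a b c := fun h => PQ h1 h
    have h4 : ¬ Q b c a := fun h => PQ (P1_rot h1) h
    have h5 : ¬ Q c a b := fun h => PQ (P1_rot (P1_rot h1)) h
    simp [h1, h2, h3, h4, h5]
  · by_cases h2 : P1 a c b
    · have h5 : ¬ Q c a b := fun h => PQ h2 (Q_symm h)
      have h4 : ¬ Q b c a := fun h => PQ (P1_rot h2) (Q_symm h)
      have h3 : ¬ Q a b c := fun h => PQ (P1_rot (P1_rot h2)) (Q_symm h)
      simp [h1, h2, h3, h4, h5]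
    · by_cases h3 : Q a b c
      · have h4 : ¬ Q b c a := fun h => QQ h3 h
        have h5 : ¬ Q c a b := fun h => QQ h h3
        simp [h1, h2, h3, h4, h5]
      · by_cases h4 : Q b c a
        · have h5 : ¬ Q c a b := fun h => QQ h4 h
          simp [h1, h2, h3, h4, h5]
        · by_cases h5 : Q c a b <;> simp [h1, h2, h3, h4, h5]

theorem cnt_swap (F : Vx K q → Vx K q → Vx K q → Prop) [∀ a b c, Decidable (F a b c)] :
    cnt (fun a b c => F a c b) = cnt F := by
  unfold cnt
  refine Finset.sum_congr rfl fun a _ => ?_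
  rw [Finset.sum_comm]

theorem cnt_rot (F : Vx K q → Vx K q → Vx K q → Prop) [∀ a b c, Decidable (F a b c)] :
    cnt (fun a b c => F b c a) = cnt F := by
  unfold cnt
  rw [Finset.sum_comm]
  refine Finset.sum_congr rfl fun a _ => ?_
  rw [Finset.sum_comm]

/-- the number of ordered edges -/
theorem cnt_S : (3 * (K * K) * q : ℝ) * (5 * (K * K * q) ^ 2 - 3 * (K * K * q) + 3 * (K - 1) * q * (q - 1)) ≤
    cnt (fun a b c : Vx K q => S a b c) := by
  have h1 : cnt (fun a b c : Vx K q => P1 a b c) + cnt (fun a b c : Vx K q => P1 a c b) +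
      cnt (fun a b c : Vx K q => Q a b c) + cnt (fun a b c : Vx K q => Q b c a) +
      cnt (fun a b c : Vx K q => Q c a b) ≤ cnt (fun a b c : Vx K q => S a b c) := by
    unfold cnt
    simp only [← Finset.sum_add_distrib]
    exact Finset.sum_le_sum fun a _ => Finset.sum_le_sum fun b _ => Finset.sum_le_sum fun c _ => ind_S a b c
  have h2 : cnt (fun a b c : Vx K q => Q1 a b c) + cnt (fun a b c : Vx K q => Q2 a b c) +
      cnt (fun a b c : Vx K q => Q3 a b c) ≤ cnt (fun a b c : Vx K q => Q a b c) := by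
    unfold cnt
    simp only [← Finset.sum_add_distrib]
    exact Finset.sum_le_sum fun a _ => Finset.sum_le_sum fun b _ => Finset.sum_le_sum fun c _ => ind_Q a b c
  rw [cnt_swap (fun a b c : Vx K q => P1 a b c), cnt_rot (fun a b c : Vx K q => Q a b c),
    cnt_rot (fun a b c : Vx K q => Q b c a), cnt_rot (fun a b c : Vx K q => Q a b c)] at h1
  rw [cnt_Q1, cnt_Q2, cnt_Q3] at h2
  rw [cnt_P1] at h1
  refine le_trans ?_ h1
  refine le_trans (le_of_eq ?_) (add_le_add (add_le_add (add_le_add (le_refl _) h2) h2) h2)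
  ring

end

end Pool.Agent.T2h36
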