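import Pool.Agent.T2h36.Samp

/-! Densities, squares and copies of the complete 3-graph on four vertices in samples. -/

set_option autoImplicit false
set_option linter.unusedSectionVars false
open Finset

namespace Pool.Agent.T2h36

theorem is3_pull {A V : Type} [Fintype A] [Fintype V] [DecidableEq V] (θ : A ↪ V) {H : Finset (Finset V)} (h : Is3 H) :
    Is3 (pull θ H) := by
  intro e he
  rw [mem_pull] at he
  have := h _ he
  rwa [card_map] at this

section edgeDens
variable {V : Type} [Fintype V] [DecidableEq V]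

theorem exists_img {s : ℕ} {e : Finset V} (he : e.card = s) : ∃ σ : Fin s ↪ V, univ.map σ = e := by
  refine ⟨(Finset.equivFinOfCardEq he).symm.toEmbedding.trans (Function.Embedding.subtype _), ?_⟩
  ext x
  simp only [mem_map, mem_univ, true_and, Function.Embedding.trans_apply, Equiv.coe_toEmbedding,
    Function.Embedding.coe_subtype]
  constructor
  · rintro ⟨a, rfl⟩
    exact ((Finset.equivFinOfCardEq he).symm a).2
  · intro hx
    exact ⟨Finset.equivFinOfCardEq he ⟨x, hx⟩, by simp⟩

theorem img_le {s : ℕ} (e e' : Finset V) (he : e.card = s) (he' : e'.card = s) :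
    (univ.filter fun θ : Fin s ↪ V => univ.map θ = e).card ≤
      (univ.filter fun θ : Fin s ↪ V => univ.map θ = e').card := by
  obtain ⟨σ, hσ⟩ := exists_img he
  obtain ⟨σ', hσ'⟩ := exists_img he'
  obtain ⟨π, hπ⟩ := exists_perm σ σ'
  have hee : e.map π.toEmbedding = e' := by
    rw [← hσ, ← hσ', Finset.map_map]
    congr 1
    ext a
    simp [hπ]
  refine Finset.card_le_card_of_injOn (fun θ => θ.trans π.toEmbedding) ?_ ?_
  · intro θ hθ
    simp only [coe_filter, mem_univ, true_and, Set.mem_ofPred_eq] at hθ ⊢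
    rw [← Finset.map_map, hθ, hee]
  · intro θ _ θ' _ h
    ext b
    have : (θ.trans π.toEmbedding) b = (θ'.trans π.toEmbedding) b := by
      simp only at h
      rw [h]
    simpa using this

/-- indicator of the edge -/
noncomputable def psi3 (G : Finset (Finset (Fin 3))) : ℝ := if univ ∈ G then 1 else 0

/-- the density of a family of `s`-sets is the probability that a random embedding of `s` points has
its image in the family -/
theorem fam_eq {s : ℕ} (F : Finset (Finset V)) (hF : ∀ e ∈ F, e.card = s) (hV : s ≤ Fintype.card V) :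
    (F.card : ℝ) / (((Fintype.card V).choose s : ℕ) : ℝ) =
      (∑ θ : Fin s ↪ V, if univ.map θ ∈ F then (1 : ℝ) else 0) / (Fintype.card (Fin s ↪ V) : ℝ) := by
  have hV' : s ≤ (univ : Finset V).card := by rwa [card_univ]
  obtain ⟨e0, -, he0⟩ := Finset.exists_subset_card_eq hV'
  set c := (univ.filter fun θ : Fin s ↪ V => univ.map θ = e0).card with hc
  have hcc : ∀ e : Finset V, e.card = s → (univ.filter fun θ : Fin s ↪ V => univ.map θ = e).card = c :=
    fun e he => le_antisymm (img_le e e0 he he0) (img_le e0 e he0 he)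
  have key : ∀ S : Finset (Finset V), (∀ e ∈ S, e.card = s) →
      (univ.filter fun θ : Fin s ↪ V => univ.map θ ∈ S).card = c * S.card := by
    intro S hS
    rw [Finset.card_eq_sum_card_fiberwise (s := univ.filter fun θ : Fin s ↪ V => univ.map θ ∈ S)
      (t := S) (f := fun θ : Fin s ↪ V => univ.map θ)]
    · rw [Finset.sum_congr rfl (g := fun _ => c)]
      · rw [sum_const, smul_eq_mul, mul_comm]
      · intro e he
        rw [← hcc e (hS e he)]
        congr 1
        ext θ
        simp only [mem_filter, mem_univ, true_and]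
        constructor
        · rintro ⟨_, h⟩; exact h
        · intro h; exact ⟨h ▸ he, h⟩
    · intro θ hθ
      simpa using hθ
  have hall : Fintype.card (Fin s ↪ V) = c * (Fintype.card V).choose s := by
    have h1 := key (powersetCard s univ) (fun e he => (mem_powersetCard.mp he).2)
    rw [card_powersetCard, card_univ] at h1
    rw [← h1, ← Finset.card_univ]
    congr 1
    ext θ
    simp [mem_powersetCard]
  have hcpos : (c : ℝ) ≠ 0 := by
    intro h0
    have h0' : c = 0 := by exact_mod_cast h0
    obtain ⟨σ, hσ⟩ := exists_img he0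
    have : σ ∈ (univ.filter fun θ : Fin s ↪ V => univ.map θ = e0) := by simp [hσ]
    have := Finset.card_pos.mpr ⟨σ, this⟩
    omega
  have hnum : ∑ θ : Fin s ↪ V, (if univ.map θ ∈ F then (1 : ℝ) else 0) = c * F.card := by
    have h1 := key F hF
    rw [Finset.sum_boole, h1]
    push_cast
    ring
  rw [hnum, hall]
  push_cast
  rw [mul_div_mul_left _ _ hcpos]

theorem edgeDens_eq (H : Finset (Finset V)) (h3 : Is3 H) (hV : 3 ≤ Fintype.card V) :
    edgeDens H = avg psi3 H := by
  unfold edgeDens avg
  rw [fam_eq H h3 hV]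
  unfold psi3
  simp_rw [mem_pull]

/-- indicator of the complete 3-graph on four vertices -/
noncomputable def psi4 (G : Finset (Finset (Fin 4))) : ℝ :=
  if ∀ T : Finset (Fin 4), T.card = 3 → T ∈ G then 1 else 0

theorem k4Dens_eq (H : Finset (Finset V)) (hV : 4 ≤ Fintype.card V) : k4Dens H = avg psi4 H := by
  unfold k4Dens avg
  rw [fam_eq (univ.filter fun S : Finset V => S.card = 4 ∧ ∀ T ⊆ S, T.card = 3 → T ∈ H)
    (fun e he => (mem_filter.mp he).2.1) hV]
  congr 1
  refine Finset.sum_congr rfl fun θ _ => ?_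
  unfold psi4
  have : (univ.map θ ∈ (univ.filter fun S : Finset V => S.card = 4 ∧ ∀ T ⊆ S, T.card = 3 → T ∈ H)) ↔
      ∀ T : Finset (Fin 4), T.card = 3 → T ∈ pull θ H := by
    simp only [mem_filter, mem_univ, true_and, card_map, card_univ, Fintype.card_fin, mem_pull]
    constructor
    · intro h T hT
      exact h _ (Finset.map_subset_map.mpr (Finset.subset_univ _)) (by rw [card_map]; exact hT)
    · intro h T hT h3
      obtain ⟨T', -, rfl⟩ := Finset.subset_map_iff.mp hT
      rw [card_map] at h3
      exact h T' h3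
  rw [if_congr this rfl rfl]

theorem psi4_nonneg (G : Finset (Finset (Fin 4))) : 0 ≤ psi4 G := by
  unfold psi4
  split_ifs <;> norm_num

open Classical in
theorem notfree_le {N : ℕ} (G : Finset (Finset (Fin N))) :
    (if K43Free G then (0 : ℝ) else 1) ≤ ∑ τ : Fin 4 ↪ Fin N, psi4 (pull τ G) := by
  split_ifs with h
  · exact Finset.sum_nonneg fun τ _ => psi4_nonneg _
  · unfold K43Free at h
    push Not at h
    obtain ⟨S, hS, hT⟩ := h
    obtain ⟨τ, hτ⟩ := exists_img hS
    have h1 : psi4 (pull τ G) = 1 := by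
      unfold psi4
      rw [if_pos]
      intro T hT3
      rw [mem_pull]
      refine hT _ ?_ (by rw [card_map]; exact hT3)
      rw [← hτ]
      exact Finset.map_subset_map.mpr (Finset.subset_univ _)
    rw [← h1]
    exact Finset.single_le_sum (f := fun τ => psi4 (pull τ G)) (fun τ _ => psi4_nonneg _) (mem_univ τ)

open Classical in
theorem avg_notfree {N : ℕ} (H : Finset (Finset V)) (hN : N ≤ Fintype.card V) :
    avg (fun G : Finset (Finset (Fin N)) => if K43Free G then (0 : ℝ) else 1) H ≤ (N : ℝ) ^ 4 * avg psi4 H := by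
  have h1 : avg (fun G : Finset (Finset (Fin N)) => if K43Free G then (0 : ℝ) else 1) H ≤
      avg (fun G : Finset (Finset (Fin N)) => ∑ τ : Fin 4 ↪ Fin N, psi4 (pull τ G)) H :=
    avg_mono _ _ _ fun θ => notfree_le _
  rw [avg_sum] at h1
  have h2 : ∀ τ : Fin 4 ↪ Fin N, avg (fun G : Finset (Finset (Fin N)) => psi4 (pull τ G)) H = avg psi4 H :=
    fun τ => avg_comp τ (by simpa using hN) psi4 H
  rw [Finset.sum_congr rfl (fun τ _ => h2 τ), Finset.sum_const, nsmul_eq_mul] at h1
  refine h1.trans ?_
  refine mul_le_mul_of_nonneg_right ?_ ?_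
  · rw [Finset.card_univ, Fintype.card_embedding_eq]
    simp only [Fintype.card_fin]
    exact_mod_cast Nat.descFactorial_le_pow N 4
  · unfold avg
    exact div_nonneg (Finset.sum_nonneg fun _ _ => psi4_nonneg _) (Nat.cast_nonneg _)

end edgeDens

section square

/-- the `j`-th copy of the flag -/
def jth (k m M : ℕ) (j : Fin M) : Fin k ⊕ Fin m ↪ Fin k ⊕ (Fin M × Fin m) :=
  Function.Embedding.sumMap (Function.Embedding.refl _) ⟨fun x => (j, x), fun _ _ h => (Prod.ext_iff.mp h).2⟩

/-- the `j`-th and the `j'`-th copy -/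
def jjth (k m M : ℕ) (j j' : Fin M) (h : j ≠ j') : Fin k ⊕ (Fin m ⊕ Fin m) ↪ Fin k ⊕ (Fin M × Fin m) :=
  Function.Embedding.sumMap (Function.Embedding.refl _)
    ⟨Sum.elim (fun x => (j, x)) (fun x => (j', x)), by
      rintro (x | x) (y | y) hxy
      · simp at hxy; rw [hxy]
      · simp at hxy; exact absurd hxy.1 h
      · simp at hxy; exact absurd hxy.1.symm h
      · simp at hxy; rw [hxy]⟩

theorem left_jjth (k m M : ℕ) (j j' : Fin M) (h : j ≠ j') :
    (left k m).trans (jjth k m M j j' h) = jth k m M j := by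
  ext x
  rcases x with x | x <;> rfl

theorem right_jjth (k m M : ℕ) (j j' : Fin M) (h : j ≠ j') :
    (right k m).trans (jjth k m M j j' h) = jth k m M j' := by
  ext x
  rcases x with x | x <;> rfl

theorem square_bound {k m : ℕ} (f : Finset (Finset (Fin k ⊕ Fin m)) → ℝ) (B : ℝ)
    (hB : ∀ G, |f G| ≤ B) (M : ℕ) (hM : 2 ≤ M) {V : Type} [Fintype V] [DecidableEq V]
    (H : Finset (Finset V)) (hV : k + M * m ≤ Fintype.card V) :
    -(B ^ 2 / ((M : ℝ) - 1)) ≤ avg (square f) H := by
  have hc : Fintype.card (Fin k ⊕ (Fin M × Fin m)) ≤ Fintype.card V := by simpa using hV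
  have h0 : 0 ≤ avg (fun G : Finset (Finset (Fin k ⊕ (Fin M × Fin m))) =>
      ∑ j : Fin M, ∑ j' : Fin M, f (pull (jth k m M j) G) * f (pull (jth k m M j') G)) H := by
    unfold avg
    refine div_nonneg (Finset.sum_nonneg fun θ _ => ?_) (Nat.cast_nonneg _)
    show 0 ≤ ∑ j : Fin M, ∑ j' : Fin M, f (pull (jth k m M j) (pull θ H)) * f (pull (jth k m M j') (pull θ H))
    rw [← Finset.sum_mul_sum]
    exact mul_self_nonneg _
  rw [avg_sum] at h0
  simp_rw [avg_sum] at h0
  have h1 : ∀ j j' : Fin M,
      avg (fun G : Finset (Finset (Fin k ⊕ (Fin M × Fin m))) =>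
        f (pull (jth k m M j) G) * f (pull (jth k m M j') G)) H ≤
      if j = j' then B ^ 2 else avg (square f) H := by
    intro j j'
    split_ifs with hj
    · subst hj
      refine (avg_mono _ (fun _ => B ^ 2) H fun θ => ?_).trans (avg_const _ _ hc).le
      rw [← abs_mul_abs_self, ← sq]
      exact pow_le_pow_left₀ (abs_nonneg _) (hB _) 2
    · rw [← avg_comp (jjth k m M j j' hj) hc (square f) H]
      refine avg_mono _ _ _ fun θ => ?_
      unfold square
      rw [pull_pull (left k m), pull_pull (right k m), left_jjth, right_jjth]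
  have h2 := h0.trans (Finset.sum_le_sum fun j _ => Finset.sum_le_sum fun j' _ => h1 j j')
  have h3 : ∀ j : Fin M, ∑ j' : Fin M, (if j = j' then B ^ 2 else avg (square f) H) =
      B ^ 2 + ((M : ℝ) - 1) * avg (square f) H := by
    intro j
    have : ∀ j' : Fin M, (if j = j' then B ^ 2 else avg (square f) H) =
        avg (square f) H + (if j = j' then B ^ 2 - avg (square f) H else 0) := by
      intro j'
      split_ifs <;> ring
    simp_rw [this]
    rw [Finset.sum_add_distrib, Finset.sum_const, Finset.sum_ite_eq]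
    simp
    ring
  simp_rw [h3] at h2
  rw [Finset.sum_const, nsmul_eq_mul, Finset.card_univ, Fintype.card_fin] at h2
  have hMr : (2 : ℝ) ≤ M := by exact_mod_cast hM
  have h4 : 0 ≤ B ^ 2 + ((M : ℝ) - 1) * avg (square f) H := by
    by_contra hneg
    push Not at hneg
    have : (M : ℝ) * (B ^ 2 + ((M : ℝ) - 1) * avg (square f) H) < 0 := mul_neg_of_pos_of_neg (by linarith) hneg
    linarith
  have h5 : 0 < (M : ℝ) - 1 := by linarith
  rw [← sub_nonneg]
  have : avg (square f) H - -(B ^ 2 / ((M : ℝ) - 1)) = (B ^ 2 + ((M : ℝ) - 1) * avg (square f) H) / ((M : ℝ) - 1) := by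
    field_simp
    ring
  rw [this]
  exact div_nonneg h4 h5.le

/-- squares are asymptotically nonnegative -/
theorem square_nonneg {k m : ℕ} (f : Finset (Finset (Fin k ⊕ Fin m)) → ℝ) (ε : ℝ) (hε : 0 < ε) :
    ∃ n₀ : ℕ, ∀ (V : Type) [Fintype V] [DecidableEq V] (H : Finset (Finset V)),
      n₀ ≤ Fintype.card V → -ε ≤ avg (square f) H := by
  classical
  set B : ℝ := ∑ G : Finset (Finset (Fin k ⊕ Fin m)), |f G| with hBdef
  have hB : ∀ G, |f G| ≤ B := fun G =>
    Finset.single_le_sum (f := fun G => |f G|) (fun _ _ => abs_nonneg _) (mem_univ G)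
  obtain ⟨M, hM⟩ := exists_nat_gt (B ^ 2 / ε + 2)
  have hB2 : 0 ≤ B ^ 2 / ε := div_nonneg (sq_nonneg _) hε.le
  have hM2 : 2 ≤ M := by
    have : (2 : ℝ) < M := by linarith
    exact_mod_cast this.le
  refine ⟨k + M * m, fun V _ _ H hV => ?_⟩
  refine le_trans ?_ (square_bound f B hB M hM2 H hV)
  have h5 : 0 < (M : ℝ) - 1 := by linarith
  rw [neg_le_neg_iff, div_le_iff₀ h5]
  have : B ^ 2 / ε ≤ (M : ℝ) - 1 := by linarith
  rw [div_le_iff₀ hε] at this
  linarith

end square

end Pool.Agent.T2h36
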