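import Pool.Agent.T2h36.Count

/-! Copies of the complete 3-graph on four vertices. -/

set_option autoImplicit false
set_option linter.unusedSectionVars false
open Finset

namespace Pool.Agent.T2h36

section
variable {K q : ℕ} [NeZero K] [NeZero q]

/-- the pattern of a copy -/
def U (a b c d : Vx K q) : Prop := a.1 = b.1 ∧ (c.1 = d.1 ∨ (c.1.2.1 = a.1.2.1 ∧ d.1.2.1 = a.1.2.1))
instance (a b c d : Vx K q) : Decidable (U a b c d) := by unfold U; infer_instance

theorem z21 : (2 : ZMod 3) ≠ 1 := by decide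
theorem e12 (i : ZMod 3) : i + 1 + 2 = i := by revert i; decide
theorem e21 (i : ZMod 3) : i + 2 + 1 = i := by revert i; decide
theorem e11 (i : ZMod 3) : i + 1 + 1 = i + 2 := by revert i; decide
theorem e22 (i : ZMod 3) : i + 2 + 2 = i + 1 := by revert i; decide

/-- the shape of an edge according to the parts -/
theorem S_shape {a b c : Vx K q} (h : S a b c) :
    (a.1.1 ≠ b.1.1 ∧ b.1.1 ≠ c.1.1 ∧ a.1.1 ≠ c.1.1) ∨ Q a b c ∨ Q b c a ∨ Q c a b := by
  unfold S at h
  rcases h with (h | h) | h
  · left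
    obtain ⟨h1, h2⟩ := h
    rw [h1, h2]
    refine ⟨fun h => z10 (left_eq_add.mp h), fun h => z12 (add_left_cancel h), fun h => z20 (left_eq_add.mp h)⟩
  · left
    obtain ⟨h1, h2⟩ := h
    rw [h1, h2]
    refine ⟨fun h => z20 (left_eq_add.mp h), fun h => z12 (add_left_cancel h).symm, fun h => z10 (left_eq_add.mp h)⟩
  · exact Or.inr h

/-- three vertices of one part: exactly two in the same cell -/
theorem S_same {a b c : Vx K q} (h : S a b c) (h1 : b.1.1 = a.1.1) (h2 : c.1.1 = a.1.1) :
    (a.1 = b.1 ∧ c.1 ≠ a.1) ∨ (b.1 = c.1 ∧ a.1 ≠ b.1) ∨ (c.1 = a.1 ∧ b.1 ≠ c.1) := by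
  rcases S_shape h with h | h | h | h
  · exact absurd h1.symm h.1
  · rcases h with h | h | h
    · exact absurd (h2.symm.trans h.2.1) (fun h => z10 (left_eq_add.mp h))
    · exact Or.inl ⟨h.2.1, h.2.2.2⟩
    · exact absurd (h2.symm.trans h.2.2.1) (fun h => z20 (left_eq_add.mp h))
  · rcases h with h | h | h
    · have := h.2.1; rw [h1] at this; exact absurd this (fun h => z10 (left_eq_add.mp h))
    · exact Or.inr (Or.inl ⟨h.2.1, h.2.2.2⟩)
    · have := h.2.2.1; rw [h1] at this; exact absurd this (fun h => z20 (left_eq_add.mp h))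
  · rcases h with h | h | h
    · have := h.2.1; rw [h1, h2] at this; exact absurd this (fun h => z10 (left_eq_add.mp h))
    · exact Or.inr (Or.inr ⟨h.2.1, h.2.2.2⟩)
    · have := h.2.2.1; rw [h1, h2] at this; exact absurd this (fun h => z20 (left_eq_add.mp h))

/-- two vertices of one part and one of the next part -/
theorem S_next {a b c : Vx K q} (h : S a b c) (h1 : b.1.1 = a.1.1) (h2 : c.1.1 = a.1.1 + 1) : a.1 ≠ b.1 := by
  rcases S_shape h with h | h | h | h
  · exact absurd h1.symm h.1
  · rcases h with h | h | h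
    · exact h.2.2
    · have := h.2.2.1; rw [h2] at this; exact absurd this.symm (fun h => z10 (left_eq_add.mp h))
    · have := h.2.2.1; rw [h2] at this; exact absurd (add_left_cancel this) z12
  · have := Q_part h
    rw [h1, h2] at this
    exact absurd this (fun h => z10 (left_eq_add.mp h))
  · have := Q_part h
    rw [h2] at this
    exact absurd this.symm (fun h => z10 (left_eq_add.mp h))

/-- two vertices of one part and one of the previous part -/
theorem S_prev {a b c : Vx K q} (h : S a b c) (h1 : b.1.1 = a.1.1) (h2 : c.1.1 = a.1.1 + 2) :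
    a.1 = b.1 ∧ c.1.2.1 = a.1.2.1 := by
  rcases S_shape h with h | h | h | h
  · exact absurd h1.symm h.1
  · rcases h with h | h | h
    · have := h.2.1; rw [h2] at this; exact absurd (add_left_cancel this).symm z12
    · have := h.2.2.1; rw [h2] at this; exact absurd this.symm (fun h => z20 (left_eq_add.mp h))
    · exact ⟨h.2.1, h.2.2.2⟩
  · have := Q_part h
    rw [h1, h2] at this
    exact absurd this (fun h => z20 (left_eq_add.mp h))
  · have := Q_part h
    rw [h2] at this
    exact absurd this.symm (fun h => z20 (left_eq_add.mp h))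

def UU (a b c d : Vx K q) : Prop :=
  U a b c d ∨ U a c b d ∨ U a d b c ∨ U b c a d ∨ U b d a c ∨ U c d a b

/-- all four triples present -/
def K4 (a b c d : Vx K q) : Prop := S a b c ∧ S a b d ∧ S a c d ∧ S b c d
instance (a b c d : Vx K q) : Decidable (K4 a b c d) := by unfold K4; infer_instance

/-- all in one part -/
theorem K4_same {a b c d : Vx K q} (h : K4 a b c d) (hb : b.1.1 = a.1.1) (hc : c.1.1 = a.1.1)
    (hd : d.1.1 = a.1.1) : UU a b c d := by
  obtain ⟨h1, h2, h3, h4⟩ := h
  have g1 := S_same h1 hb hc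
  have g2 := S_same h2 hb hd
  have g3 := S_same h3 hc hd
  have g4 := S_same h4 (hc.trans hb.symm) (hd.trans hb.symm)
  unfold UU U
  generalize a.1 = A at *
  generalize b.1 = B at *
  generalize c.1 = C at *
  generalize d.1 = D at *
  grind

/-- three in one part -/
theorem K4_three {a b c d : Vx K q} (h : K4 a b c d) (hb : b.1.1 = a.1.1) (hc : c.1.1 = a.1.1)
    (hd : d.1.1 ≠ a.1.1) : False := by
  obtain ⟨h1, h2, h3, h4⟩ := h
  have g1 := S_same h1 hb hc
  rcases z3 a.1.1 d.1.1 with h | h | h
  · exact hd h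
  · have g2 := S_next h2 hb h
    have g3 := S_next h3 hc h
    have g4 := S_next h4 (hc.trans hb.symm) (by rw [hb]; exact h)
    rcases g1 with g | g | g
    · exact g2 g.1
    · exact g4 g.1
    · exact g3 g.1.symm
  · have g2 := S_prev h2 hb h
    have g3 := S_prev h3 hc h
    have g4 := S_prev h4 (hc.trans hb.symm) (by rw [hb]; exact h)
    rcases g1 with g | g | g
    · exact g.2 g3.1.symm
    · exact g.2 g2.1
    · exact g.2 g4.1

/-- two and two -/
theorem K4_two {a b c d : Vx K q} (h : K4 a b c d) (hb : b.1.1 = a.1.1) (hd : d.1.1 = c.1.1)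
    (hc : c.1.1 ≠ a.1.1) : U a b c d ∨ U c d a b := by
  obtain ⟨h1, h2, h3, h4⟩ := h
  rcases z3 a.1.1 c.1.1 with h | h | h
  · exact absurd h hc
  · -- `c, d` in the part after that of `a, b`
    have g3 := S_prev (S_rot h3) hd (by rw [h, e12])
    have g4 := S_prev (S_rot h4) hd (by rw [h, hb, e12])
    right
    exact ⟨g3.1, Or.inr ⟨g3.2, g4.2⟩⟩
  · have g1 := S_prev h1 hb h
    have g2 := S_prev h2 hb (by rw [hd]; exact h)
    left
    exact ⟨g1.1, Or.inr ⟨g1.2, g2.2⟩⟩

/-- two in one part, the others in different parts -/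
theorem K4_211 {a b c d : Vx K q} (h : K4 a b c d) (hb : b.1.1 = a.1.1) (hc : c.1.1 ≠ a.1.1)
    (hd : d.1.1 ≠ a.1.1) (hcd : c.1.1 ≠ d.1.1) : False := by
  obtain ⟨h1, h2, h3, h4⟩ := h
  rcases z3 a.1.1 c.1.1 with h | h | h
  · exact hc h
  · rcases z3 a.1.1 d.1.1 with h' | h' | h'
    · exact hd h'
    · exact hcd (h.trans h'.symm)
    · exact S_next h1 hb h (S_prev h2 hb h').1
  · rcases z3 a.1.1 d.1.1 with h' | h' | h'
    · exact hd h'
    · exact S_next h2 hb h' (S_prev h1 hb h).1
    · exact hcd (h.trans h'.symm)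

theorem K4_perm1 {a b c d : Vx K q} (h : K4 a b c d) : K4 b a c d := by
  obtain ⟨h1, h2, h3, h4⟩ := h
  exact ⟨S_swap h1, S_swap h2, h4, h3⟩

theorem K4_perm2 {a b c d : Vx K q} (h : K4 a b c d) : K4 a c b d := by
  obtain ⟨h1, h2, h3, h4⟩ := h
  exact ⟨S_rot (S_swap h1), h3, h2, S_swap h4⟩

theorem K4_perm3 {a b c d : Vx K q} (h : K4 a b c d) : K4 a b d c := by
  obtain ⟨h1, h2, h3, h4⟩ := h
  exact ⟨h2, h1, S_rot (S_swap h3), S_rot (S_swap h4)⟩

theorem K4_UU {a b c d : Vx K q} (h : K4 a b c d) : UU a b c d := by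
  by_cases hab : b.1.1 = a.1.1
  · by_cases hac : c.1.1 = a.1.1
    · by_cases had : d.1.1 = a.1.1
      · exact K4_same h hab hac had
      · exact (K4_three h hab hac had).elim
    · by_cases had : d.1.1 = a.1.1
      · exact (K4_three (K4_perm3 h) hab had hac).elim
      · by_cases hcd : d.1.1 = c.1.1
        · rcases K4_two h hab hcd hac with h | h
          · exact Or.inl h
          · exact Or.inr (Or.inr (Or.inr (Or.inr (Or.inr h))))
        · exact (K4_211 h hab hac had (Ne.symm hcd)).elim
  · by_cases hac : c.1.1 = a.1.1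
    · by_cases had : d.1.1 = a.1.1
      · exact (K4_three (K4_perm3 (K4_perm2 h)) hac had hab).elim
      · by_cases hbd : d.1.1 = b.1.1
        · rcases K4_two (K4_perm2 h) hac hbd hab with h | h
          · exact Or.inr (Or.inl h)
          · exact Or.inr (Or.inr (Or.inr (Or.inr (Or.inl h))))
        · exact (K4_211 (K4_perm2 h) hac hab had (Ne.symm hbd)).elim
    · by_cases had : d.1.1 = a.1.1
      · by_cases hbc : c.1.1 = b.1.1
        · rcases K4_two (K4_perm2 (K4_perm3 h)) had hbc hab with h | h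
          · exact Or.inr (Or.inr (Or.inl h))
          · exact Or.inr (Or.inr (Or.inr (Or.inl h)))
        · exact (K4_211 (K4_perm2 (K4_perm3 h)) had hab hac (Ne.symm hbc)).elim
      · -- `b, c, d` in the two other parts
        by_cases hbc : c.1.1 = b.1.1
        · by_cases hbd : d.1.1 = b.1.1
          · exact (K4_three (K4_perm3 (K4_perm2 (K4_perm1 h))) hbc hbd (fun h => hab h.symm)).elim
          · exact (K4_211 (K4_perm2 (K4_perm1 h)) hbc (fun h => hab h.symm) hbd (fun h => had h.symm)).elim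
        · by_cases hbd : d.1.1 = b.1.1
          · exact (K4_211 (K4_perm2 (K4_perm3 (K4_perm1 h))) hbd (fun h => hab h.symm) hbc (fun h => hac h.symm)).elim
          · by_cases hcd : d.1.1 = c.1.1
            · exact (K4_211 (K4_perm2 (K4_perm3 (K4_perm1 (K4_perm2 h)))) hcd (fun h => hac h.symm)
                (fun h => hbc h.symm) (fun h => hab h.symm)).elim
            · exfalso
              rcases z3 a.1.1 b.1.1 with h1 | h1 | h1 <;> rcases z3 a.1.1 c.1.1 with h2 | h2 | h2 <;>
                rcases z3 a.1.1 d.1.1 with h3 | h3 | h3 <;> simp_all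

end

end Pool.Agent.T2h36
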