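import Pool.Agent.T2h36.BarDefs

/-! Sampling of 3-graphs: averages over embeddings. -/

set_option autoImplicit false
set_option linter.unusedSectionVars false
open Finset

namespace Pool.Agent.T2h36

section
variable {A B V : Type} [Fintype A] [Fintype B] [Fintype V] [DecidableEq B] [DecidableEq V]

theorem mem_pull (θ : A ↪ V) (H : Finset (Finset V)) (e : Finset A) :
    e ∈ pull θ H ↔ e.map θ ∈ H := by simp [pull]

theorem pull_pull (τ : A ↪ B) (θ : B ↪ V) (H : Finset (Finset V)) :
    pull τ (pull θ H) = pull (τ.trans θ) H := by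
  ext e
  simp only [mem_pull, Finset.map_map]

/-- two embeddings differ by a permutation -/
theorem exists_perm (σ σ' : A ↪ V) : ∃ π : Equiv.Perm V, ∀ a, π (σ a) = σ' a := by
  classical
  let e : {x // x ∈ Set.range σ} ≃ {x // x ∈ Set.range σ'} :=
    (Equiv.ofInjective σ σ.injective).symm.trans (Equiv.ofInjective σ' σ'.injective)
  refine ⟨e.extendSubtype, fun a => ?_⟩
  rw [Equiv.extendSubtype_apply_of_mem e (σ a) ⟨a, rfl⟩]
  show ((Equiv.ofInjective σ' σ'.injective) ((Equiv.ofInjective σ σ.injective).symm ⟨σ a, ⟨a, rfl⟩⟩) : V) = σ' a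
  rw [Equiv.ofInjective_symm_apply]
  rfl

theorem fibre_const (τ : A ↪ B) (σ σ' : A ↪ V) :
    (univ.filter fun θ : B ↪ V => τ.trans θ = σ).card = (univ.filter fun θ : B ↪ V => τ.trans θ = σ').card := by
  obtain ⟨π, hπ⟩ := exists_perm σ σ'
  refine Finset.card_bij (fun θ _ => θ.trans π.toEmbedding) ?_ ?_ ?_
  · intro θ hθ
    simp only [mem_filter, mem_univ, true_and] at hθ ⊢
    ext a
    have : (τ.trans θ) a = σ a := by rw [hθ]
    simp only [Function.Embedding.trans_apply] at this
    simp only [Function.Embedding.trans_apply, Equiv.coe_toEmbedding, this, hπ]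
  · intro θ _ θ' _ h
    ext b
    have : (θ.trans π.toEmbedding) b = (θ'.trans π.toEmbedding) b := by rw [h]
    simpa using this
  · intro θ hθ
    simp only [mem_filter, mem_univ, true_and] at hθ
    refine ⟨θ.trans π.symm.toEmbedding, ?_, ?_⟩
    · simp only [mem_filter, mem_univ, true_and]
      ext a
      have : (τ.trans θ) a = σ' a := by rw [hθ]
      simp only [Function.Embedding.trans_apply] at this
      simp only [Function.Embedding.trans_apply, Equiv.coe_toEmbedding, this, ← hπ, Equiv.symm_apply_apply]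
    · ext b
      simp

/-- a random embedding of `B` restricts to a random embedding of `A` -/
theorem tower (τ : A ↪ B) (hV : Fintype.card B ≤ Fintype.card V) (g : (A ↪ V) → ℝ) :
    (∑ θ : B ↪ V, g (τ.trans θ)) / (Fintype.card (B ↪ V) : ℝ) =
      (∑ σ : A ↪ V, g σ) / (Fintype.card (A ↪ V) : ℝ) := by
  classical
  obtain ⟨θ0⟩ : Nonempty (B ↪ V) := Function.Embedding.nonempty_of_card_le hV
  set c : ℕ := (univ.filter fun θ : B ↪ V => τ.trans θ = τ.trans θ0).card with hc
  have hcc : ∀ σ : A ↪ V, (univ.filter fun θ : B ↪ V => τ.trans θ = σ).card = c := fun σ =>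
    fibre_const τ σ (τ.trans θ0)
  have hsum : ∀ g : (A ↪ V) → ℝ, ∑ θ : B ↪ V, g (τ.trans θ) = c * ∑ σ : A ↪ V, g σ := by
    intro g
    rw [← Finset.sum_fiberwise_of_maps_to (s := univ) (t := univ) (g := fun θ : B ↪ V => τ.trans θ)
      (fun _ _ => mem_univ _), Finset.mul_sum]
    refine Finset.sum_congr rfl fun σ _ => ?_
    rw [Finset.sum_congr rfl (g := fun _ => g σ)]
    · rw [Finset.sum_const, hcc, nsmul_eq_mul]
    · intro θ hθ
      simp only [mem_filter, mem_univ, true_and] at hθ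
      rw [hθ]
  have hcard : (Fintype.card (B ↪ V) : ℝ) = c * Fintype.card (A ↪ V) := by
    have := hsum (fun _ => 1)
    simpa using this
  have hB : (Fintype.card (B ↪ V) : ℝ) ≠ 0 := by
    have : 0 < Fintype.card (B ↪ V) := Fintype.card_pos_iff.mpr ⟨θ0⟩
    positivity
  have hc0 : (c : ℝ) ≠ 0 := by
    intro h
    rw [h, zero_mul] at hcard
    exact hB hcard
  rw [hsum, hcard, mul_div_mul_left _ _ hc0]

theorem avg_comp (τ : A ↪ B) (hV : Fintype.card B ≤ Fintype.card V) (ψ : Finset (Finset A) → ℝ)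
    (H : Finset (Finset V)) : avg (fun G : Finset (Finset B) => ψ (pull τ G)) H = avg ψ H := by
  unfold avg
  rw [← tower τ hV (fun σ => ψ (pull σ H))]
  congr 1
  refine Finset.sum_congr rfl fun θ _ => ?_
  show ψ (pull τ (pull θ H)) = ψ (pull (τ.trans θ) H)
  rw [pull_pull]

theorem avg_add (ψ ψ' : Finset (Finset A) → ℝ) (H : Finset (Finset V)) :
    avg (fun G => ψ G + ψ' G) H = avg ψ H + avg ψ' H := by
  unfold avg
  rw [Finset.sum_add_distrib, add_div]

theorem avg_sum {ι : Type} (s : Finset ι) (ψ : ι → Finset (Finset A) → ℝ) (H : Finset (Finset V)) :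
    avg (fun G => ∑ i ∈ s, ψ i G) H = ∑ i ∈ s, avg (ψ i) H := by
  unfold avg
  rw [Finset.sum_comm, Finset.sum_div]

theorem avg_smul (c : ℝ) (ψ : Finset (Finset A) → ℝ) (H : Finset (Finset V)) :
    avg (fun G => c * ψ G) H = c * avg ψ H := by
  unfold avg
  rw [← Finset.mul_sum, mul_div_assoc]

theorem avg_mono (ψ ψ' : Finset (Finset A) → ℝ) (H : Finset (Finset V))
    (h : ∀ θ : A ↪ V, ψ (pull θ H) ≤ ψ' (pull θ H)) : avg ψ H ≤ avg ψ' H := by
  unfold avg
  exact div_le_div_of_nonneg_right (Finset.sum_le_sum fun θ _ => h θ) (Nat.cast_nonneg _)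

theorem avg_const (c : ℝ) (H : Finset (Finset V)) (hV : Fintype.card A ≤ Fintype.card V) :
    avg (fun _ : Finset (Finset A) => c) H = c := by
  unfold avg
  obtain ⟨θ0⟩ : Nonempty (A ↪ V) := Function.Embedding.nonempty_of_card_le hV
  have hB : (Fintype.card (A ↪ V) : ℝ) ≠ 0 := by
    have : 0 < Fintype.card (A ↪ V) := Fintype.card_pos_iff.mpr ⟨θ0⟩
    positivity
  rw [Finset.sum_const, nsmul_eq_mul, Finset.card_univ]
  field_simp

/-- averages of averages -/
theorem avg_avg (ψ : Finset (Finset A) → ℝ) (H : Finset (Finset V))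
    (hAB : Fintype.card A ≤ Fintype.card B) (hV : Fintype.card B ≤ Fintype.card V) :
    avg (fun G : Finset (Finset B) => avg ψ G) H = avg ψ H := by
  obtain ⟨τ0⟩ : Nonempty (A ↪ B) := Function.Embedding.nonempty_of_card_le hAB
  have hB : (Fintype.card (A ↪ B) : ℝ) ≠ 0 := by
    have : 0 < Fintype.card (A ↪ B) := Fintype.card_pos_iff.mpr ⟨τ0⟩
    positivity
  have h1 : (fun G : Finset (Finset B) => avg ψ G) =
      fun G => (Fintype.card (A ↪ B) : ℝ)⁻¹ * ∑ τ : A ↪ B, ψ (pull τ G) := by
    funext G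
    unfold avg
    rw [div_eq_inv_mul]
  rw [h1, avg_smul, avg_sum]
  simp_rw [avg_comp _ hV]
  rw [Finset.sum_const, nsmul_eq_mul, Finset.card_univ]
  field_simp

end

end Pool.Agent.T2h36
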