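import Pool.Agent.T2h36.TriFam
import Pool.Agent.T2h36.Dens

/-! Counting the edges of the Fon-der-Flaass 3-graph and the induced oriented 4-cycles. -/

set_option autoImplicit false
set_option linter.unusedSectionVars false
open Finset

namespace Pool.Agent.T2h36.Tri

section gen
variable {V : Type} [Fintype V] [DecidableEq V]

/-- a triple which is an edge -/
def Good (S : ColDigraph V) (a b c : V) : Prop :=
  a ≠ b ∧ b ≠ c ∧ a ≠ c ∧ ¬ (S.1 b = S.1 a ∧ S.1 c = S.1 a) ∧ ¬ (S.2 a b = true ∧ S.2 a c = true) ∧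
    ¬ (S.2 b c = true ∧ S.2 b a = true) ∧ ¬ (S.2 c a = true ∧ S.2 c b = true)

instance (S : ColDigraph V) (a b c : V) : Decidable (Good S a b c) := by unfold Good; infer_instance

theorem good_mem {S : ColDigraph V} (hS : IsTripartite S) {a b c : V} (h : Good S a b c) :
    ({a, b, c} : Finset V) ∈ fdf S := by
  obtain ⟨hab, hbc, hac, hp, h1, h2, h3⟩ := h
  unfold fdf
  simp only [mem_filter, mem_univ, true_and]
  have adj : ∀ {u v : V}, S.1 u ≠ S.1 v → (S.2 u v = true ∨ S.2 v u = true) := by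
    intro u v huv
    have := (hS u v).2 huv
    by_cases h : S.2 u v = true
    · exact Or.inl h
    · right
      by_contra hc
      exact h (this.2 (by simpa using hc))
  refine ⟨Finset.card_eq_three.mpr ⟨a, b, c, hab, hac, hbc, rfl⟩, ?_⟩
  intro u hu
  simp only [mem_insert, mem_singleton] at hu
  rcases hu with rfl | rfl | rfl
  · constructor
    · by_cases h : S.1 u = S.1 b
      · have h' : S.1 u ≠ S.1 c := fun h' => hp ⟨h.symm, h'.symm⟩
        exact ⟨c, by simp, adj h'⟩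
      · exact ⟨b, by simp, adj h⟩
    · by_cases h : S.2 u b = true
      · refine ⟨c, by simp, hac.symm, ?_⟩
        by_contra h'
        exact h1 ⟨h, by simpa using h'⟩
      · exact ⟨b, by simp, hab.symm, by simpa using h⟩
  · constructor
    · by_cases h : S.1 u = S.1 a
      · have h' : S.1 u ≠ S.1 c := fun h' => hp ⟨h, by rw [← h', h]⟩
        exact ⟨c, by simp, adj h'⟩
      · exact ⟨a, by simp, adj h⟩
    · by_cases h : S.2 u c = true
      · refine ⟨a, by simp, hab, ?_⟩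
        by_contra h'
        exact h2 ⟨h, by simpa using h'⟩
      · exact ⟨c, by simp, hbc.symm, by simpa using h⟩
  · constructor
    · by_cases h : S.1 u = S.1 a
      · have h' : S.1 u ≠ S.1 b := fun h' => hp ⟨by rw [← h', h], h⟩
        exact ⟨b, by simp, adj h'⟩
      · exact ⟨a, by simp, adj h⟩
    · by_cases h : S.2 u a = true
      · refine ⟨b, by simp, hbc, ?_⟩
        by_contra h'
        exact h3 ⟨h, by simpa using h'⟩
      · exact ⟨a, by simp, hac, by simpa using h⟩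

theorem psi3_ge {S : ColDigraph V} (hS : IsTripartite S) :
    ∑ a : V, ∑ b : V, ∑ c : V, (if Good S a b c then (1 : ℝ) else 0) ≤
      ∑ σ : Fin 3 ↪ V, psi3 (pull σ (fdf S)) := by
  have h1 : ∑ σ : Fin 3 ↪ V, psi3 (pull σ (fdf S)) =
      ((univ.filter fun σ : Fin 3 ↪ V => univ.map σ ∈ fdf S).card : ℝ) := by
    unfold psi3
    simp_rw [mem_pull]
    rw [Finset.sum_boole]
  have h2 : ∑ a : V, ∑ b : V, ∑ c : V, (if Good S a b c then (1 : ℝ) else 0) =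
      ((univ.filter fun t : V × V × V => Good S t.1 t.2.1 t.2.2).card : ℝ) := by
    rw [← Finset.sum_boole, sum_triple]
  rw [h1, h2]
  refine Nat.cast_le.mpr ?_
  refine Finset.card_le_card_of_surjOn (fun σ : Fin 3 ↪ V => (σ 0, σ 1, σ 2)) ?_
  rintro ⟨a, b, c⟩ ht
  simp only [coe_filter, mem_univ, true_and, Set.mem_ofPred_eq] at ht
  have n1 := ht.1
  have n2 := ht.2.1
  have n3 := ht.2.2.1
  have hinj : Function.Injective ![a, b, c] := by
    intro i j hij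
    fin_cases i <;> fin_cases j <;> simp_all
  refine ⟨⟨![a, b, c], hinj⟩, ?_, rfl⟩
  simp only [coe_filter, mem_univ, true_and, Set.mem_ofPred_eq]
  have : (univ : Finset (Fin 3)).map ⟨![a, b, c], hinj⟩ = {a, b, c} := by
    ext x
    simp only [mem_map, mem_univ, true_and, Function.Embedding.coeFn_mk, mem_insert, mem_singleton]
    constructor
    · rintro ⟨i, rfl⟩
      fin_cases i <;> simp
    · rintro (rfl | rfl | rfl)
      · exact ⟨0, rfl⟩
      · exact ⟨1, rfl⟩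
      · exact ⟨2, rfl⟩
  rw [this]
  exact good_mem hS ht

/-- indicator -/
noncomputable def ind (p : Prop) [Decidable p] : ℝ := if p then 1 else 0

theorem ind_nonneg (p : Prop) [Decidable p] : 0 ≤ ind p := by unfold ind; split_ifs <;> norm_num
theorem ind_pos {p : Prop} [Decidable p] (h : p) : ind p = 1 := if_pos h
theorem ind_neg {p : Prop} [Decidable p] (h : ¬ p) : ind p = 0 := if_neg h
theorem ind_and (p q : Prop) [Decidable p] [Decidable q] : ind (p ∧ q) = ind p * ind q := by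
  by_cases hp : p <;> by_cases hq : q <;> simp [ind, hp, hq]

theorem good_ge (S : ColDigraph V) (a b c : V) :
    1 - ind (a = b) - ind (b = c) - ind (a = c) - ind (S.1 b = S.1 a) * ind (S.1 c = S.1 a) -
      ind (S.2 a b = true) * ind (S.2 a c = true) - ind (S.2 b c = true) * ind (S.2 b a = true) -
      ind (S.2 c a = true) * ind (S.2 c b = true) ≤ (if Good S a b c then (1 : ℝ) else 0) := by
  rw [← ind_and, ← ind_and, ← ind_and, ← ind_and]
  have g1 := ind_nonneg (a = b)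
  have g2 := ind_nonneg (b = c)
  have g3 := ind_nonneg (a = c)
  have g4 := ind_nonneg (S.1 b = S.1 a ∧ S.1 c = S.1 a)
  have g5 := ind_nonneg (S.2 a b = true ∧ S.2 a c = true)
  have g6 := ind_nonneg (S.2 b c = true ∧ S.2 b a = true)
  have g7 := ind_nonneg (S.2 c a = true ∧ S.2 c b = true)
  by_cases h : Good S a b c
  · rw [if_pos h]
    linarith
  · rw [if_neg h]
    unfold Good at h
    by_cases e1 : a = b
    · rw [ind_pos e1]; linarith
    by_cases e2 : b = c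
    · rw [ind_pos e2]; linarith
    by_cases e3 : a = c
    · rw [ind_pos e3]; linarith
    by_cases e4 : S.1 b = S.1 a ∧ S.1 c = S.1 a
    · rw [ind_pos e4]; linarith
    by_cases e5 : S.2 a b = true ∧ S.2 a c = true
    · rw [ind_pos e5]; linarith
    by_cases e6 : S.2 b c = true ∧ S.2 b a = true
    · rw [ind_pos e6]; linarith
    by_cases e7 : S.2 c a = true ∧ S.2 c b = true
    · rw [ind_pos e7]; linarith
    · exact absurd ⟨e1, e2, e3, e4, e5, e6, e7⟩ h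

/-- the ordered edges of the Fon-der-Flaass 3-graph -/
theorem fdf_count {S : ColDigraph V} (hS : IsTripartite S) :
    (Fintype.card V : ℝ) ^ 3 - 3 * (Fintype.card V : ℝ) ^ 2 -
      (∑ a : V, (∑ b : V, ind (S.1 b = S.1 a)) ^ 2) - 3 * (∑ a : V, (∑ b : V, ind (S.2 a b = true)) ^ 2) ≤
      ∑ σ : Fin 3 ↪ V, psi3 (pull σ (fdf S)) := by
  refine le_trans ?_ (psi3_ge hS)
  refine le_trans (le_of_eq ?_)
    (Finset.sum_le_sum fun a _ => Finset.sum_le_sum fun b _ => Finset.sum_le_sum fun c _ => good_ge S a b c)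
  simp only [Finset.sum_sub_distrib]
  have c0 : ∑ _a : V, ∑ _b : V, ∑ _c : V, (1 : ℝ) = (Fintype.card V : ℝ) ^ 3 := by
    simp only [Finset.sum_const, Finset.card_univ, nsmul_eq_mul, mul_one]
    ring
  have c1 : ∑ a : V, ∑ b : V, ∑ _c : V, ind (a = b) = (Fintype.card V : ℝ) ^ 2 := by
    unfold ind
    simp only [Finset.sum_const, Finset.card_univ, nsmul_eq_mul, ← Finset.mul_sum, Finset.sum_ite_eq, mem_univ,
      if_true, mul_one]
    ring
  have c2 : ∑ _a : V, ∑ b : V, ∑ c : V, ind (b = c) = (Fintype.card V : ℝ) ^ 2 := by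
    unfold ind
    simp only [Finset.sum_ite_eq, mem_univ, if_true, Finset.sum_const, Finset.card_univ, nsmul_eq_mul, mul_one]
    ring
  have c3 : ∑ a : V, ∑ _b : V, ∑ c : V, ind (a = c) = (Fintype.card V : ℝ) ^ 2 := by
    unfold ind
    simp only [Finset.sum_ite_eq, mem_univ, if_true, Finset.sum_const, Finset.card_univ, nsmul_eq_mul, mul_one]
    ring
  have c4 : ∑ a : V, ∑ b : V, ∑ c : V, ind (S.1 b = S.1 a) * ind (S.1 c = S.1 a) =
      ∑ a : V, (∑ b : V, ind (S.1 b = S.1 a)) ^ 2 := by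
    refine Finset.sum_congr rfl fun a _ => ?_
    rw [sq, Finset.sum_mul_sum]
  have c5 : ∑ a : V, ∑ b : V, ∑ c : V, ind (S.2 a b = true) * ind (S.2 a c = true) =
      ∑ a : V, (∑ b : V, ind (S.2 a b = true)) ^ 2 := by
    refine Finset.sum_congr rfl fun a _ => ?_
    rw [sq, Finset.sum_mul_sum]
  have c6 : ∑ a : V, ∑ b : V, ∑ c : V, ind (S.2 b c = true) * ind (S.2 b a = true) =
      ∑ a : V, (∑ b : V, ind (S.2 a b = true)) ^ 2 := by
    rw [Finset.sum_comm]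
    refine Finset.sum_congr rfl fun b _ => ?_
    rw [Finset.sum_comm, sq, Finset.sum_mul_sum]
  have c7 : ∑ a : V, ∑ b : V, ∑ c : V, ind (S.2 c a = true) * ind (S.2 c b = true) =
      ∑ a : V, (∑ b : V, ind (S.2 a b = true)) ^ 2 := by
    have : ∀ a : V, ∑ b : V, ∑ c : V, ind (S.2 c a = true) * ind (S.2 c b = true) =
        ∑ c : V, ∑ b : V, ind (S.2 c a = true) * ind (S.2 c b = true) := fun a => Finset.sum_comm
    rw [Finset.sum_congr rfl fun a _ => this a, Finset.sum_comm]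
    refine Finset.sum_congr rfl fun c _ => ?_
    rw [sq, Finset.sum_mul_sum]
  rw [c0, c1, c2, c3, c4, c5, c6, c7]
  ring

end gen

section fam
variable {l q : ℕ}

theorem sp_eq (a : VT l q) : ∑ b : VT l q, ind ((GT l q).1 b = (GT l q).1 a) =
    (![(2 * ((l : ℝ) + 1)) ^ 2 + 2 * ((l : ℝ) + 1), (2 * ((l : ℝ) + 1)) ^ 2 + 2 * ((l : ℝ) + 1),
      (2 * ((l : ℝ) + 1)) ^ 2 + 2 * ((l : ℝ) + 1), (2 * ((l : ℝ) + 1)) ^ 2 + 2 * ((l : ℝ) + 1),
      (2 * ((l : ℝ) + 1)) ^ 2 - 2 * (2 * ((l : ℝ) + 1))] : Fin 5 → ℝ) a.1.1 * q := by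
  have h := sumV (l := l) (q := q) (fun κ' _ => ind (pt κ' = pt a.1.1))
  have h2 : ∑ b : VT l q, ind ((GT l q).1 b = (GT l q).1 a) = ∑ b : VT l q, ind (pt b.1.1 = pt a.1.1) := rfl
  rw [h2, h]
  generalize a.1.1 = κ
  fin_cases κ <;> simp [Fin.sum_univ_five, nb, pt, ind] <;> first | ring1 | (left; ring1)

/-- the sums in the formula for the number of edges -/
theorem sums_eq : (∑ a : VT l q, (∑ b : VT l q, ind ((GT l q).1 b = (GT l q).1 a)) ^ 2) +
      3 * (∑ a : VT l q, (∑ b : VT l q, ind ((GT l q).2 a b = true)) ^ 2) =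
    (12 * (2 * ((l : ℝ) + 1)) ^ 6 - 6 * (2 * ((l : ℝ) + 1)) ^ 3 + 51 * (2 * ((l : ℝ) + 1)) ^ 2) * (q : ℝ) ^ 3 := by
  have h1 : ∀ a : VT l q, ∑ b : VT l q, ind ((GT l q).2 a b = true) = od a := fun a => rfl
  simp_rw [sp_eq, h1, od_eq]
  have e1 := sumV (l := l) (q := q) (fun κ _ => ((![(2 * ((l : ℝ) + 1)) ^ 2 + 2 * ((l : ℝ) + 1),
    (2 * ((l : ℝ) + 1)) ^ 2 + 2 * ((l : ℝ) + 1), (2 * ((l : ℝ) + 1)) ^ 2 + 2 * ((l : ℝ) + 1),
    (2 * ((l : ℝ) + 1)) ^ 2 + 2 * ((l : ℝ) + 1),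
      (2 * ((l : ℝ) + 1)) ^ 2 - 2 * (2 * ((l : ℝ) + 1))] : Fin 5 → ℝ) κ * q) ^ 2)
  have e2 := sumV (l := l) (q := q) (fun κ _ => ((![(2 * ((l : ℝ) + 1)) ^ 2 + 1, (2 * ((l : ℝ) + 1)) ^ 2,
    (2 * ((l : ℝ) + 1)) ^ 2 - 4, (2 * ((l : ℝ) + 1)) ^ 2 + 1, (2 * ((l : ℝ) + 1)) ^ 2] : Fin 5 → ℝ) κ * q) ^ 2)
  rw [e1, e2]
  simp [Fin.sum_univ_five, nb]
  ring

theorem Fl_sum : ∑ a : VT l q, ∑ b : VT l q, ind (Fl a b) ≤ 5 * (2 * ((l : ℝ) + 1)) ^ 2 * (q : ℝ) ^ 2 := by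
  have h1 : ∀ a : VT l q, ∑ b : VT l q, ind (Fl a b) =
      ∑ κ' : Fin 5, (nb l κ' : ℝ) * (if tb a.1.1 κ' = 2 then (if a.1.1 = 1 ∨ κ' = 1 then 2 else 1) else 0) * q := by
    intro a
    have h := sumV (l := l) (q := q) (fun κ' y => ind (tb a.1.1 κ' = 2 ∧ mt a.1.1 κ' a.2.1 y = true))
    have h2 : ∑ b : VT l q, ind (Fl a b) =
      ∑ b : VT l q, ind (tb a.1.1 b.1.1 = 2 ∧ mt a.1.1 b.1.1 a.2.1 b.2.1 = true) := rfl
    rw [h2, h]
    refine Finset.sum_congr rfl fun κ' _ => ?_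
    congr 2
    simp_rw [ind_and]
    rw [← Finset.mul_sum]
    have := mt_sum a.1.1 κ' a.2.1
    unfold ind
    rw [this]
    by_cases ht : tb a.1.1 κ' = 2 <;> simp [ht]
  simp_rw [h1]
  have e1 := sumV (l := l) (q := q) (fun κ _ =>
    ∑ κ' : Fin 5, (nb l κ' : ℝ) * (if tb κ κ' = 2 then (if κ = 1 ∨ κ' = 1 then 2 else 1) else 0) * q)
  rw [e1]
  simp [Fin.sum_univ_five, nb, tb]
  have hq : (0 : ℝ) ≤ (q : ℝ) ^ 2 := by positivity
  have hl : (0 : ℝ) ≤ (l : ℝ) := Nat.cast_nonneg l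
  nlinarith [mul_nonneg hq hl]

theorem c4_count : (((univ.filter fun t : VT l q × VT l q × VT l q × VT l q =>
      IsC4 (GT l q) t.1 t.2.1 t.2.2.1 t.2.2.2).card : ℕ) : ℝ) ≤ 50 * (2 * ((l : ℝ) + 1)) ^ 4 * (q : ℝ) ^ 4 := by
  rw [← Finset.sum_boole, sum_quad]
  have h1 : ∀ a b c d : VT l q, (if IsC4 (GT l q) a b c d then (1 : ℝ) else 0) ≤
      ind (Fl a b) * ind (Fl c d) + ind (Fl b c) * ind (Fl d a) := by
    intro a b c d
    rw [← ind_and, ← ind_and]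
    split_ifs with h
    · rcases c4_fl h with h | h
      · rw [ind_pos h]; linarith [ind_nonneg (Fl b c ∧ Fl d a)]
      · rw [ind_pos h]; linarith [ind_nonneg (Fl a b ∧ Fl c d)]
    · linarith [ind_nonneg (Fl b c ∧ Fl d a), ind_nonneg (Fl a b ∧ Fl c d)]
  refine (Finset.sum_le_sum fun a _ => Finset.sum_le_sum fun b _ => Finset.sum_le_sum fun c _ =>
    Finset.sum_le_sum fun d _ => h1 a b c d).trans ?_
  simp only [Finset.sum_add_distrib]
  set F : ℝ := ∑ a : VT l q, ∑ b : VT l q, ind (Fl a b) with hF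
  have e1 : ∑ a : VT l q, ∑ b : VT l q, ∑ c : VT l q, ∑ d : VT l q, ind (Fl a b) * ind (Fl c d) = F * F := by
    simp only [← Finset.mul_sum]
    rw [← hF]
    simp only [← Finset.sum_mul]
    rw [← hF]
  have e2 : ∑ a : VT l q, ∑ b : VT l q, ∑ c : VT l q, ∑ d : VT l q, ind (Fl b c) * ind (Fl d a) = F * F := by
    have h2 : ∀ a : VT l q, ∑ b : VT l q, ∑ c : VT l q, ∑ d : VT l q, ind (Fl b c) * ind (Fl d a) =
        F * ∑ d : VT l q, ind (Fl d a) := by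
      intro a
      simp only [← Finset.mul_sum, ← Finset.sum_mul]
      rw [← hF]
    rw [Finset.sum_congr rfl fun a _ => h2 a, ← Finset.mul_sum, Finset.sum_comm, ← hF]
  rw [e1, e2]
  have h3 := Fl_sum (l := l) (q := q)
  rw [← hF] at h3
  have h4 : 0 ≤ F := Finset.sum_nonneg fun a _ => Finset.sum_nonneg fun b _ => ind_nonneg _
  have h5 : F * F ≤ (5 * (2 * ((l : ℝ) + 1)) ^ 2 * (q : ℝ) ^ 2) * (5 * (2 * ((l : ℝ) + 1)) ^ 2 * (q : ℝ) ^ 2) :=
    mul_le_mul h3 h3 h4 (h4.trans h3)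
  calc F * F + F * F ≤ 2 * ((5 * (2 * ((l : ℝ) + 1)) ^ 2 * (q : ℝ) ^ 2) * (5 * (2 * ((l : ℝ) + 1)) ^ 2 * (q : ℝ) ^ 2)) := by
        linarith
    _ = 50 * (2 * ((l : ℝ) + 1)) ^ 4 * (q : ℝ) ^ 4 := by ring

/-- the density of induced oriented 4-cycles -/
theorem c4Dens_GT (hq : 1 ≤ q) : c4Dens (GT l q) ≤ 1 / (2 * ((l : ℝ) + 1)) ^ 4 := by
  unfold c4Dens
  have hq' : (1 : ℝ) ≤ q := by exact_mod_cast hq
  have hK : (0 : ℝ) < 2 * ((l : ℝ) + 1) := by positivity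
  have hn : (0 : ℝ) < (Fintype.card (VT l q) : ℝ) ^ 4 := by
    rw [card_V]
    positivity
  rw [div_le_div_iff₀ hn (by positivity), one_mul, card_V]
  have h := c4_count (l := l) (q := q)
  have h4 : (0 : ℝ) ≤ (2 * ((l : ℝ) + 1)) ^ 4 := by positivity
  calc _ ≤ (50 * (2 * ((l : ℝ) + 1)) ^ 4 * (q : ℝ) ^ 4) * (2 * ((l : ℝ) + 1)) ^ 4 :=
        mul_le_mul_of_nonneg_right h h4
    _ ≤ (81 * (2 * ((l : ℝ) + 1)) ^ 4 * (q : ℝ) ^ 4) * (2 * ((l : ℝ) + 1)) ^ 4 := by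
        refine mul_le_mul_of_nonneg_right ?_ h4
        have : (0 : ℝ) ≤ (2 * ((l : ℝ) + 1)) ^ 4 * (q : ℝ) ^ 4 := by positivity
        linarith
    _ = (3 * (2 * ((l : ℝ) + 1)) ^ 2 * (q : ℝ)) ^ 4 := by ring

/-- the edge density of the Fon-der-Flaass 3-graph -/
theorem dens_GT (hl : 16 ≤ l) (hq : 36 * (l + 1) ≤ q) :
    5 / 9 + 1 / (18 * (2 * ((l : ℝ) + 1)) ^ 3) ≤ edgeDens (fdf (GT l q)) := by
  have hK34 : (34 : ℝ) ≤ 2 * ((l : ℝ) + 1) := by
    have : (16 : ℝ) ≤ l := by exact_mod_cast hl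
    linarith
  have hqK : 18 * (2 * ((l : ℝ) + 1)) ≤ q := by
    have : (36 : ℝ) * (l + 1) ≤ q := by exact_mod_cast hq
    linarith
  set K : ℝ := 2 * ((l : ℝ) + 1) with hKdef
  have hq0 : (0 : ℝ) < q := by linarith
  have hK0 : (0 : ℝ) < K := by linarith
  have hcr : (Fintype.card (VT l q) : ℝ) = 3 * K ^ 2 * q := card_V l q
  have hm : (3 : ℝ) ≤ 3 * K ^ 2 * q := by
    have a1 : (1 : ℝ) ≤ K ^ 2 := one_le_pow₀ (by linarith)
    have a2 : (1 : ℝ) ≤ q := by linarith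
    have a3 : (1 : ℝ) * 1 ≤ K ^ 2 * q := mul_le_mul a1 a2 (by norm_num) (by positivity)
    linarith
  have hn : 3 ≤ Fintype.card (VT l q) := by
    have : (3 : ℝ) ≤ (Fintype.card (VT l q) : ℝ) := by rw [hcr]; exact hm
    exact_mod_cast this
  rw [edgeDens_eq _ (fdf_is3 _) hn]
  unfold avg
  rw [Fintype.card_embedding_eq, Fintype.card_fin, cast_desc3 _ hn]
  have h := fdf_count (GT_tri l q)
  have hs := sums_eq (l := l) (q := q)
  rw [← hKdef] at hs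
  have h' : (Fintype.card (VT l q) : ℝ) ^ 3 - 3 * (Fintype.card (VT l q) : ℝ) ^ 2 -
      (12 * K ^ 6 - 6 * K ^ 3 + 51 * K ^ 2) * (q : ℝ) ^ 3 ≤ ∑ σ : Fin 3 ↪ VT l q, psi3 (pull σ (fdf (GT l q))) := by
    rw [← hs]
    linarith
  rw [hcr] at h'
  rw [hcr]
  have hn1 : (0 : ℝ) < 3 * K ^ 2 * q * (3 * K ^ 2 * q - 1) * (3 * K ^ 2 * q - 2) := by
    have : (0 : ℝ) < 3 * K ^ 2 * q - 1 := by linarith
    have : (0 : ℝ) < 3 * K ^ 2 * q - 2 := by linarith
    positivity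
  rw [le_div_iff₀ hn1]
  refine le_trans ?_ h'
  have hle : 3 * K ^ 2 * q * (3 * K ^ 2 * q - 1) * (3 * K ^ 2 * q - 2) ≤ (3 * K ^ 2 * q) ^ 3 := by
    have a1 : 3 * K ^ 2 * q * (3 * K ^ 2 * q - 1) ≤ (3 * K ^ 2 * q) * (3 * K ^ 2 * q) := by nlinarith
    have a2 : (0 : ℝ) ≤ 3 * K ^ 2 * q - 2 := by linarith
    calc 3 * K ^ 2 * q * (3 * K ^ 2 * q - 1) * (3 * K ^ 2 * q - 2)
        ≤ (3 * K ^ 2 * q) * (3 * K ^ 2 * q) * (3 * K ^ 2 * q - 2) := mul_le_mul_of_nonneg_right a1 a2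
      _ ≤ (3 * K ^ 2 * q) * (3 * K ^ 2 * q) * (3 * K ^ 2 * q) := by
          refine mul_le_mul_of_nonneg_left (by linarith) (by positivity)
      _ = (3 * K ^ 2 * q) ^ 3 := by ring
  have hc : (0 : ℝ) ≤ 5 / 9 + 1 / (18 * K ^ 3) := by positivity
  refine (mul_le_mul_of_nonneg_left hle hc).trans ?_
  have e1 : (5 / 9 + 1 / (18 * K ^ 3)) * (3 * K ^ 2 * q) ^ 3 = 15 * K ^ 6 * q ^ 3 + (3 / 2) * K ^ 3 * q ^ 3 := by
    field_simp
    ring
  rw [e1]
  have e2 : (3 * K ^ 2 * q) ^ 3 - 3 * (3 * K ^ 2 * q) ^ 2 - (12 * K ^ 6 - 6 * K ^ 3 + 51 * K ^ 2) * (q : ℝ) ^ 3 -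
      (15 * K ^ 6 * q ^ 3 + (3 / 2) * K ^ 3 * q ^ 3) =
      K ^ 2 * q ^ 2 * ((9 / 2) * K * q - 51 * q - 27 * K ^ 2) := by ring
  have e3 : (0 : ℝ) ≤ (9 / 2) * K * q - 51 * q - 27 * K ^ 2 := by
    have b1 : 34 * (q : ℝ) ≤ K * q := mul_le_mul_of_nonneg_right hK34 hq0.le
    have b2 : 18 * K * K ≤ q * K := mul_le_mul_of_nonneg_right hqK hK0.le
    have b3 : 0 < K * q := mul_pos hK0 hq0
    linarith
  have e4 : (0 : ℝ) ≤ K ^ 2 * q ^ 2 * ((9 / 2) * K * q - 51 * q - 27 * K ^ 2) := mul_nonneg (by positivity) e3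
  linarith

end fam

end Pool.Agent.T2h36.Tri
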