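import Pool.Agent.T2h36.BarDefs

/-!
# Definitions: three-coloured oriented graphs, their Fon-der-Flaass 3-graphs, samples and squares
-/

set_option autoImplicit false
open Finset

namespace Pool.Agent.T2h36

/-- a map of `V` to three parts together with a relation on `V` (the arcs) -/
abbrev ColDigraph (V : Type) : Type := (V → Fin 3) × (V → V → Bool)

/-- the arcs form an orientation of the complete tripartite graph given by the parts: there is no
arc inside a part, and exactly one of `u → v`, `v → u` if `u`, `v` lie in different parts -/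
def IsTripartite {V : Type} (S : ColDigraph V) : Prop :=
  ∀ u v : V, (S.1 u = S.1 v → S.2 u v = false) ∧ (S.1 u ≠ S.1 v → (S.2 u v = true ↔ S.2 v u = false))

/-- `a → b → c → d → a` is an induced oriented 4-cycle: `a`, `c` and `b`, `d` are not joined by an
arc -/
def IsC4 {V : Type} (S : ColDigraph V) (a b c d : V) : Prop :=
  S.2 a b = true ∧ S.2 b c = true ∧ S.2 c d = true ∧ S.2 d a = true ∧
    S.2 a c = false ∧ S.2 c a = false ∧ S.2 b d = false ∧ S.2 d b = false

instance {V : Type} (S : ColDigraph V) (a b c d : V) : Decidable (IsC4 S a b c d) := by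
  unfold IsC4; infer_instance

/-- no induced oriented 4-cycle -/
def NoInducedC4 {V : Type} (S : ColDigraph V) : Prop := ∀ a b c d : V, ¬ IsC4 S a b c d

/-- the fraction of the quadruples of vertices which form an induced oriented 4-cycle -/
noncomputable def c4Dens {V : Type} [Fintype V] (S : ColDigraph V) : ℝ :=
  ((univ.filter fun t : V × V × V × V => IsC4 S t.1 t.2.1 t.2.2.1 t.2.2.2).card : ℝ) /
    (Fintype.card V : ℝ) ^ 4

/-- the Fon-der-Flaass 3-graph: the triples in which every vertex is joined by an arc to one of the
other two and no vertex sends arcs to both others -/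
def fdf {V : Type} [Fintype V] [DecidableEq V] (S : ColDigraph V) : Finset (Finset V) :=
  univ.filter fun e => e.card = 3 ∧
    ∀ u ∈ e, (∃ v ∈ e, S.2 u v = true ∨ S.2 v u = true) ∧ ∃ v ∈ e, v ≠ u ∧ S.2 u v = false

/-- the structure induced through an embedding -/
def pullC {A V : Type} (θ : A ↪ V) (S : ColDigraph V) : ColDigraph A :=
  (fun a => S.1 (θ a), fun a b => S.2 (θ a) (θ b))

/-- the average of `ψ` over all embeddings of `A` into the vertex set of `S` -/
noncomputable def avgC {A V : Type} [Fintype A] [Fintype V] [DecidableEq V]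
    (ψ : ColDigraph A → ℝ) (S : ColDigraph V) : ℝ :=
  (∑ θ : A ↪ V, ψ (pullC θ S)) / (Fintype.card (A ↪ V) : ℝ)

/-- the square of the combination `f` of flags with `k` roots and `m` further vertices: the product
of the values of `f` at the two flags with common roots and disjoint groups of further vertices -/
def squareC {k m : ℕ} (f : ColDigraph (Fin k ⊕ Fin m) → ℝ)
    (G : ColDigraph (Fin k ⊕ (Fin m ⊕ Fin m))) : ℝ :=
  f (pullC (left k m) G) * f (pullC (right k m) G)

/-- the sampled average of `φ` is asymptotically nonnegative over all orientations of complete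
tripartite graphs whose Fon-der-Flaass 3-graph has edge density at least `5/9`, and in which at most
the fraction `δ` of the quadruples of vertices forms an induced oriented 4-cycle -/
def AsympNonnegC (δ : ℝ) {N : ℕ} (φ : ColDigraph (Fin N) → ℝ) : Prop :=
  ∀ ε : ℝ, 0 < ε → ∃ n₀ : ℕ, ∀ (V : Type) [Fintype V] [DecidableEq V] (S : ColDigraph V),
    n₀ ≤ Fintype.card V → IsTripartite S → 5 / 9 ≤ edgeDens (fdf S) → c4Dens S ≤ δ → -ε ≤ avgC φ S

end Pool.Agent.T2h36
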