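import Pool.Agent.T2h36.TriSamp

/-! The family of orientations of complete tripartite graphs. -/

set_option autoImplicit false
set_option linter.unusedSectionVars false
open Finset

namespace Pool.Agent.T2h36.Tri

/-- the numbers of blocks of the five kinds -/
def nb (l : ℕ) : Fin 5 → ℕ := ![2 * l + 1, 2, 2 * l + 2, 1, 2 * l]

/-- the part of a kind -/
def pt : Fin 5 → Fin 3 := ![0, 0, 1, 1, 2]

/-- the table of arcs between the kinds: `0` never, `1` always, `2` if the labels match, `3` if the labels do not match -/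
def tb : Fin 5 → Fin 5 → Fin 4 :=
  ![![0, 0, 1, 2, 0], ![0, 0, 2, 0, 1], ![0, 3, 0, 0, 1], ![3, 1, 0, 0, 0], ![1, 0, 0, 1, 0]]

abbrev Lab (l : ℕ) : Type := Fin (l + 1) × Fin 2

/-- matching of labels: both components, or only the first one if the second kind is involved -/
def mt {l : ℕ} (κ κ' : Fin 5) (x y : Lab l) : Bool :=
  decide (x.1 = y.1) && (decide (κ = 1) || decide (κ' = 1) || decide (x.2 = y.2))

/-- the arcs in terms of kinds and labels -/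
def ak {l : ℕ} (κ κ' : Fin 5) (x y : Lab l) : Bool :=
  decide (tb κ κ' = 1) || (decide (tb κ κ' = 2) && mt κ κ' x y) || (decide (tb κ κ' = 3) && !(mt κ κ' x y))

/-- the vertices: kind and block, label, position -/
abbrev VT (l q : ℕ) : Type := (Σ κ : Fin 5, Fin (nb l κ)) × Lab l × Fin q

/-- the oriented graph -/
def GT (l q : ℕ) : ColDigraph (VT l q) :=
  (fun v => pt v.1.1, fun u v => ak u.1.1 v.1.1 u.2.1 v.2.1)

theorem mt_comm {l : ℕ} (κ κ' : Fin 5) (x y : Lab l) : mt κ κ' x y = mt κ' κ y x := by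
  unfold mt
  have h1 : decide (x.1 = y.1) = decide (y.1 = x.1) := by simp [eq_comm]
  have h2 : decide (x.2 = y.2) = decide (y.2 = x.2) := by simp [eq_comm]
  rw [h1, h2, Bool.or_comm (decide (κ = 1))]

theorem tb_same : ∀ κ κ' : Fin 5, pt κ = pt κ' → tb κ κ' = 0 := by decide

theorem tb_diff : ∀ κ κ' : Fin 5, pt κ ≠ pt κ' →
    (tb κ κ' = 0 ∧ tb κ' κ = 1) ∨ (tb κ κ' = 1 ∧ tb κ' κ = 0) ∨ (tb κ κ' = 2 ∧ tb κ' κ = 3) ∨
      (tb κ κ' = 3 ∧ tb κ' κ = 2) := by decide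

theorem GT_tri (l q : ℕ) : IsTripartite (GT l q) := by
  intro u v
  constructor
  · intro h
    show ak u.1.1 v.1.1 u.2.1 v.2.1 = false
    unfold ak
    rw [tb_same _ _ h]
    cases mt u.1.1 v.1.1 u.2.1 v.2.1 <;> decide
  · intro h
    show ak u.1.1 v.1.1 u.2.1 v.2.1 = true ↔ ak v.1.1 u.1.1 v.2.1 u.2.1 = false
    unfold ak
    rw [mt_comm v.1.1 u.1.1]
    rcases tb_diff _ _ h with ⟨h1, h2⟩ | ⟨h1, h2⟩ | ⟨h1, h2⟩ | ⟨h1, h2⟩
    · rw [h1, h2]; cases mt u.1.1 v.1.1 u.2.1 v.2.1 <;> decide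
    · rw [h1, h2]; cases mt u.1.1 v.1.1 u.2.1 v.2.1 <;> decide
    · rw [h1, h2]; cases mt u.1.1 v.1.1 u.2.1 v.2.1 <;> decide
    · rw [h1, h2]; cases mt u.1.1 v.1.1 u.2.1 v.2.1 <;> decide

/-- the flips -/
def Fl {l q : ℕ} (u v : VT l q) : Prop := tb u.1.1 v.1.1 = 2 ∧ mt u.1.1 v.1.1 u.2.1 v.2.1 = true
instance {l q : ℕ} (u v : VT l q) : Decidable (Fl u v) := by unfold Fl; infer_instance

theorem tb_c4 : ∀ a b c d : Fin 5, tb a b ≠ 0 → tb b c ≠ 0 → tb c d ≠ 0 → tb d a ≠ 0 →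
    pt a = pt c → pt b = pt d → (tb a b = 2 ∧ tb c d = 2) ∨ (tb b c = 2 ∧ tb d a = 2) := by decide

theorem ak_ne {l : ℕ} {κ κ' : Fin 5} {x y : Lab l} (h : ak κ κ' x y = true) : tb κ κ' ≠ 0 := by
  intro h0
  unfold ak at h
  rw [h0] at h
  simp at h

theorem ak_fl {l q : ℕ} {u v : VT l q} (h : ak u.1.1 v.1.1 u.2.1 v.2.1 = true) (h2 : tb u.1.1 v.1.1 = 2) :
    Fl u v := by
  refine ⟨h2, ?_⟩
  unfold ak at h
  rw [h2] at h
  simpa using h

theorem c4_fl {l q : ℕ} {a b c d : VT l q} (h : IsC4 (GT l q) a b c d) :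
    (Fl a b ∧ Fl c d) ∨ (Fl b c ∧ Fl d a) := by
  obtain ⟨h1, h2, h3, h4, h5, h6, h7, h8⟩ := h
  have hT := GT_tri l q
  have e1 : pt a.1.1 = pt c.1.1 := by
    by_contra hne
    have := (hT a c).2 hne
    rw [h5, h6] at this
    simp at this
  have e2 : pt b.1.1 = pt d.1.1 := by
    by_contra hne
    have := (hT b d).2 hne
    rw [h7, h8] at this
    simp at this
  rcases tb_c4 a.1.1 b.1.1 c.1.1 d.1.1 (ak_ne h1) (ak_ne h2) (ak_ne h3) (ak_ne h4) e1 e2 with ⟨g1, g2⟩ | ⟨g1, g2⟩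
  · exact Or.inl ⟨ak_fl h1 g1, ak_fl h3 g2⟩
  · exact Or.inr ⟨ak_fl h2 g1, ak_fl h4 g2⟩

/-! ### Counting -/

theorem sumV {l q : ℕ} (g : Fin 5 → Lab l → ℝ) :
    ∑ v : VT l q, g v.1.1 v.2.1 = ∑ κ : Fin 5, (nb l κ : ℝ) * (∑ x : Lab l, g κ x) * q := by
  rw [Fintype.sum_prod_type, Fintype.sum_sigma]
  refine Finset.sum_congr rfl fun κ _ => ?_
  simp only [Fintype.sum_prod_type]
  simp only [Finset.sum_const, Finset.card_univ, Fintype.card_fin, nsmul_eq_mul]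
  simp only [← Finset.mul_sum]
  ring

theorem card_V (l q : ℕ) : (Fintype.card (VT l q) : ℝ) = 3 * (2 * (l + 1)) ^ 2 * q := by
  have hV : (Fintype.card (VT l q) : ℝ) = ∑ _v : VT l q, (1 : ℝ) := by
    rw [Finset.sum_const, Finset.card_univ, nsmul_eq_mul, mul_one]
  rw [hV, sumV (fun _ _ => 1)]
  simp [Fin.sum_univ_five, nb]
  ring

/-- the number of labels which match -/
theorem mt_sum {l : ℕ} (κ κ' : Fin 5) (x : Lab l) :
    ∑ y : Lab l, (if mt κ κ' x y = true then (1 : ℝ) else 0) = if κ = 1 ∨ κ' = 1 then 2 else 1 := by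
  have h : ∀ y : Lab l, (if mt κ κ' x y = true then (1 : ℝ) else 0) =
      (if x.1 = y.1 then (1 : ℝ) else 0) * (if (κ = 1 ∨ κ' = 1) ∨ x.2 = y.2 then (1 : ℝ) else 0) := by
    intro y
    unfold mt
    by_cases h1 : x.1 = y.1 <;> by_cases h2 : κ = 1 <;> by_cases h3 : κ' = 1 <;> by_cases h4 : x.2 = y.2 <;>
      simp [h1, h2, h3, h4]
  simp_rw [h]
  rw [Fintype.sum_prod_type]
  have h6 := Finset.sum_mul_sum (univ : Finset (Fin (l + 1))) (univ : Finset (Fin 2))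
    (fun a => if x.1 = a then (1 : ℝ) else 0) (fun b => if (κ = 1 ∨ κ' = 1) ∨ x.2 = b then (1 : ℝ) else 0)
  rw [← h6, Finset.sum_ite_eq]
  simp only [mem_univ, if_true, one_mul]
  by_cases h5 : κ = 1 ∨ κ' = 1
  · simp [h5]
  · simp [h5]

/-- the number of vertices of a given kind dominated by a vertex -/
theorem ak_sum {l : ℕ} (κ κ' : Fin 5) (x : Lab l) :
    ∑ y : Lab l, (if ak κ κ' x y = true then (1 : ℝ) else 0) =
      if tb κ κ' = 0 then 0 else if tb κ κ' = 1 then 2 * ((l : ℝ) + 1) else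
        if tb κ κ' = 2 then (if κ = 1 ∨ κ' = 1 then 2 else 1) else
          2 * ((l : ℝ) + 1) - (if κ = 1 ∨ κ' = 1 then 2 else 1) := by
  have hm := mt_sum κ κ' x
  have hall : ∑ _y : Lab l, (1 : ℝ) = 2 * ((l : ℝ) + 1) := by
    rw [Finset.sum_const, Finset.card_univ, nsmul_eq_mul, mul_one]
    simp [Fintype.card_prod]
    ring
  have hb : ∀ y : Lab l, (if ak κ κ' x y = true then (1 : ℝ) else 0) =
      if tb κ κ' = 0 then 0 else if tb κ κ' = 1 then 1 else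
        if tb κ κ' = 2 then (if mt κ κ' x y = true then (1 : ℝ) else 0) else
          1 - (if mt κ κ' x y = true then (1 : ℝ) else 0) := by
    intro y
    unfold ak
    generalize tb κ κ' = t
    cases mt κ κ' x y <;> fin_cases t <;> simp
  simp_rw [hb]
  split_ifs with h0 h1 h2
  · simp
  · exact hall
  · rw [hm, if_pos ‹_›]
  · rw [hm, if_neg ‹_›]
  · rw [Finset.sum_sub_distrib, hall, hm, if_pos ‹_›]
  · rw [Finset.sum_sub_distrib, hall, hm, if_neg ‹_›]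

/-- the outdegree -/
noncomputable def od {l q : ℕ} (u : VT l q) : ℝ := ∑ v : VT l q, if (GT l q).2 u v = true then (1 : ℝ) else 0

theorem od_eq {l q : ℕ} (u : VT l q) : od u =
    (![(2 * ((l : ℝ) + 1)) ^ 2 + 1, (2 * ((l : ℝ) + 1)) ^ 2, (2 * ((l : ℝ) + 1)) ^ 2 - 4,
      (2 * ((l : ℝ) + 1)) ^ 2 + 1, (2 * ((l : ℝ) + 1)) ^ 2] : Fin 5 → ℝ) u.1.1 * q := by
  unfold od
  have h := sumV (l := l) (q := q) (fun κ' y => if ak u.1.1 κ' u.2.1 y = true then (1 : ℝ) else 0)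
  have h2 : (∑ v : VT l q, if (GT l q).2 u v = true then (1 : ℝ) else 0) =
      ∑ v : VT l q, (if ak u.1.1 v.1.1 u.2.1 v.2.1 = true then (1 : ℝ) else 0) := rfl
  rw [h2, h]
  simp_rw [ak_sum]
  generalize u.1.1 = κ
  fin_cases κ <;> simp [Fin.sum_univ_five, nb, tb] <;> ring

end Pool.Agent.T2h36.Tri
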