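import Pool.Agent.T2h36.TriCount

/-! Induced oriented 4-cycles in samples. -/

set_option autoImplicit false
set_option linter.unusedSectionVars false
open Finset

namespace Pool.Agent.T2h36

namespace Tri

noncomputable def psiC (S : ColDigraph (Fin 4)) : ℝ := if IsC4 S 0 1 2 3 then 1 else 0

theorem psiC_nonneg (S : ColDigraph (Fin 4)) : 0 ≤ psiC S := by
  unfold psiC
  split_ifs <;> norm_num

theorem c4_ne {V : Type} {S : ColDigraph V} (hS : IsTripartite S) {a b c d : V} (h : IsC4 S a b c d) :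
    a ≠ b ∧ a ≠ c ∧ a ≠ d ∧ b ≠ c ∧ b ≠ d ∧ c ≠ d := by
  obtain ⟨h1, h2, h3, h4, h5, h6, h7, h8⟩ := h
  have irr : ∀ u : V, S.2 u u ≠ true := by
    intro u h
    have := (hS u u).1 rfl
    rw [h] at this
    exact absurd this (by decide)
  refine ⟨?_, ?_, ?_, ?_, ?_, ?_⟩
  · rintro rfl; exact irr _ h1
  · rintro rfl
    -- `a = c`: `a → b` and `b → a`
    have e := (hS a b)
    by_cases hp : S.1 a = S.1 b
    · rw [e.1 hp] at h1; exact absurd h1 (by decide)
    · rw [(e.2 hp).1 h1] at h2; exact absurd h2 (by decide)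
  · rintro rfl; exact irr _ h4
  · rintro rfl; exact irr _ h2
  · rintro rfl
    have e := (hS b c)
    by_cases hp : S.1 b = S.1 c
    · rw [e.1 hp] at h2; exact absurd h2 (by decide)
    · rw [(e.2 hp).1 h2] at h3; exact absurd h3 (by decide)
  · rintro rfl; exact irr _ h3

open Classical in
theorem notfreeC_le {N : ℕ} (S : ColDigraph (Fin N)) (hS : IsTripartite S) :
    (if NoInducedC4 S then (0 : ℝ) else 1) ≤ ∑ τ : Fin 4 ↪ Fin N, psiC (pullC τ S) := by
  split_ifs with h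
  · exact Finset.sum_nonneg fun τ _ => psiC_nonneg _
  · unfold NoInducedC4 at h
    push Not at h
    obtain ⟨a, b, c, d, habcd⟩ := h
    obtain ⟨n1, n2, n3, n4, n5, n6⟩ := c4_ne hS habcd
    have hinj : Function.Injective ![a, b, c, d] := by
      intro i j hij
      fin_cases i <;> fin_cases j <;> simp_all
    have h1 : psiC (pullC ⟨![a, b, c, d], hinj⟩ S) = 1 := by
      unfold psiC
      rw [if_pos]
      exact habcd
    rw [← h1]
    exact Finset.single_le_sum (f := fun τ => psiC (pullC τ S)) (fun τ _ => psiC_nonneg _)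
      (mem_univ (⟨![a, b, c, d], hinj⟩ : Fin 4 ↪ Fin N))

open Classical in
theorem avgC_notfree {N : ℕ} {V : Type} [Fintype V] [DecidableEq V] (S : ColDigraph V) (hS : IsTripartite S)
    (hN : N ≤ Fintype.card V) :
    avgC (fun G : ColDigraph (Fin N) => if NoInducedC4 G then (0 : ℝ) else 1) S ≤ (N : ℝ) ^ 4 * avgC psiC S := by
  have h1 : avgC (fun G : ColDigraph (Fin N) => if NoInducedC4 G then (0 : ℝ) else 1) S ≤
      avgC (fun G : ColDigraph (Fin N) => ∑ τ : Fin 4 ↪ Fin N, psiC (pullC τ G)) S :=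
    avgC_mono _ _ _ fun θ => notfreeC_le _ (pullC_tri θ hS)
  rw [avgC_sum] at h1
  have h2 : ∀ τ : Fin 4 ↪ Fin N, avgC (fun G : ColDigraph (Fin N) => psiC (pullC τ G)) S = avgC psiC S :=
    fun τ => avgC_comp τ (by simpa using hN) psiC S
  rw [Finset.sum_congr rfl (fun τ _ => h2 τ), Finset.sum_const, nsmul_eq_mul] at h1
  refine h1.trans ?_
  refine mul_le_mul_of_nonneg_right ?_ ?_
  · rw [Finset.card_univ, Fintype.card_embedding_eq]
    simp only [Fintype.card_fin]
    exact_mod_cast Nat.descFactorial_le_pow N 4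
  · unfold avgC
    exact div_nonneg (Finset.sum_nonneg fun _ _ => psiC_nonneg _) (Nat.cast_nonneg _)

theorem avgC_psiC {V : Type} [Fintype V] [DecidableEq V] (S : ColDigraph V) (hV : 12 ≤ Fintype.card V) :
    avgC psiC S ≤ 2 * c4Dens S := by
  unfold avgC c4Dens
  rw [Fintype.card_embedding_eq, Fintype.card_fin, cast_desc4 _ (by omega)]
  have hn : (12 : ℝ) ≤ (Fintype.card V : ℝ) := by exact_mod_cast hV
  set n : ℝ := (Fintype.card V : ℝ) with hnd
  have h1 : ∑ σ : Fin 4 ↪ V, psiC (pullC σ S) ≤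
      (((univ.filter fun t : V × V × V × V => IsC4 S t.1 t.2.1 t.2.2.1 t.2.2.2).card : ℕ) : ℝ) := by
    have h2 : ∑ σ : Fin 4 ↪ V, psiC (pullC σ S) =
        (((univ.filter fun σ : Fin 4 ↪ V => IsC4 S (σ 0) (σ 1) (σ 2) (σ 3)).card : ℕ) : ℝ) := by
      rw [← Finset.sum_boole]
      rfl
    rw [h2]
    refine Nat.cast_le.mpr ?_
    refine Finset.card_le_card_of_injOn (fun σ : Fin 4 ↪ V => (σ 0, σ 1, σ 2, σ 3)) ?_ ?_
    · intro σ hσ
      simpa using hσ
    · intro σ _ σ' _ h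
      simp only [Prod.mk.injEq] at h
      refine DFunLike.ext _ _ fun i => ?_
      fin_cases i
      · exact h.1
      · exact h.2.1
      · exact h.2.2.1
      · exact h.2.2.2
  set C : ℝ := (((univ.filter fun t : V × V × V × V => IsC4 S t.1 t.2.1 t.2.2.1 t.2.2.2).card : ℕ) : ℝ) with hC
  have hC0 : 0 ≤ C := Nat.cast_nonneg _
  have p1 : (0 : ℝ) < n := by linarith
  have p2 : (0 : ℝ) < n - 1 := by linarith
  have p3 : (0 : ℝ) < n - 2 := by linarith
  have p4 : (0 : ℝ) < n - 3 := by linarith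
  have hpos : (0 : ℝ) < n * (n - 1) * (n - 2) * (n - 3) := by positivity
  have h3 : n ^ 4 ≤ 2 * (n * (n - 1) * (n - 2) * (n - 3)) := by
    have a1 : (11 / 12 : ℝ) * n ≤ n - 1 := by linarith
    have a2 : (10 / 12 : ℝ) * n ≤ n - 2 := by linarith
    have a3 : (9 / 12 : ℝ) * n ≤ n - 3 := by linarith
    have b1 : n * ((11 / 12 : ℝ) * n) ≤ n * (n - 1) := mul_le_mul_of_nonneg_left a1 p1.le
    have b2 : n * ((11 / 12 : ℝ) * n) * ((10 / 12 : ℝ) * n) ≤ n * (n - 1) * (n - 2) :=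
      mul_le_mul b1 a2 (by positivity) (by positivity)
    have b3 : n * ((11 / 12 : ℝ) * n) * ((10 / 12 : ℝ) * n) * ((9 / 12 : ℝ) * n) ≤ n * (n - 1) * (n - 2) * (n - 3) :=
      mul_le_mul b2 a3 (by positivity) (by positivity)
    have b4 : n * ((11 / 12 : ℝ) * n) * ((10 / 12 : ℝ) * n) * ((9 / 12 : ℝ) * n) = (990 / 1728) * n ^ 4 := by ring
    have b5 : (0 : ℝ) < n ^ 4 := by positivity
    linarith
  rw [div_le_iff₀ hpos]
  have h4 : 2 * (C / n ^ 4) * (n * (n - 1) * (n - 2) * (n - 3)) =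
      C * ((2 * (n * (n - 1) * (n - 2) * (n - 3))) / n ^ 4) := by ring
  rw [h4]
  have h5 : 1 ≤ (2 * (n * (n - 1) * (n - 2) * (n - 3))) / n ^ 4 := by
    rw [le_div_iff₀ (by positivity)]
    linarith
  calc _ ≤ C := h1
    _ = C * 1 := (mul_one _).symm
    _ ≤ _ := mul_le_mul_of_nonneg_left h5 hC0

end Tri

end Pool.Agent.T2h36
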