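import Pool.Agent.T2h36.TriDefs
import Pool.Agent.T2h36.Flag

/-! Sampling of coloured digraphs. -/

set_option autoImplicit false
set_option linter.unusedSectionVars false
open Finset

namespace Pool.Agent.T2h36

section
variable {A B V : Type} [Fintype A] [Fintype B] [Fintype V] [DecidableEq B] [DecidableEq V]

theorem pullC_pullC (τ : A ↪ B) (θ : B ↪ V) (S : ColDigraph V) :
    pullC τ (pullC θ S) = pullC (τ.trans θ) S := rfl

theorem avgC_comp (τ : A ↪ B) (hV : Fintype.card B ≤ Fintype.card V) (ψ : ColDigraph A → ℝ)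
    (S : ColDigraph V) : avgC (fun G : ColDigraph B => ψ (pullC τ G)) S = avgC ψ S := by
  unfold avgC
  rw [← tower τ hV (fun σ => ψ (pullC σ S))]
  rfl

theorem avgC_add (ψ ψ' : ColDigraph A → ℝ) (S : ColDigraph V) :
    avgC (fun G => ψ G + ψ' G) S = avgC ψ S + avgC ψ' S := by
  unfold avgC
  rw [Finset.sum_add_distrib, add_div]

theorem avgC_sum {ι : Type} (s : Finset ι) (ψ : ι → ColDigraph A → ℝ) (S : ColDigraph V) :
    avgC (fun G => ∑ i ∈ s, ψ i G) S = ∑ i ∈ s, avgC (ψ i) S := by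
  unfold avgC
  rw [Finset.sum_comm, Finset.sum_div]

theorem avgC_smul (c : ℝ) (ψ : ColDigraph A → ℝ) (S : ColDigraph V) :
    avgC (fun G => c * ψ G) S = c * avgC ψ S := by
  unfold avgC
  rw [← Finset.mul_sum, mul_div_assoc]

theorem avgC_mono (ψ ψ' : ColDigraph A → ℝ) (S : ColDigraph V)
    (h : ∀ θ : A ↪ V, ψ (pullC θ S) ≤ ψ' (pullC θ S)) : avgC ψ S ≤ avgC ψ' S := by
  unfold avgC
  exact div_le_div_of_nonneg_right (Finset.sum_le_sum fun θ _ => h θ) (Nat.cast_nonneg _)

theorem avgC_const (c : ℝ) (S : ColDigraph V) (hV : Fintype.card A ≤ Fintype.card V) :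
    avgC (fun _ : ColDigraph A => c) S = c := by
  unfold avgC
  obtain ⟨θ0⟩ : Nonempty (A ↪ V) := Function.Embedding.nonempty_of_card_le hV
  have hB : (Fintype.card (A ↪ V) : ℝ) ≠ 0 := by
    have : 0 < Fintype.card (A ↪ V) := Fintype.card_pos_iff.mpr ⟨θ0⟩
    positivity
  rw [Finset.sum_const, nsmul_eq_mul, Finset.card_univ]
  field_simp

/-- averages of averages -/
theorem avgC_avgC (ψ : ColDigraph A → ℝ) (S : ColDigraph V)
    (hAB : Fintype.card A ≤ Fintype.card B) (hV : Fintype.card B ≤ Fintype.card V) :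
    avgC (fun G : ColDigraph B => avgC ψ G) S = avgC ψ S := by
  obtain ⟨τ0⟩ : Nonempty (A ↪ B) := Function.Embedding.nonempty_of_card_le hAB
  have hB : (Fintype.card (A ↪ B) : ℝ) ≠ 0 := by
    have : 0 < Fintype.card (A ↪ B) := Fintype.card_pos_iff.mpr ⟨τ0⟩
    positivity
  have h1 : (fun G : ColDigraph B => avgC ψ G) =
      fun G => (Fintype.card (A ↪ B) : ℝ)⁻¹ * ∑ τ : A ↪ B, ψ (pullC τ G) := by
    funext G
    unfold avgC
    rw [div_eq_inv_mul]
  rw [h1, avgC_smul, avgC_sum]
  simp_rw [avgC_comp _ hV]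
  rw [Finset.sum_const, nsmul_eq_mul, Finset.card_univ]
  field_simp

/-- the Fon-der-Flaass 3-graph of a sample is the sample of the Fon-der-Flaass 3-graph -/
theorem pull_fdf [DecidableEq A] (θ : A ↪ V) (S : ColDigraph V) : pull θ (fdf S) = fdf (pullC θ S) := by
  ext e
  rw [mem_pull]
  unfold fdf pullC
  simp only [mem_filter, mem_univ, true_and, card_map, mem_map, forall_exists_index, and_imp,
    forall_apply_eq_imp_iff₂, exists_exists_and_eq_and]
  refine and_congr_right fun _ => forall_congr' fun u => forall_congr' fun hu => and_congr_right fun _ => ?_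
  refine exists_congr fun v => and_congr_right fun _ => and_congr_left fun _ => ?_
  rw [not_iff_not]
  exact θ.injective.eq_iff

theorem avgC_pull [DecidableEq A] (ψ : Finset (Finset A) → ℝ) (S : ColDigraph V) :
    avgC (fun G : ColDigraph A => ψ (fdf G)) S = avg ψ (fdf S) := by
  unfold avgC avg
  congr 1
  refine Finset.sum_congr rfl fun θ _ => ?_
  rw [pull_fdf]

theorem fdf_is3 (S : ColDigraph V) : Is3 (fdf S) := by
  intro e he
  unfold fdf at he
  simp only [mem_filter, mem_univ, true_and] at he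
  exact he.1

theorem pullC_tri {A : Type} (θ : A ↪ V) {S : ColDigraph V} (h : IsTripartite S) : IsTripartite (pullC θ S) :=
  fun u v => h (θ u) (θ v)

end

section square

theorem squareC_bound {k m : ℕ} (f : ColDigraph (Fin k ⊕ Fin m) → ℝ) (B : ℝ)
    (hB : ∀ G, |f G| ≤ B) (M : ℕ) (hM : 2 ≤ M) {V : Type} [Fintype V] [DecidableEq V]
    (S : ColDigraph V) (hV : k + M * m ≤ Fintype.card V) :
    -(B ^ 2 / ((M : ℝ) - 1)) ≤ avgC (squareC f) S := by
  have hc : Fintype.card (Fin k ⊕ (Fin M × Fin m)) ≤ Fintype.card V := by simpa using hV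
  have h0 : 0 ≤ avgC (fun G : ColDigraph (Fin k ⊕ (Fin M × Fin m)) =>
      ∑ j : Fin M, ∑ j' : Fin M, f (pullC (jth k m M j) G) * f (pullC (jth k m M j') G)) S := by
    unfold avgC
    refine div_nonneg (Finset.sum_nonneg fun θ _ => ?_) (Nat.cast_nonneg _)
    show 0 ≤ ∑ j : Fin M, ∑ j' : Fin M, f (pullC (jth k m M j) (pullC θ S)) * f (pullC (jth k m M j') (pullC θ S))
    rw [← Finset.sum_mul_sum]
    exact mul_self_nonneg _
  rw [avgC_sum] at h0
  simp_rw [avgC_sum] at h0
  have h1 : ∀ j j' : Fin M,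
      avgC (fun G : ColDigraph (Fin k ⊕ (Fin M × Fin m)) =>
        f (pullC (jth k m M j) G) * f (pullC (jth k m M j') G)) S ≤
      if j = j' then B ^ 2 else avgC (squareC f) S := by
    intro j j'
    split_ifs with hj
    · subst hj
      refine (avgC_mono _ (fun _ => B ^ 2) S fun θ => ?_).trans (avgC_const _ _ hc).le
      rw [← abs_mul_abs_self, ← sq]
      exact pow_le_pow_left₀ (abs_nonneg _) (hB _) 2
    · rw [← avgC_comp (jjth k m M j j' hj) hc (squareC f) S]
      refine avgC_mono _ _ _ fun θ => ?_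
      unfold squareC
      rw [pullC_pullC (left k m), pullC_pullC (right k m), left_jjth, right_jjth]
  have h2 := h0.trans (Finset.sum_le_sum fun j _ => Finset.sum_le_sum fun j' _ => h1 j j')
  have h3 : ∀ j : Fin M, ∑ j' : Fin M, (if j = j' then B ^ 2 else avgC (squareC f) S) =
      B ^ 2 + ((M : ℝ) - 1) * avgC (squareC f) S := by
    intro j
    have : ∀ j' : Fin M, (if j = j' then B ^ 2 else avgC (squareC f) S) =
        avgC (squareC f) S + (if j = j' then B ^ 2 - avgC (squareC f) S else 0) := by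
      intro j'
      split_ifs <;> ring
    simp_rw [this]
    rw [Finset.sum_add_distrib, Finset.sum_const, Finset.sum_ite_eq]
    simp
    ring
  simp_rw [h3] at h2
  rw [Finset.sum_const, nsmul_eq_mul, Finset.card_univ, Fintype.card_fin] at h2
  have hMr : (2 : ℝ) ≤ M := by exact_mod_cast hM
  have h4 : 0 ≤ B ^ 2 + ((M : ℝ) - 1) * avgC (squareC f) S := by
    by_contra hneg
    push Not at hneg
    have : (M : ℝ) * (B ^ 2 + ((M : ℝ) - 1) * avgC (squareC f) S) < 0 := mul_neg_of_pos_of_neg (by linarith) hneg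
    linarith
  have h5 : 0 < (M : ℝ) - 1 := by linarith
  rw [← sub_nonneg]
  have : avgC (squareC f) S - -(B ^ 2 / ((M : ℝ) - 1)) =
      (B ^ 2 + ((M : ℝ) - 1) * avgC (squareC f) S) / ((M : ℝ) - 1) := by
    field_simp
    ring
  rw [this]
  exact div_nonneg h4 h5.le

/-- squares are asymptotically nonnegative -/
theorem squareC_nonneg {k m : ℕ} (f : ColDigraph (Fin k ⊕ Fin m) → ℝ) (ε : ℝ) (hε : 0 < ε) :
    ∃ n₀ : ℕ, ∀ (V : Type) [Fintype V] [DecidableEq V] (S : ColDigraph V),
      n₀ ≤ Fintype.card V → -ε ≤ avgC (squareC f) S := by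
  classical
  set B : ℝ := ∑ G : ColDigraph (Fin k ⊕ Fin m), |f G| with hBdef
  have hB : ∀ G, |f G| ≤ B := fun G =>
    Finset.single_le_sum (f := fun G => |f G|) (fun _ _ => abs_nonneg _) (mem_univ G)
  obtain ⟨M, hM⟩ := exists_nat_gt (B ^ 2 / ε + 2)
  have hB2 : 0 ≤ B ^ 2 / ε := div_nonneg (sq_nonneg _) hε.le
  have hM2 : 2 ≤ M := by
    have : (2 : ℝ) < M := by linarith
    exact_mod_cast this.le
  refine ⟨k + M * m, fun V _ _ S hV => ?_⟩
  refine le_trans ?_ (squareC_bound f B hB M hM2 S hV)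
  have h5 : 0 < (M : ℝ) - 1 := by linarith
  rw [neg_le_neg_iff, div_le_iff₀ h5]
  have : B ^ 2 / ε ≤ (M : ℝ) - 1 := by linarith
  rw [div_le_iff₀ hε] at this
  linarith

end square

end Pool.Agent.T2h36
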