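import Pool.Agent.T2h36.Dens

/-! Lower bounds for squares by first moments. -/

set_option autoImplicit false
set_option linter.unusedSectionVars false
open Finset

namespace Pool.Agent.T2h36.Uni

section
variable {k m : ℕ} {Y : Type} [Fintype Y] [DecidableEq Y]

/-- the square of a function of embeddings -/
noncomputable def SqE (g : (Fin k ⊕ Fin m ↪ Y) → ℝ) : ℝ :=
  (∑ Θ : Fin k ⊕ (Fin m ⊕ Fin m) ↪ Y, g ((left k m).trans Θ) * g ((right k m).trans Θ)) /
    (Fintype.card (Fin k ⊕ (Fin m ⊕ Fin m) ↪ Y) : ℝ)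

/-- the mean of a function of embeddings -/
noncomputable def EE (g : (Fin k ⊕ Fin m ↪ Y) → ℝ) : ℝ :=
  (∑ θ : Fin k ⊕ Fin m ↪ Y, g θ) / (Fintype.card (Fin k ⊕ Fin m ↪ Y) : ℝ)

theorem SqE_ge (g : (Fin k ⊕ Fin m ↪ Y) → ℝ) (B : ℝ) (hB : ∀ θ, |g θ| ≤ B) (M : ℕ) (hM : 2 ≤ M)
    (hV : k + M * m ≤ Fintype.card Y) : EE g ^ 2 - B ^ 2 / ((M : ℝ) - 1) ≤ SqE g := by
  have hc : Fintype.card (Fin k ⊕ (Fin M × Fin m)) ≤ Fintype.card Y := by simpa using hV
  obtain ⟨θ0⟩ : Nonempty (Fin k ⊕ (Fin M × Fin m) ↪ Y) := Function.Embedding.nonempty_of_card_le hc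
  set c : ℝ := (Fintype.card (Fin k ⊕ (Fin M × Fin m) ↪ Y) : ℝ) with hcdef
  have hcpos : 0 < c := by
    have : 0 < Fintype.card (Fin k ⊕ (Fin M × Fin m) ↪ Y) := Fintype.card_pos_iff.mpr ⟨θ0⟩
    rw [hcdef]; exact_mod_cast this
  -- Jensen
  have hJ : ((∑ Θ : Fin k ⊕ (Fin M × Fin m) ↪ Y, ∑ j : Fin M, g ((jth k m M j).trans Θ)) / c) ^ 2 ≤
      (∑ Θ : Fin k ⊕ (Fin M × Fin m) ↪ Y, (∑ j : Fin M, g ((jth k m M j).trans Θ)) ^ 2) / c := by
    have h1 := sq_sum_le_card_mul_sum_sq (s := (univ : Finset (Fin k ⊕ (Fin M × Fin m) ↪ Y)))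
      (f := fun Θ => ∑ j : Fin M, g ((jth k m M j).trans Θ))
    rw [Finset.card_univ, ← hcdef] at h1
    rw [div_pow, div_le_div_iff₀ (by positivity) hcpos]
    calc _ ≤ (c * ∑ Θ : Fin k ⊕ (Fin M × Fin m) ↪ Y, (∑ j : Fin M, g ((jth k m M j).trans Θ)) ^ 2) * c :=
          mul_le_mul_of_nonneg_right h1 hcpos.le
      _ = _ := by ring
  have hE : (∑ Θ : Fin k ⊕ (Fin M × Fin m) ↪ Y, ∑ j : Fin M, g ((jth k m M j).trans Θ)) / c = M * EE g := by
    rw [Finset.sum_comm, Finset.sum_div]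
    have : ∀ j : Fin M, (∑ Θ : Fin k ⊕ (Fin M × Fin m) ↪ Y, g ((jth k m M j).trans Θ)) / c = EE g :=
      fun j => tower (jth k m M j) hc g
    rw [Finset.sum_congr rfl fun j _ => this j, Finset.sum_const, nsmul_eq_mul, Finset.card_univ, Fintype.card_fin]
  rw [hE] at hJ
  have hS : (∑ Θ : Fin k ⊕ (Fin M × Fin m) ↪ Y, (∑ j : Fin M, g ((jth k m M j).trans Θ)) ^ 2) / c ≤
      M * (B ^ 2 + ((M : ℝ) - 1) * SqE g) := by
    have e1 : ∀ Θ : Fin k ⊕ (Fin M × Fin m) ↪ Y, (∑ j : Fin M, g ((jth k m M j).trans Θ)) ^ 2 =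
        ∑ j : Fin M, ∑ j' : Fin M, g ((jth k m M j).trans Θ) * g ((jth k m M j').trans Θ) := by
      intro Θ
      rw [sq, Finset.sum_mul_sum]
    rw [Finset.sum_congr rfl fun Θ _ => e1 Θ, Finset.sum_comm, Finset.sum_div]
    have e2 : ∀ j : Fin M, (∑ Θ : Fin k ⊕ (Fin M × Fin m) ↪ Y, ∑ j' : Fin M,
        g ((jth k m M j).trans Θ) * g ((jth k m M j').trans Θ)) / c ≤
        ∑ j' : Fin M, if j = j' then B ^ 2 else SqE g := by
      intro j
      rw [Finset.sum_comm, Finset.sum_div]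
      refine Finset.sum_le_sum fun j' _ => ?_
      split_ifs with hj
      · subst hj
        rw [div_le_iff₀ hcpos]
        calc (∑ Θ : Fin k ⊕ (Fin M × Fin m) ↪ Y, g ((jth k m M j).trans Θ) * g ((jth k m M j).trans Θ))
            ≤ ∑ _Θ : Fin k ⊕ (Fin M × Fin m) ↪ Y, B ^ 2 := by
              refine Finset.sum_le_sum fun Θ _ => ?_
              rw [← abs_mul_abs_self, ← sq]
              exact pow_le_pow_left₀ (abs_nonneg _) (hB _) 2
          _ = B ^ 2 * c := by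
              rw [Finset.sum_const, nsmul_eq_mul, Finset.card_univ, ← hcdef]; ring
      · apply le_of_eq
        have ht := tower (jjth k m M j j' hj) hc
          (fun Θ : Fin k ⊕ (Fin m ⊕ Fin m) ↪ Y => g ((left k m).trans Θ) * g ((right k m).trans Θ))
        unfold SqE
        rw [← ht]
        congr 1
        refine Finset.sum_congr rfl fun Θ _ => ?_
        have a1 : (left k m).trans ((jjth k m M j j' hj).trans Θ) = (jth k m M j).trans Θ := by
          rw [← left_jjth k m M j j' hj]; rfl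
        have a2 : (right k m).trans ((jjth k m M j j' hj).trans Θ) = (jth k m M j').trans Θ := by
          rw [← right_jjth k m M j j' hj]; rfl
        rw [a1, a2]
    refine (Finset.sum_le_sum fun j _ => e2 j).trans (le_of_eq ?_)
    have h3 : ∀ j : Fin M, ∑ j' : Fin M, (if j = j' then B ^ 2 else SqE g) =
        B ^ 2 + ((M : ℝ) - 1) * SqE g := by
      intro j
      have : ∀ j' : Fin M, (if j = j' then B ^ 2 else SqE g) =
          SqE g + (if j = j' then B ^ 2 - SqE g else 0) := by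
        intro j'
        split_ifs <;> ring
      simp_rw [this]
      rw [Finset.sum_add_distrib, Finset.sum_const, Finset.sum_ite_eq]
      simp
      ring
    simp_rw [h3]
    rw [Finset.sum_const, nsmul_eq_mul, Finset.card_univ, Fintype.card_fin]
  have hMr : (2 : ℝ) ≤ M := by exact_mod_cast hM
  have hM0 : (0 : ℝ) < M := by linarith
  have hM1 : (0 : ℝ) < (M : ℝ) - 1 := by linarith
  have h4 : (M : ℝ) * (M * EE g ^ 2) ≤ M * (B ^ 2 + ((M : ℝ) - 1) * SqE g) := by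
    calc (M : ℝ) * (M * EE g ^ 2) = (M * EE g) ^ 2 := by ring
      _ ≤ _ := hJ.trans hS
  have h5 := le_of_mul_le_mul_left h4 hM0
  rw [sub_le_iff_le_add]
  have h6 : ((M : ℝ) - 1) * EE g ^ 2 ≤ B ^ 2 + ((M : ℝ) - 1) * SqE g := by
    have : 0 ≤ EE g ^ 2 := sq_nonneg _
    nlinarith
  have h7 : EE g ^ 2 ≤ (B ^ 2 + ((M : ℝ) - 1) * SqE g) / ((M : ℝ) - 1) := by
    rw [le_div_iff₀ hM1]; linarith
  refine h7.trans (le_of_eq ?_)
  field_simp
  ring

/-- the square of a combination of flags dominates the square of the mean over the embeddings whose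
roots satisfy a condition -/
theorem square_ge (f : Finset (Finset (Fin k ⊕ Fin m)) → ℝ) (B : ℝ) (hB : ∀ G, |f G| ≤ B) (M : ℕ)
    (hM : 2 ≤ M) (H : Finset (Finset Y)) (hV : k + M * m ≤ Fintype.card Y)
    (p : (Fin k → Y) → Prop) [DecidablePred p] :
    EE (fun θ : Fin k ⊕ Fin m ↪ Y => if p (fun i => θ (Sum.inl i)) then f (pull θ H) else 0) ^ 2 -
      2 * (B ^ 2 / ((M : ℝ) - 1)) ≤ avg (square f) H := by
  set g1 : (Fin k ⊕ Fin m ↪ Y) → ℝ := fun θ => if p (fun i => θ (Sum.inl i)) then f (pull θ H) else 0 with hg1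
  set g2 : (Fin k ⊕ Fin m ↪ Y) → ℝ := fun θ => if p (fun i => θ (Sum.inl i)) then 0 else f (pull θ H) with hg2
  have hBnn : 0 ≤ B := (abs_nonneg _).trans (hB ∅)
  have b1 : ∀ θ, |g1 θ| ≤ B := by
    intro θ
    simp only [hg1]
    split_ifs
    · exact hB _
    · simpa using hBnn
  have b2 : ∀ θ, |g2 θ| ≤ B := by
    intro θ
    simp only [hg2]
    split_ifs
    · simpa using hBnn
    · exact hB _
  have h1 := SqE_ge g1 B b1 M hM hV
  have h2 := SqE_ge g2 B b2 M hM hV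
  have h3 : avg (square f) H = SqE g1 + SqE g2 := by
    unfold avg SqE
    rw [← add_div, ← Finset.sum_add_distrib]
    congr 1
    refine Finset.sum_congr rfl fun Θ _ => ?_
    unfold square
    rw [pull_pull (left k m), pull_pull (right k m)]
    have e1 : (fun i => ((left k m).trans Θ) (Sum.inl i)) = fun i => Θ (Sum.inl i) := rfl
    have e2 : (fun i => ((right k m).trans Θ) (Sum.inl i)) = fun i => Θ (Sum.inl i) := rfl
    simp only [hg1, hg2]
    rw [e1, e2]
    split_ifs <;> ring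
  have h4 : 0 ≤ EE g2 ^ 2 := sq_nonneg _
  rw [h3]
  linarith

end

end Pool.Agent.T2h36.Uni
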