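import Pool.Agent.T2h36.Uni1

/-! Blow-ups of 3-graphs and inclusion-exclusion. -/

set_option autoImplicit false
set_option linter.unusedSectionVars false
open Finset

namespace Pool.Agent.T2h36.Uni

section sub
variable {A A' Y : Type} [Fintype A] [Fintype A'] [Fintype Y] [DecidableEq A] [DecidableEq A'] [DecidableEq Y]

/-- the pull-back of a 3-graph under a map: the triples mapped injectively to an edge -/
def sub (F : Finset (Finset A)) (β : A' → A) : Finset (Finset A') :=
  univ.filter fun e => e.card = 3 ∧ e.image β ∈ F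

theorem mem_sub {F : Finset (Finset A)} {β : A' → A} {e : Finset A'} :
    e ∈ sub F β ↔ e.card = 3 ∧ e.image β ∈ F := by simp [sub]

theorem sub_is3 (F : Finset (Finset A)) (β : A' → A) : Is3 (sub F β) := fun _ he => (mem_sub.mp he).1

theorem pull_sub (F : Finset (Finset A)) (π : Y → A) (θ : A' ↪ Y) :
    pull θ (sub F π) = sub F (fun a => π (θ a)) := by
  ext e
  rw [mem_pull, mem_sub, mem_sub, card_map, Finset.map_eq_image, Finset.image_image]
  rfl

theorem sub_emb {F : Finset (Finset A)} (h3 : Is3 F) (τ : A' ↪ A) : sub F τ = pull τ F := by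
  ext e
  rw [mem_pull, mem_sub, Finset.map_eq_image]
  constructor
  · exact fun h => h.2
  · intro h
    refine ⟨?_, h⟩
    have := h3 _ h
    rwa [Finset.card_image_of_injective _ τ.injective] at this

theorem sub_free {F : Finset (Finset A)} (h3 : Is3 F) (hF : K43Free F) (π : Y → A) : K43Free (sub F π) := by
  intro S hS
  by_contra hcon
  push Not at hcon
  have hinj : Set.InjOn π (S : Set Y) := by
    intro x hx y hy hxy
    by_contra hne
    -- a triple of `S` containing `x` and `y`
    have hxyS : ({x, y} : Finset Y) ⊆ S := by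
      intro z hz
      simp only [mem_insert, mem_singleton] at hz
      rcases hz with rfl | rfl
      · exact hx
      · exact hy
    have hc : ({x, y} : Finset Y).card ≤ 3 := (Finset.card_pair hne).le.trans (by norm_num)
    obtain ⟨T, hT1, hT2, hT3⟩ := Finset.exists_subsuperset_card_eq hxyS hc (by omega : 3 ≤ S.card)
    have hm := hcon T hT2 hT3
    rw [mem_sub] at hm
    have h4 := h3 _ hm.2
    have h5 : Set.InjOn π (T : Set Y) := Finset.card_image_iff.mp (by rw [h4, hT3])
    exact hne (h5 (hT1 (by simp)) (hT1 (by simp)) hxy)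
  have hcard : (S.image π).card = 4 := by
    rw [Finset.card_image_iff.mpr hinj, hS]
  obtain ⟨T', hT', hT'3, hT'F⟩ := hF _ hcard
  obtain ⟨T, hTS, hTimg⟩ := Finset.subset_image_iff.mp hT'
  have hTcard : T.card = 3 := by
    rw [← hT'3, ← hTimg]
    exact (Finset.card_image_iff.mpr (hinj.mono hTS)).symm
  have hm := hcon T (by exact_mod_cast hTS) hTcard
  rw [mem_sub, hTimg] at hm
  exact hT'F hm.2

end sub

section ie
variable {k m : ℕ}

/-- maps fixing the roots -/
def RootId (β : Fin k ⊕ Fin m → Fin k ⊕ Fin m) : Prop := ∀ i : Fin k, β (Sum.inl i) = Sum.inl i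
instance (β : Fin k ⊕ Fin m → Fin k ⊕ Fin m) : Decidable (RootId β) := by unfold RootId; infer_instance

/-- vertices outside `U` -/
def Av (U : Finset (Fin m)) (a : Fin k ⊕ Fin m) : Prop := ∀ x ∈ U, a ≠ Sum.inr x
instance (U : Finset (Fin m)) (a : Fin k ⊕ Fin m) : Decidable (Av U a) := by unfold Av; infer_instance

/-- the sum over all maps avoiding `U` -/
noncomputable def QU (f : Finset (Finset (Fin k ⊕ Fin m)) → ℝ) (F : Finset (Finset (Fin k ⊕ Fin m)))
    (U : Finset (Fin m)) : ℝ :=
  ∑ β : Fin k ⊕ Fin m → Fin k ⊕ Fin m, if RootId β ∧ ∀ a, Av U (β a) then f (sub F β) else 0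

/-- the symmetrisation -/
noncomputable def symm (f : Finset (Finset (Fin k ⊕ Fin m)) → ℝ) (F : Finset (Finset (Fin k ⊕ Fin m))) : ℝ :=
  ∑ σ : Equiv.Perm (Fin m), f (sub F (Sum.map id σ))

theorem incl_excl (f : Finset (Finset (Fin k ⊕ Fin m)) → ℝ) (F : Finset (Finset (Fin k ⊕ Fin m))) :
    symm f F = ∑ U : Finset (Fin m), (-1 : ℝ) ^ U.card * QU f F U := by
  classical
  have h1 : ∑ U : Finset (Fin m), (-1 : ℝ) ^ U.card * QU f F U =
      ∑ β : Fin k ⊕ Fin m → Fin k ⊕ Fin m,
        if RootId β ∧ ∀ x : Fin m, ∃ a, β a = Sum.inr x then f (sub F β) else 0 := by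
    unfold QU
    simp_rw [Finset.mul_sum]
    rw [Finset.sum_comm]
    refine Finset.sum_congr rfl fun β _ => ?_
    by_cases hR : RootId β
    · set W : Finset (Fin m) := univ.filter fun x => ∀ a, β a ≠ Sum.inr x with hW
      have h2 : ∀ U : Finset (Fin m), (RootId β ∧ ∀ a, Av U (β a)) ↔ U ∈ W.powerset := by
        intro U
        rw [mem_powerset]
        constructor
        · rintro ⟨_, h⟩ x hx
          rw [hW, mem_filter]
          exact ⟨mem_univ _, fun a => h a x hx⟩
        · intro h
          refine ⟨hR, fun a x hx => ?_⟩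
          have := h hx
          rw [hW, mem_filter] at this
          exact this.2 a
      have h3 : ∀ U : Finset (Fin m), (-1 : ℝ) ^ U.card * (if RootId β ∧ ∀ a, Av U (β a) then f (sub F β) else 0) =
          if U ∈ W.powerset then (-1 : ℝ) ^ U.card * f (sub F β) else 0 := by
        intro U
        rw [if_congr (h2 U) rfl rfl]
        split_ifs <;> ring
      rw [Finset.sum_congr rfl fun U _ => h3 U, Finset.sum_ite_mem, Finset.univ_inter, ← Finset.sum_mul]
      have h4 : ∑ U ∈ W.powerset, (-1 : ℝ) ^ U.card = if W = ∅ then 1 else 0 := by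
        have := Finset.sum_powerset_neg_one_pow_card (x := W)
        have h5 : (∑ U ∈ W.powerset, (-1 : ℝ) ^ U.card) = ((∑ U ∈ W.powerset, (-1 : ℤ) ^ U.card : ℤ) : ℝ) := by
          push_cast; rfl
        rw [h5, this]
        split_ifs <;> simp
      rw [h4]
      by_cases hWe : W = ∅
      · rw [if_pos hWe, if_pos, one_mul]
        refine ⟨hR, fun x => ?_⟩
        by_contra hx
        push Not at hx
        have : x ∈ W := by rw [hW, mem_filter]; exact ⟨mem_univ _, hx⟩
        rw [hWe] at this
        exact absurd this (Finset.notMem_empty x)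
      · rw [if_neg hWe, if_neg, zero_mul]
        rintro ⟨_, h⟩
        apply hWe
        rw [hW, Finset.filter_eq_empty_iff]
        intro x _ hx
        obtain ⟨a, ha⟩ := h x
        exact hx a ha
    · rw [if_neg (fun h => hR h.1)]
      refine Finset.sum_eq_zero fun U _ => ?_
      rw [if_neg (fun h => hR h.1), mul_zero]
  rw [h1]
  unfold symm
  rw [← Finset.sum_filter]
  refine Finset.sum_bij (fun (σ : Equiv.Perm (Fin m)) _ => (Sum.map id σ : Fin k ⊕ Fin m → Fin k ⊕ Fin m)) ?_ ?_ ?_ ?_
  · intro σ _
    rw [mem_filter]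
    refine ⟨mem_univ _, fun i => rfl, fun x => ⟨Sum.inr (σ.symm x), by simp⟩⟩
  · intro σ _ σ' _ h
    refine Equiv.ext fun x => ?_
    have := congrFun h (Sum.inr x)
    simpa using this
  · intro β hβ
    rw [mem_filter] at hβ
    obtain ⟨-, hR, hs⟩ := hβ
    have hsurj : Function.Surjective β := by
      rintro (i | x)
      · exact ⟨Sum.inl i, hR i⟩
      · exact hs x
    have hbij : Function.Bijective β := Finite.injective_iff_bijective.mp (Finite.injective_iff_surjective.mpr hsurj)
    have hinr : ∀ x : Fin m, ∃ y : Fin m, β (Sum.inr x) = Sum.inr y := by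
      intro x
      rcases hb : β (Sum.inr x) with i | y
      · exfalso
        have := hbij.1 (hb.trans (hR i).symm)
        exact absurd this (by simp)
      · exact ⟨y, rfl⟩
    choose s hs' using hinr
    have hsinj : Function.Injective s := by
      intro x y hxy
      have : β (Sum.inr x) = β (Sum.inr y) := by rw [hs', hs', hxy]
      simpa using hbij.1 this
    refine ⟨Equiv.ofBijective s (Finite.injective_iff_bijective.mp hsinj), mem_univ _, ?_⟩
    funext a
    rcases a with i | x
    · exact (hR i).symm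
    · show Sum.inr (s x) = β (Sum.inr x)
      exact (hs' x).symm
  · intro σ _
    rfl

end ie

end Pool.Agent.T2h36.Uni
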