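import Pool.Agent.T2h36.Uni2

/-! The values of a combination of flags are bounded by the squares in blow-ups. -/

set_option autoImplicit false
set_option linter.unusedSectionVars false
open Finset

namespace Pool.Agent.T2h36.Uni

section fib
variable {A X : Type} [Fintype A] [Fintype X] [DecidableEq A] [DecidableEq X] {t : ℕ}

/-- the embeddings into `X × Fin t` over a map to `X` -/
theorem fib_le (β : A → X) :
    (univ.filter fun θ : A ↪ X × Fin t => (fun a => (θ a).1) = β).card ≤ t ^ Fintype.card A := by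
  have h : (univ : Finset (A → Fin t)).card = t ^ Fintype.card A := by
    rw [card_univ, Fintype.card_fun, Fintype.card_fin]
  rw [← h]
  refine Finset.card_le_card_of_injOn (fun θ => fun a => (θ a).2) (fun _ _ => mem_univ _) ?_
  intro θ hθ θ' hθ' hh
  simp only [coe_filter, mem_univ, true_and, Set.mem_ofPred_eq] at hθ hθ'
  refine DFunLike.ext _ _ fun a => ?_
  exact Prod.ext (by rw [congrFun hθ a, congrFun hθ' a]) (congrFun hh a)

theorem fib_ge (β : A → X) :
    t.descFactorial (Fintype.card A) ≤ (univ.filter fun θ : A ↪ X × Fin t => (fun a => (θ a).1) = β).card := by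
  have h : (univ : Finset (A ↪ Fin t)).card = t.descFactorial (Fintype.card A) := by
    rw [card_univ, Fintype.card_embedding_eq, Fintype.card_fin]
  rw [← h]
  refine Finset.card_le_card_of_injOn
    (fun j => (⟨fun a => (β a, j a), fun a b hab => j.injective (Prod.ext_iff.mp hab).2⟩ : A ↪ X × Fin t)) ?_ ?_
  · intro j _
    simp only [coe_filter, mem_univ, true_and, Set.mem_ofPred_eq]
    rfl
  · intro j _ j' _ hh
    refine DFunLike.ext _ _ fun a => ?_
    have := DFunLike.congr_fun hh a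
    exact (Prod.ext_iff.mp this).2

/-- comparison of the sum over embeddings with the sum over maps -/
theorem fib_sum (h : (A → X) → ℝ) (B : ℝ) (hB : ∀ β, |h β| ≤ B) :
    (t : ℝ) ^ Fintype.card A * |∑ β : A → X, h β| ≤ |∑ θ : A ↪ X × Fin t, h (fun a => (θ a).1)| +
      (Fintype.card X : ℝ) ^ Fintype.card A * B * ((t : ℝ) ^ Fintype.card A - t.descFactorial (Fintype.card A)) := by
  set p := Fintype.card A with hp
  have hBnn : 0 ≤ B ∨ IsEmpty (A → X) := by
    by_cases hne : Nonempty (A → X)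
    · obtain ⟨β⟩ := hne
      exact Or.inl ((abs_nonneg _).trans (hB β))
    · exact Or.inr (not_nonempty_iff.mp hne)
  have h1 : ∑ θ : A ↪ X × Fin t, h (fun a => (θ a).1) =
      ∑ β : A → X, ((univ.filter fun θ : A ↪ X × Fin t => (fun a => (θ a).1) = β).card : ℝ) * h β := by
    rw [← Finset.sum_fiberwise_of_maps_to (s := univ) (t := univ)
      (g := fun θ : A ↪ X × Fin t => fun a => (θ a).1) (fun _ _ => mem_univ _)]
    refine Finset.sum_congr rfl fun β _ => ?_
    rw [Finset.sum_congr rfl (g := fun _ => h β)]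
    · rw [Finset.sum_const, nsmul_eq_mul]
    · intro θ hθ
      simp only [mem_filter, mem_univ, true_and] at hθ
      rw [hθ]
  have h2 : (t : ℝ) ^ p * ∑ β : A → X, h β = ∑ θ : A ↪ X × Fin t, h (fun a => (θ a).1) +
      ∑ β : A → X, ((t : ℝ) ^ p -
        ((univ.filter fun θ : A ↪ X × Fin t => (fun a => (θ a).1) = β).card : ℝ)) * h β := by
    rw [h1, ← Finset.sum_add_distrib, Finset.mul_sum]
    refine Finset.sum_congr rfl fun β _ => ?_
    ring
  have h3 : |∑ β : A → X, ((t : ℝ) ^ p -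
        ((univ.filter fun θ : A ↪ X × Fin t => (fun a => (θ a).1) = β).card : ℝ)) * h β| ≤
      (Fintype.card X : ℝ) ^ p * B * ((t : ℝ) ^ p - t.descFactorial p) := by
    refine (Finset.abs_sum_le_sum_abs _ _).trans ?_
    have h4 : ∀ β : A → X, |((t : ℝ) ^ p -
        ((univ.filter fun θ : A ↪ X × Fin t => (fun a => (θ a).1) = β).card : ℝ)) * h β| ≤
        ((t : ℝ) ^ p - t.descFactorial p) * B := by
      intro β
      have a1 : ((univ.filter fun θ : A ↪ X × Fin t => (fun a => (θ a).1) = β).card : ℝ) ≤ (t : ℝ) ^ p := by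
        exact_mod_cast fib_le β
      have a2 : ((t.descFactorial p : ℕ) : ℝ) ≤
          ((univ.filter fun θ : A ↪ X × Fin t => (fun a => (θ a).1) = β).card : ℝ) := by
        exact_mod_cast fib_ge β
      rw [abs_mul, abs_of_nonneg (by linarith)]
      exact mul_le_mul (by linarith) (hB β) (abs_nonneg _) (by linarith)
    refine (Finset.sum_le_sum fun β _ => h4 β).trans (le_of_eq ?_)
    rw [Finset.sum_const, nsmul_eq_mul, card_univ, Fintype.card_fun]
    push_cast
    rw [← hp]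
    ring
  have h5 : (t : ℝ) ^ p * |∑ β : A → X, h β| = |(t : ℝ) ^ p * ∑ β : A → X, h β| := by
    rw [abs_mul, abs_of_nonneg (by positivity : (0 : ℝ) ≤ (t : ℝ) ^ p)]
  rw [h5, h2]
  exact (abs_add_le _ _).trans (add_le_add le_rfl h3)

end fib

theorem desc_ge (t p : ℕ) (ht : 1 ≤ t) :
    (t : ℝ) ^ p - t.descFactorial p ≤ (t : ℝ) ^ p * ((p : ℝ) ^ 2 / t) := by
  have ht' : (0 : ℝ) < t := by exact_mod_cast ht
  by_cases hp : p ≤ t
  · rcases Nat.eq_zero_or_pos p with h0 | hp0
    · subst h0; simp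
    have h1 : (((t + 1 - p) ^ p : ℕ) : ℝ) ≤ (t.descFactorial p : ℝ) := by
      exact_mod_cast Nat.pow_sub_le_descFactorial t p
    have h2 : (((t + 1 - p) ^ p : ℕ) : ℝ) = ((t : ℝ) + 1 - p) ^ p := by
      push_cast [Nat.cast_sub (show p ≤ t + 1 by omega)]
      rfl
    rw [h2] at h1
    have h3 : ((t : ℝ) + 1 - p) ^ p = (t : ℝ) ^ p * (1 + (-((p : ℝ) - 1) / t)) ^ p := by
      rw [← mul_pow]
      congr 1
      field_simp
      ring
    have hpr : (1 : ℝ) ≤ p := by exact_mod_cast hp0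
    have hpt : (p : ℝ) ≤ t := by exact_mod_cast hp
    have h4 : 1 + (p : ℝ) * (-((p : ℝ) - 1) / t) ≤ (1 + (-((p : ℝ) - 1) / t)) ^ p := by
      refine one_add_mul_le_pow ?_ p
      have : ((p : ℝ) - 1) / t ≤ 2 := by
        rw [div_le_iff₀ ht']; linarith
      rw [neg_div]; linarith
    have h5 : (t : ℝ) ^ p * (1 + (p : ℝ) * (-((p : ℝ) - 1) / t)) ≤ (t.descFactorial p : ℝ) := by
      refine le_trans ?_ h1
      rw [h3]
      exact mul_le_mul_of_nonneg_left h4 (by positivity)
    have h6 : (t : ℝ) ^ p * ((p : ℝ) * (((p : ℝ) - 1) / t)) ≤ (t : ℝ) ^ p * ((p : ℝ) ^ 2 / t) := by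
      refine mul_le_mul_of_nonneg_left ?_ (by positivity)
      rw [← mul_div_assoc, div_le_div_iff_of_pos_right ht']
      nlinarith
    have h7 : (t : ℝ) ^ p * (1 + (p : ℝ) * (-((p : ℝ) - 1) / t)) =
        (t : ℝ) ^ p - (t : ℝ) ^ p * ((p : ℝ) * (((p : ℝ) - 1) / t)) := by ring
    linarith
  · push Not at hp
    have h1 : (1 : ℝ) ≤ (p : ℝ) ^ 2 / t := by
      rw [le_div_iff₀ ht', one_mul]
      have : (t : ℝ) ≤ p := by exact_mod_cast hp.le
      have h2 : (1 : ℝ) ≤ p := by
        have : 1 ≤ p := by omega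
        exact_mod_cast this
      nlinarith
    have h2 : (0 : ℝ) ≤ (t.descFactorial p : ℝ) := Nat.cast_nonneg _
    have h3 : (0 : ℝ) ≤ (t : ℝ) ^ p := by positivity
    nlinarith

section main
variable {k m : ℕ}

/-- the vertex set of the blow-up -/
abbrev YU (k : ℕ) {m : ℕ} (U : Finset (Fin m)) (t : ℕ) : Type := {a : Fin k ⊕ Fin m // Av U a} × Fin t

/-- the blow-up -/
def BU (F : Finset (Finset (Fin k ⊕ Fin m))) (U : Finset (Fin m)) (t : ℕ) : Finset (Finset (YU k U t)) :=
  sub F (fun y : YU k U t => y.1.1)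

/-- the function of the embeddings: roots in their own parts -/
noncomputable def gU (f : Finset (Finset (Fin k ⊕ Fin m)) → ℝ) (F : Finset (Finset (Fin k ⊕ Fin m)))
    (U : Finset (Fin m)) (t : ℕ) (θ : Fin k ⊕ Fin m ↪ YU k U t) : ℝ :=
  if (fun r : Fin k → YU k U t => ∀ i, (r i).1.1 = Sum.inl i) (fun i => θ (Sum.inl i)) then
    f (pull θ (BU F U t)) else 0

theorem QU_bound (f : Finset (Finset (Fin k ⊕ Fin m)) → ℝ) (F : Finset (Finset (Fin k ⊕ Fin m)))
    (U : Finset (Fin m)) (t : ℕ) (ht : 1 ≤ t) (B : ℝ) (hB : ∀ G, |f G| ≤ B) :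
    |QU f F U| ≤ ((k : ℝ) + m) ^ (k + m) * (|EE (gU f F U t)| + B * (((k : ℝ) + m) ^ 2 / t)) := by
  have hBnn : 0 ≤ B := (abs_nonneg _).trans (hB ∅)
  have ht' : (0 : ℝ) < t := by exact_mod_cast ht
  have hA : Fintype.card (Fin k ⊕ Fin m) = k + m := by simp
  have hX : (Fintype.card {a : Fin k ⊕ Fin m // Av U a} : ℝ) ≤ (k : ℝ) + m := by
    have := Fintype.card_subtype_le (fun a : Fin k ⊕ Fin m => Av U a)
    rw [hA] at this
    exact_mod_cast this
  -- `QU` as a sum over maps to the subtype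
  set h : (Fin k ⊕ Fin m → {a : Fin k ⊕ Fin m // Av U a}) → ℝ := fun β =>
    if ∀ i : Fin k, (β (Sum.inl i)).1 = Sum.inl i then f (sub F (fun a => (β a).1)) else 0 with hh
  have hQ : QU f F U = ∑ β : Fin k ⊕ Fin m → {a : Fin k ⊕ Fin m // Av U a}, h β := by
    unfold QU
    have e1 : ∀ β : Fin k ⊕ Fin m → Fin k ⊕ Fin m,
        (if RootId β ∧ ∀ a, Av U (β a) then f (sub F β) else 0) =
        if (∀ a, Av U (β a)) then (if RootId β then f (sub F β) else 0) else 0 := by
      intro β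
      by_cases h1 : RootId β <;> by_cases h2 : ∀ a, Av U (β a) <;> simp [h1, h2]
    rw [Finset.sum_congr rfl fun β _ => e1 β, ← Finset.sum_filter]
    rw [Finset.sum_subtype (univ.filter fun β : Fin k ⊕ Fin m → Fin k ⊕ Fin m => ∀ a, Av U (β a))
      (p := fun β => ∀ a, Av U (β a)) (by intro β; simp)]
    exact Fintype.sum_equiv (Equiv.subtypePiEquivPi) _ _ (fun β => rfl)
  have hhB : ∀ β, |h β| ≤ B := by
    intro β
    rw [hh]
    simp only
    split_ifs
    · exact hB _
    · simpa using hBnn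
  have hsum := fib_sum (t := t) h B hhB
  rw [← hQ, hA] at hsum
  have hEE : |∑ θ : Fin k ⊕ Fin m ↪ YU k U t, h (fun a => (θ a).1)| ≤
      |EE (gU f F U t)| * (((k : ℝ) + m) * t) ^ (k + m) := by
    have e1 : ∑ θ : Fin k ⊕ Fin m ↪ YU k U t, h (fun a => (θ a).1) =
        EE (gU f F U t) * (Fintype.card (Fin k ⊕ Fin m ↪ YU k U t) : ℝ) := by
      have e2 : ∀ θ : Fin k ⊕ Fin m ↪ YU k U t, h (fun a => (θ a).1) = gU f F U t θ := by
        intro θ
        unfold gU BU
        rw [pull_sub]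
      rw [Finset.sum_congr rfl fun θ _ => e2 θ]
      unfold EE
      by_cases hz : (Fintype.card (Fin k ⊕ Fin m ↪ YU k U t) : ℝ) = 0
      · have hz' : Fintype.card (Fin k ⊕ Fin m ↪ YU k U t) = 0 := by exact_mod_cast hz
        rw [Fintype.card_eq_zero_iff] at hz'
        simp
      · rw [div_mul_cancel₀ _ hz]
    rw [e1, abs_mul]
    refine mul_le_mul_of_nonneg_left ?_ (abs_nonneg _)
    rw [abs_of_nonneg (Nat.cast_nonneg _), Fintype.card_embedding_eq, hA]
    have e3 : (((Fintype.card (YU k U t)).descFactorial (k + m) : ℕ) : ℝ) ≤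
        ((Fintype.card (YU k U t) : ℕ) : ℝ) ^ (k + m) := by
      exact_mod_cast Nat.descFactorial_le_pow _ _
    refine e3.trans (pow_le_pow_left₀ (Nat.cast_nonneg _) ?_ _)
    rw [Fintype.card_prod, Fintype.card_fin]
    push_cast
    exact mul_le_mul_of_nonneg_right hX ht'.le
  have hd := desc_ge t (k + m) ht
  have htp : (0 : ℝ) < (t : ℝ) ^ (k + m) := by positivity
  have hXp : (Fintype.card {a : Fin k ⊕ Fin m // Av U a} : ℝ) ^ (k + m) ≤ ((k : ℝ) + m) ^ (k + m) :=
    pow_le_pow_left₀ (Nat.cast_nonneg _) hX _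
  have hfin : (t : ℝ) ^ (k + m) * |QU f F U| ≤
      (t : ℝ) ^ (k + m) * (((k : ℝ) + m) ^ (k + m) * (|EE (gU f F U t)| + B * (((k : ℝ) + m) ^ 2 / t))) := by
    refine hsum.trans ?_
    have a1 : (Fintype.card {a : Fin k ⊕ Fin m // Av U a} : ℝ) ^ (k + m) * B *
        ((t : ℝ) ^ (k + m) - t.descFactorial (k + m)) ≤
        ((k : ℝ) + m) ^ (k + m) * B * ((t : ℝ) ^ (k + m) * (((k : ℝ) + m) ^ 2 / t)) := by
      have b0 : (0 : ℝ) ≤ (t : ℝ) ^ (k + m) - t.descFactorial (k + m) := by
        have : ((t.descFactorial (k + m) : ℕ) : ℝ) ≤ (t : ℝ) ^ (k + m) := by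
          exact_mod_cast Nat.descFactorial_le_pow t (k + m)
        linarith
      refine mul_le_mul (mul_le_mul_of_nonneg_right hXp hBnn) ?_ b0 (by positivity)
      refine hd.trans (le_of_eq ?_)
      push_cast
      ring
    refine (add_le_add hEE a1).trans (le_of_eq ?_)
    rw [mul_pow]
    ring
  exact le_of_mul_le_mul_left hfin htp

end main

end Pool.Agent.T2h36.Uni
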