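import Pool.Agent.T2h36.Uni3
import Pool.Agent.T2h36.UniDefs

/-! A certificate bounds the values of its combinations of flags on `K_4^3`-free flags. -/

set_option autoImplicit false
set_option linter.unusedSectionVars false
open Finset

namespace Pool.Agent.T2h36.Uni

/-- averaging a certificate over the samples of a large `K_4^3`-free 3-graph -/
theorem cert_avg {N r : ℕ} (hN : 3 ≤ N) (f : ∀ k m : ℕ, Fin r → Finset (Finset (Fin k ⊕ Fin m)) → ℝ)
    (lam : ℝ) (h : ∀ G : Finset (Finset (Fin N)), Is3 G → K43Free G → edgeDens G + sos N r f G ≤ lam)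
    {V : Type} [Fintype V] [DecidableEq V] (H : Finset (Finset V)) (h3 : Is3 H) (hF : K43Free H)
    (hV : N ≤ Fintype.card V) :
    edgeDens H + ∑ p ∈ pairs N, ∑ j : Fin r, avg (square (f p.1 p.2 j)) H ≤ lam := by
  have h1 : avg (fun G : Finset (Finset (Fin N)) => avg psi3 G + sos N r f G) H ≤ lam := by
    refine (avg_mono _ (fun _ => lam) H fun θ => ?_).trans (avg_const _ _ (by simpa using hV)).le
    have := h (pull θ H) (is3_pull θ h3) ?_
    · rwa [edgeDens_eq (pull θ H) (is3_pull θ h3) (by simpa using hN)] at this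
    · intro S hS
      obtain ⟨T, hT, hT3, hTH⟩ := hF (S.map θ) (by rw [card_map]; exact hS)
      obtain ⟨T', hT'S, rfl⟩ := Finset.subset_map_iff.mp hT
      exact ⟨T', hT'S, by rwa [card_map] at hT3, fun hm => hTH ((mem_pull θ H T').mp hm)⟩
  rw [avg_add] at h1
  have h2 : avg (fun G : Finset (Finset (Fin N)) => avg psi3 G) H = edgeDens H := by
    rw [edgeDens_eq H h3 (by omega)]
    exact avg_avg psi3 _ (by simpa using hN) (by simpa using hV)
  have h3' : avg (fun G : Finset (Finset (Fin N)) => sos N r f G) H =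
      ∑ p ∈ pairs N, ∑ j : Fin r, avg (square (f p.1 p.2 j)) H := by
    unfold sos
    rw [avg_sum]
    refine Finset.sum_congr rfl fun p hp => ?_
    rw [avg_sum]
    refine Finset.sum_congr rfl fun j _ => ?_
    refine avg_avg (square (f p.1 p.2 j)) _ ?_ (by simpa using hV)
    have := (mem_filter.mp hp).2.2
    simp only [Fintype.card_sum, Fintype.card_fin]
    omega
  rw [h2, h3'] at h1
  exact h1

/-- all squares are at least `-ε` on all large 3-graphs -/
theorem squares_ge {N r : ℕ} (f : ∀ k m : ℕ, Fin r → Finset (Finset (Fin k ⊕ Fin m)) → ℝ) (ε : ℝ) (hε : 0 < ε) :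
    ∃ n₁ : ℕ, ∀ p ∈ pairs N, ∀ j : Fin r, ∀ (V : Type) [Fintype V] [DecidableEq V] (H : Finset (Finset V)),
      n₁ ≤ Fintype.card V → -ε ≤ avg (square (f p.1 p.2 j)) H := by
  have h : ∀ (p : ℕ × ℕ) (j : Fin r), ∃ n₁ : ℕ, ∀ (V : Type) [Fintype V] [DecidableEq V] (H : Finset (Finset V)),
      n₁ ≤ Fintype.card V → -ε ≤ avg (square (f p.1 p.2 j)) H := fun p j => square_nonneg _ ε hε
  choose n hn using h
  refine ⟨∑ p ∈ pairs N, ∑ j : Fin r, n p j, fun p hp j V _ _ H hV => hn p j V H ?_⟩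
  have h1 : n p j ≤ ∑ j : Fin r, n p j := Finset.single_le_sum (f := fun j => n p j) (fun _ _ => Nat.zero_le _) (mem_univ j)
  have h2 : ∑ j : Fin r, n p j ≤ ∑ p ∈ pairs N, ∑ j : Fin r, n p j :=
    Finset.single_le_sum (f := fun p => ∑ j : Fin r, n p j) (fun _ _ => Nat.zero_le _) hp
  omega

theorem QU_sq_sum {N r : ℕ} (hN : 3 ≤ N) (f : ∀ k m : ℕ, Fin r → Finset (Finset (Fin k ⊕ Fin m)) → ℝ)
    (h : ∀ G : Finset (Finset (Fin N)), Is3 G → K43Free G → edgeDens G + sos N r f G ≤ 1)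
    (k m : ℕ) (hkm : (k, m) ∈ pairs N) (F : Finset (Finset (Fin k ⊕ Fin m))) (h3 : Is3 F) (hF : K43Free F)
    (U : Finset (Fin m)) :
    ∑ j : Fin r, QU (f k m j) F U ^ 2 ≤ 8 * (((k : ℝ) + m) ^ (k + m)) ^ 2 := by
  have hm1 : 1 ≤ m := (mem_filter.mp hkm).2.1
  by_cases hne : Nonempty {a : Fin k ⊕ Fin m // Av U a}
  swap
  · -- no vertices available
    have hz : ∀ j : Fin r, QU (f k m j) F U = 0 := by
      intro j
      unfold QU
      refine Finset.sum_eq_zero fun β _ => ?_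
      rw [if_neg]
      rintro ⟨_, hav⟩
      exact hne ⟨⟨β (Sum.inr ⟨0, hm1⟩), hav _⟩⟩
    rw [Finset.sum_congr rfl fun j _ => by rw [hz j]]
    simp
    positivity
  -- a common bound
  set B : ℝ := ∑ j : Fin r, ∑ G : Finset (Finset (Fin k ⊕ Fin m)), |f k m j G| with hBdef
  have hB : ∀ j G, |f k m j G| ≤ B := by
    intro j G
    have h1 : |f k m j G| ≤ ∑ G : Finset (Finset (Fin k ⊕ Fin m)), |f k m j G| :=
      Finset.single_le_sum (f := fun G => |f k m j G|) (fun _ _ => abs_nonneg _) (mem_univ G)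
    have h2 : ∑ G : Finset (Finset (Fin k ⊕ Fin m)), |f k m j G| ≤ B :=
      Finset.single_le_sum (f := fun j => ∑ G : Finset (Finset (Fin k ⊕ Fin m)), |f k m j G|)
        (fun _ _ => Finset.sum_nonneg fun _ _ => abs_nonneg _) (mem_univ j)
    exact h1.trans h2
  have hBnn : 0 ≤ B := Finset.sum_nonneg fun _ _ => Finset.sum_nonneg fun _ _ => abs_nonneg _
  set R : ℝ := ((pairs N).card : ℝ) * r + 1 with hR
  have hRpos : 0 < R := by positivity
  have hr1 : (r : ℝ) ≤ (r : ℝ) + 1 := by linarith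
  obtain ⟨n₁, hn₁⟩ := squares_ge (N := N) f (1 / R) (by positivity)
  obtain ⟨M, hM⟩ := exists_nat_gt (2 * B ^ 2 * ((r : ℝ) + 1) + 2)
  obtain ⟨t0, ht0⟩ := exists_nat_gt (B * ((k : ℝ) + m) ^ 2 * ((r : ℝ) + 1))
  set t : ℕ := n₁ + N + (k + M * m) + t0 + 1 with ht
  have ht1 : 1 ≤ t := by omega
  have htpos : (0 : ℝ) < t := by exact_mod_cast ht1
  have hcY : t ≤ Fintype.card (YU k U t) := by
    rw [Fintype.card_prod, Fintype.card_fin]
    have : 0 < Fintype.card {a : Fin k ⊕ Fin m // Av U a} := Fintype.card_pos_iff.mpr hne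
    nlinarith
  have hM2 : 2 ≤ M := by
    have h1 : (0 : ℝ) ≤ 2 * B ^ 2 * ((r : ℝ) + 1) := by positivity
    have h2 : (2 : ℝ) < M := by linarith
    exact_mod_cast h2.le
  -- the certificate for the blow-up
  have hc := cert_avg hN f 1 h (BU F U t) (sub_is3 _ _) (sub_free h3 hF _) (by omega)
  have hed : 0 ≤ edgeDens (BU F U t) := div_nonneg (Nat.cast_nonneg _) (Nat.cast_nonneg _)
  have hlow : ∀ p ∈ pairs N, ∀ j : Fin r, -(1 / R) ≤ avg (square (f p.1 p.2 j)) (BU F U t) :=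
    fun p hp j => hn₁ p hp j _ _ (by omega)
  have hsum : ∑ j : Fin r, avg (square (f k m j)) (BU F U t) ≤ 2 := by
    have h1 : ∑ p ∈ (pairs N).erase (k, m), ∑ j : Fin r, -(1 / R) ≤
        ∑ p ∈ (pairs N).erase (k, m), ∑ j : Fin r, avg (square (f p.1 p.2 j)) (BU F U t) :=
      Finset.sum_le_sum fun p hp => Finset.sum_le_sum fun j _ => hlow p (Finset.mem_of_mem_erase hp) j
    have h2 := Finset.add_sum_erase (pairs N)
      (fun p => ∑ j : Fin r, avg (square (f p.1 p.2 j)) (BU F U t)) hkm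
    simp only at h2
    rw [← h2] at hc
    have h3' : ∑ p ∈ (pairs N).erase (k, m), ∑ _j : Fin r, -(1 / R) ≥ -1 := by
      rw [Finset.sum_const, Finset.sum_const, card_univ, Fintype.card_fin]
      simp only [nsmul_eq_mul]
      have h4 : (((pairs N).erase (k, m)).card : ℝ) * ((r : ℝ) * -(1 / R)) =
          -((((pairs N).erase (k, m)).card : ℝ) * r / R) := by ring
      rw [h4, ge_iff_le, neg_le_neg_iff, div_le_one hRpos, hR]
      have h5 : (((pairs N).erase (k, m)).card : ℝ) ≤ ((pairs N).card : ℝ) := by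
        exact_mod_cast Finset.card_le_card (Finset.erase_subset _ _)
      have h6 : (0 : ℝ) ≤ r := Nat.cast_nonneg _
      nlinarith
    linarith
  have hM1 : (0 : ℝ) < (M : ℝ) - 1 := by
    have : (2 : ℝ) ≤ M := by exact_mod_cast hM2
    linarith
  -- first moments
  have hEE : ∑ j : Fin r, EE (gU (f k m j) F U t) ^ 2 ≤ 3 := by
    have h1 : ∀ j : Fin r, EE (gU (f k m j) F U t) ^ 2 ≤
        avg (square (f k m j)) (BU F U t) + 2 * (B ^ 2 / ((M : ℝ) - 1)) := by
      intro j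
      have := square_ge (f k m j) B (hB j) M hM2 (BU F U t) (by omega)
        (fun r : Fin k → YU k U t => ∀ i, (r i).1.1 = Sum.inl i)
      have h2 : (fun θ : Fin k ⊕ Fin m ↪ YU k U t =>
        if (fun r : Fin k → YU k U t => ∀ i, (r i).1.1 = Sum.inl i) (fun i => θ (Sum.inl i)) then
          f k m j (pull θ (BU F U t)) else 0) = gU (f k m j) F U t := rfl
      rw [h2] at this
      linarith
    refine (Finset.sum_le_sum fun j _ => h1 j).trans ?_
    rw [Finset.sum_add_distrib, Finset.sum_const, nsmul_eq_mul, card_univ, Fintype.card_fin]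
    have h2 : (r : ℝ) * (2 * (B ^ 2 / ((M : ℝ) - 1))) ≤ 1 := by
      have e : (r : ℝ) * (2 * (B ^ 2 / ((M : ℝ) - 1))) = (2 * B ^ 2 * r) / ((M : ℝ) - 1) := by ring
      rw [e, div_le_one hM1]
      have : 2 * B ^ 2 * (r : ℝ) ≤ 2 * B ^ 2 * ((r : ℝ) + 1) := mul_le_mul_of_nonneg_left hr1 (by positivity)
      linarith
    linarith
  set P : ℝ := ((k : ℝ) + m) ^ (k + m) with hP
  set e : ℝ := B * (((k : ℝ) + m) ^ 2 / t) with he
  have hPnn : 0 ≤ P := by positivity
  have henn : 0 ≤ e := by positivity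
  have her : e * ((r : ℝ) + 1) ≤ 1 := by
    have h1 : e * ((r : ℝ) + 1) = (B * ((k : ℝ) + m) ^ 2 * ((r : ℝ) + 1)) / t := by rw [he]; ring
    rw [h1, div_le_one htpos]
    have h2 : (t0 : ℝ) ≤ t := by
      have : t0 ≤ t := by omega
      exact_mod_cast this
    linarith
  have h1 : ∀ j : Fin r, QU (f k m j) F U ^ 2 ≤ P ^ 2 * (2 * (EE (gU (f k m j) F U t) ^ 2 + e ^ 2)) := by
    intro j
    have h2 := QU_bound (f k m j) F U t ht1 B (hB j)
    rw [← hP, ← he] at h2
    have h3' : QU (f k m j) F U ^ 2 ≤ (P * (|EE (gU (f k m j) F U t)| + e)) ^ 2 := by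
      rw [← sq_abs (QU (f k m j) F U)]
      exact pow_le_pow_left₀ (abs_nonneg _) h2 2
    refine h3'.trans ?_
    rw [mul_pow]
    refine mul_le_mul_of_nonneg_left ?_ (sq_nonneg _)
    rw [← sq_abs (EE (gU (f k m j) F U t))]
    nlinarith [sq_nonneg (|EE (gU (f k m j) F U t)| - e)]
  refine (Finset.sum_le_sum fun j _ => h1 j).trans ?_
  rw [← Finset.mul_sum, ← Finset.mul_sum, Finset.sum_add_distrib, Finset.sum_const, nsmul_eq_mul, card_univ,
    Fintype.card_fin]
  have h5 : (r : ℝ) * e ^ 2 ≤ 1 := by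
    have h8 : (0 : ℝ) ≤ r := Nat.cast_nonneg _
    have h9 : 0 ≤ e * (r : ℝ) := mul_nonneg henn h8
    have h10 : e * ((r : ℝ) + 1) = e * (r : ℝ) + e := by ring
    have h6 : e ≤ 1 := by linarith
    have h7 : e ^ 2 ≤ e := by
      rw [sq]
      calc e * e ≤ e * 1 := mul_le_mul_of_nonneg_left h6 henn
        _ = e := mul_one _
    calc (r : ℝ) * e ^ 2 ≤ (r : ℝ) * e := mul_le_mul_of_nonneg_left h7 h8
      _ = e * (r : ℝ) := mul_comm _ _
      _ ≤ 1 := by linarith
  have h6 : 2 * (∑ j : Fin r, EE (gU (f k m j) F U t) ^ 2 + (r : ℝ) * e ^ 2) ≤ 8 := by linarith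
  calc P ^ 2 * (2 * (∑ j : Fin r, EE (gU (f k m j) F U t) ^ 2 + (r : ℝ) * e ^ 2)) ≤ P ^ 2 * 8 :=
        mul_le_mul_of_nonneg_left h6 (sq_nonneg _)
    _ = 8 * P ^ 2 := by ring

/-- the symmetrised combinations are bounded on `K_4^3`-free flags -/
theorem symm_sq_sum {N r : ℕ} (hN : 3 ≤ N) (f : ∀ k m : ℕ, Fin r → Finset (Finset (Fin k ⊕ Fin m)) → ℝ)
    (h : ∀ G : Finset (Finset (Fin N)), Is3 G → K43Free G → edgeDens G + sos N r f G ≤ 1)
    (k m : ℕ) (hkm : (k, m) ∈ pairs N) (F : Finset (Finset (Fin k ⊕ Fin m))) (h3 : Is3 F) (hF : K43Free F) :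
    ∑ j : Fin r, symm (f k m j) F ^ 2 ≤ 8 * 4 ^ m * (((k : ℝ) + m) ^ (k + m)) ^ 2 := by
  have h1 : ∀ j : Fin r, symm (f k m j) F ^ 2 ≤ 2 ^ m * ∑ U : Finset (Fin m), QU (f k m j) F U ^ 2 := by
    intro j
    rw [incl_excl]
    have h2 := sq_sum_le_card_mul_sum_sq (s := (univ : Finset (Finset (Fin m))))
      (f := fun U => (-1 : ℝ) ^ U.card * QU (f k m j) F U)
    rw [card_univ, Fintype.card_finset, Fintype.card_fin] at h2
    push_cast at h2
    refine h2.trans (le_of_eq ?_)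
    congr 1
    refine Finset.sum_congr rfl fun U _ => ?_
    rw [mul_pow, ← pow_mul, mul_comm U.card 2, pow_mul]
    norm_num
  refine (Finset.sum_le_sum fun j _ => h1 j).trans ?_
  rw [← Finset.mul_sum, Finset.sum_comm]
  have h2 : ∑ U : Finset (Fin m), ∑ j : Fin r, QU (f k m j) F U ^ 2 ≤
      ∑ _U : Finset (Fin m), 8 * (((k : ℝ) + m) ^ (k + m)) ^ 2 :=
    Finset.sum_le_sum fun U _ => QU_sq_sum hN f h k m hkm F h3 hF U
  rw [Finset.sum_const, nsmul_eq_mul, card_univ, Fintype.card_finset, Fintype.card_fin] at h2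
  push_cast at h2
  calc (2 : ℝ) ^ m * ∑ U : Finset (Fin m), ∑ j : Fin r, QU (f k m j) F U ^ 2
      ≤ 2 ^ m * (2 ^ m * (8 * (((k : ℝ) + m) ^ (k + m)) ^ 2)) := mul_le_mul_of_nonneg_left h2 (by positivity)
    _ = 8 * 4 ^ m * (((k : ℝ) + m) ^ (k + m)) ^ 2 := by
        have : (4 : ℝ) ^ m = 2 ^ m * 2 ^ m := by rw [← mul_pow]; norm_num
        rw [this]; ring

end Pool.Agent.T2h36.Uni
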