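import Pool.Agent.T2h36.Uni4

/-! A certificate has bounded values on all 3-graphs, after discarding the flags which are not
`K_4^3`-free. -/

set_option autoImplicit false
set_option linter.unusedSectionVars false
open Finset

namespace Pool.Agent.T2h36.Uni

section sym
variable {k m : ℕ} {V : Type} [Fintype V] [DecidableEq V]

/-- symmetrisation of the square -/
theorem sum_symm (g : Finset (Finset (Fin k ⊕ Fin m)) → ℝ) (G : Finset (Finset V)) (h3 : Is3 G) :
    ((Nat.factorial m : ℝ)) ^ 2 * avg (square g) G =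
      avg (fun G' => symm g (pull (left k m) G') * symm g (pull (right k m) G')) G := by
  have h1 : ∀ σ σ' : Equiv.Perm (Fin m),
      ∑ Θ : Fin k ⊕ (Fin m ⊕ Fin m) ↪ V, square g (pull Θ G) =
      ∑ Θ : Fin k ⊕ (Fin m ⊕ Fin m) ↪ V,
        g (sub (pull (left k m) (pull Θ G)) (Sum.map id σ)) * g (sub (pull (right k m) (pull Θ G)) (Sum.map id σ')) := by
    intro σ σ'
    set γ : Fin k ⊕ (Fin m ⊕ Fin m) ≃ Fin k ⊕ (Fin m ⊕ Fin m) :=
      Equiv.sumCongr (Equiv.refl _) (Equiv.sumCongr σ σ') with hγ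
    have hb : Function.Bijective (fun Θ : Fin k ⊕ (Fin m ⊕ Fin m) ↪ V => γ.toEmbedding.trans Θ) := by
      constructor
      · intro Θ Θ' hh
        refine DFunLike.ext _ _ fun a => ?_
        have := DFunLike.congr_fun hh (γ.symm a)
        simpa using this
      · intro Θ
        refine ⟨γ.symm.toEmbedding.trans Θ, ?_⟩
        refine DFunLike.ext _ _ fun a => ?_
        simp
    rw [← hb.sum_comp (fun Θ => square g (pull Θ G))]
    refine Finset.sum_congr rfl fun Θ _ => ?_
    have hF1 : Is3 (pull (left k m) (pull Θ G)) := is3_pull _ (is3_pull _ h3)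
    have hF2 : Is3 (pull (right k m) (pull Θ G)) := is3_pull _ (is3_pull _ h3)
    have e1 : sub (pull (left k m) (pull Θ G)) (Sum.map id σ) =
        pull (Equiv.sumCongr (Equiv.refl (Fin k)) σ).toEmbedding (pull (left k m) (pull Θ G)) := by
      rw [← sub_emb hF1]
      rfl
    have e2 : sub (pull (right k m) (pull Θ G)) (Sum.map id σ') =
        pull (Equiv.sumCongr (Equiv.refl (Fin k)) σ').toEmbedding (pull (right k m) (pull Θ G)) := by
      rw [← sub_emb hF2]
      rfl
    rw [e1, e2]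
    unfold square
    rw [pull_pull, pull_pull, pull_pull, pull_pull, pull_pull, pull_pull]
    have a1 : (left k m).trans (γ.toEmbedding.trans Θ) =
        (Equiv.sumCongr (Equiv.refl (Fin k)) σ).toEmbedding.trans ((left k m).trans Θ) := by
      refine DFunLike.ext _ _ fun a => ?_
      rcases a with a | a <;> rfl
    have a2 : (right k m).trans (γ.toEmbedding.trans Θ) =
        (Equiv.sumCongr (Equiv.refl (Fin k)) σ').toEmbedding.trans ((right k m).trans Θ) := by
      refine DFunLike.ext _ _ fun a => ?_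
      rcases a with a | a <;> rfl
    rw [a1, a2]
    rfl
  have h2 : (Nat.factorial m : ℝ) ^ 2 * ∑ Θ : Fin k ⊕ (Fin m ⊕ Fin m) ↪ V, square g (pull Θ G) =
      ∑ Θ : Fin k ⊕ (Fin m ⊕ Fin m) ↪ V,
        symm g (pull (left k m) (pull Θ G)) * symm g (pull (right k m) (pull Θ G)) := by
    have h3' : (Nat.factorial m : ℝ) ^ 2 * ∑ Θ : Fin k ⊕ (Fin m ⊕ Fin m) ↪ V, square g (pull Θ G) =
        ∑ _σ : Equiv.Perm (Fin m), ∑ _σ' : Equiv.Perm (Fin m),
          ∑ Θ : Fin k ⊕ (Fin m ⊕ Fin m) ↪ V, square g (pull Θ G) := by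
      rw [Finset.sum_const, Finset.sum_const, card_univ, Fintype.card_perm, Fintype.card_fin]
      simp only [nsmul_eq_mul]
      ring
    rw [h3']
    rw [Finset.sum_congr rfl fun σ _ => Finset.sum_congr rfl fun σ' _ => h1 σ σ']
    unfold symm
    simp_rw [Finset.sum_mul_sum]
    rw [Finset.sum_congr rfl fun σ _ => Finset.sum_comm, Finset.sum_comm]
  unfold avg
  rw [← mul_div_assoc, h2]

end sym

theorem free_perm {k m : ℕ} {F : Finset (Finset (Fin k ⊕ Fin m))} (h3 : Is3 F) (σ : Equiv.Perm (Fin m))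
    (h : K43Free (sub F (Sum.map id σ))) : K43Free F := by
  have h1 : sub (sub F (Sum.map id σ)) (Sum.map id σ.symm) = F := by
    ext e
    rw [mem_sub, mem_sub, Finset.image_image]
    have e1 : (Sum.map id σ ∘ Sum.map id σ.symm : Fin k ⊕ Fin m → Fin k ⊕ Fin m) = id := by
      funext a
      rcases a with a | a <;> simp
    rw [e1, Finset.image_id]
    constructor
    · exact fun h => h.2.2
    · intro he
      refine ⟨h3 e he, ?_, he⟩
      have hinj : Function.Injective (Sum.map id σ.symm : Fin k ⊕ Fin m → Fin k ⊕ Fin m) :=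
        Sum.map_injective.mpr ⟨Function.injective_id, σ.symm.injective⟩
      rw [Finset.card_image_of_injective _ hinj]
      exact h3 e he
  rw [← h1]
  exact sub_free (sub_is3 _ _) h _

/-- the constant which bounds the squares with `k` roots and `m` further vertices -/
noncomputable def Ckm (k m : ℕ) : ℝ := 8 * 4 ^ m * (((k : ℝ) + m) ^ (k + m)) ^ 2

open Classical in
theorem sos_le {N r : ℕ} (hN : 3 ≤ N) (f : ∀ k m : ℕ, Fin r → Finset (Finset (Fin k ⊕ Fin m)) → ℝ)
    (h : ∀ G : Finset (Finset (Fin N)), Is3 G → K43Free G → edgeDens G + sos N r f G ≤ 1)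
    (hf : ∀ k m j F, ¬ K43Free F → f k m j F = 0) (G : Finset (Finset (Fin N))) (h3 : Is3 G) :
    sos N r f G ≤ ∑ p ∈ pairs N, Ckm p.1 p.2 := by
  unfold sos
  refine Finset.sum_le_sum fun p hp => ?_
  obtain ⟨k, m⟩ := p
  have hkm := (mem_filter.mp hp).2
  simp only at hkm ⊢
  have hC : ∀ F : Finset (Finset (Fin k ⊕ Fin m)), Is3 F → ∑ j : Fin r, symm (f k m j) F ^ 2 ≤ Ckm k m := by
    intro F hF3
    by_cases hF : K43Free F
    · exact symm_sq_sum hN f h k m hp F hF3 hF
    · have hz : ∀ j : Fin r, symm (f k m j) F = 0 := by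
        intro j
        unfold symm
        refine Finset.sum_eq_zero fun σ _ => ?_
        exact hf k m j _ (fun hh => hF (free_perm hF3 σ hh))
      rw [Finset.sum_congr rfl fun j _ => by rw [hz j]]
      unfold Ckm
      simp
      positivity
  have h1 : (Nat.factorial m : ℝ) ^ 2 * ∑ j : Fin r, avg (square (f k m j)) G ≤ Ckm k m := by
    rw [Finset.mul_sum, Finset.sum_congr rfl fun j _ => sum_symm (f k m j) G h3, ← avg_sum]
    refine (avg_mono _ (fun _ => Ckm k m) G fun Θ => ?_).trans (avg_const _ _ ?_).le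
    · have a1 := hC (pull (left k m) (pull Θ G)) (is3_pull _ (is3_pull _ h3))
      have a2 := hC (pull (right k m) (pull Θ G)) (is3_pull _ (is3_pull _ h3))
      have a3 : ∀ j : Fin r, symm (f k m j) (pull (left k m) (pull Θ G)) * symm (f k m j) (pull (right k m) (pull Θ G)) ≤
          (1 / 2) * (symm (f k m j) (pull (left k m) (pull Θ G)) ^ 2) +
          (1 / 2) * (symm (f k m j) (pull (right k m) (pull Θ G)) ^ 2) := by
        intro j
        nlinarith [sq_nonneg (symm (f k m j) (pull (left k m) (pull Θ G)) - symm (f k m j) (pull (right k m) (pull Θ G)))]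
      refine (Finset.sum_le_sum fun j _ => a3 j).trans ?_
      rw [Finset.sum_add_distrib, ← Finset.mul_sum, ← Finset.mul_sum]
      linarith
    · simp only [Fintype.card_sum, Fintype.card_fin]
      omega
  have h2 : (1 : ℝ) ≤ (Nat.factorial m : ℝ) ^ 2 := by
    have : (1 : ℝ) ≤ (Nat.factorial m : ℝ) := by exact_mod_cast Nat.one_le_iff_ne_zero.mpr (Nat.factorial_ne_zero m)
    nlinarith
  have h3' : 0 ≤ Ckm k m := by unfold Ckm; positivity
  by_cases hneg : ∑ j : Fin r, avg (square (f k m j)) G ≤ 0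
  · exact hneg.trans h3'
  · push Not at hneg
    nlinarith

theorem sum_Ckm (N : ℕ) (hN : 1 ≤ N) :
    ∑ p ∈ pairs N, Ckm p.1 p.2 ≤ ((8 * (N + 1) ^ 2 * 4 ^ N * N ^ (2 * N) : ℕ) : ℝ) := by
  have hNr : (1 : ℝ) ≤ N := by exact_mod_cast hN
  have h1 : ∀ p ∈ pairs N, Ckm p.1 p.2 ≤ 8 * 4 ^ N * ((N : ℝ) ^ N) ^ 2 := by
    intro p hp
    have hp2 := (mem_filter.mp hp).2
    unfold Ckm
    have a1 : (4 : ℝ) ^ p.2 ≤ 4 ^ N := pow_le_pow_right₀ (by norm_num) (by omega)
    have a2 : ((p.1 : ℝ) + p.2) ^ (p.1 + p.2) ≤ (N : ℝ) ^ N := by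
      have b1 : ((p.1 : ℝ) + p.2) ≤ N := by
        have : p.1 + p.2 ≤ N := by omega
        exact_mod_cast this
      calc ((p.1 : ℝ) + p.2) ^ (p.1 + p.2) ≤ (N : ℝ) ^ (p.1 + p.2) := pow_le_pow_left₀ (by positivity) b1 _
        _ ≤ (N : ℝ) ^ N := pow_le_pow_right₀ hNr (by omega)
    have a3 : (((p.1 : ℝ) + p.2) ^ (p.1 + p.2)) ^ 2 ≤ ((N : ℝ) ^ N) ^ 2 := pow_le_pow_left₀ (by positivity) a2 2
    exact mul_le_mul (mul_le_mul_of_nonneg_left a1 (by norm_num)) a3 (by positivity) (by positivity)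
  have h2 : ((pairs N).card : ℝ) ≤ ((N : ℝ) + 1) ^ 2 := by
    have : (pairs N).card ≤ (N + 1) * (N + 1) := by
      unfold pairs
      refine (Finset.card_filter_le _ _).trans ?_
      rw [card_product, card_range]
    have h3 : ((pairs N).card : ℝ) ≤ ((N : ℝ) + 1) * ((N : ℝ) + 1) := by exact_mod_cast this
    linarith [sq ((N : ℝ) + 1)]
  calc ∑ p ∈ pairs N, Ckm p.1 p.2 ≤ ∑ _p ∈ pairs N, 8 * 4 ^ N * ((N : ℝ) ^ N) ^ 2 := Finset.sum_le_sum h1
    _ = ((pairs N).card : ℝ) * (8 * 4 ^ N * ((N : ℝ) ^ N) ^ 2) := by rw [Finset.sum_const, nsmul_eq_mul]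
    _ ≤ ((N : ℝ) + 1) ^ 2 * (8 * 4 ^ N * ((N : ℝ) ^ N) ^ 2) := mul_le_mul_of_nonneg_right h2 (by positivity)
    _ = ((8 * (N + 1) ^ 2 * 4 ^ N * N ^ (2 * N) : ℕ) : ℝ) := by
        push_cast
        rw [pow_mul' (N : ℝ) 2 N]
        ring

end Pool.Agent.T2h36.Uni
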